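import Pool.Agent.NH22.Lin

/-! Regular continued fractions: the basic identities, and the partial quotients of the numbers
`(a + b e) / (c + d e)`. -/

set_option autoImplicit false

namespace Pool.Agent.NH22.CF

open Pool.Agent.H43R2.Cplx Real

/-- the Gauss map -/
noncomputable def T (x : ℝ) : ℝ := (Int.fract x)⁻¹

/-- complete quotients -/
noncomputable def cq (x : ℝ) (n : ℕ) : ℝ := T^[n] x

/-- partial quotients -/
noncomputable def pq (x : ℝ) (n : ℕ) : ℤ := ⌊T^[n] x⌋

theorem cq_zero (x : ℝ) : cq x 0 = x := rfl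

theorem cq_succ (x : ℝ) (n : ℕ) : cq x (n + 1) = (Int.fract (cq x n))⁻¹ := by
  unfold cq
  rw [Function.iterate_succ_apply']
  rfl

theorem cq_irr {x : ℝ} (hx : Irrational x) (n : ℕ) : Irrational (cq x n) := by
  induction n with
  | zero => exact hx
  | succ n ih =>
    rw [cq_succ]
    apply Irrational.inv
    unfold Int.fract
    exact ih.sub_intCast _

theorem fract_pos {x : ℝ} (hx : Irrational x) (n : ℕ) : 0 < Int.fract (cq x n) := by
  apply Int.fract_pos.mpr
  intro h
  exact (cq_irr hx n).ne_int _ h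

theorem one_lt_cq {x : ℝ} (hx : Irrational x) (n : ℕ) : 1 < cq x (n + 1) := by
  rw [cq_succ]
  exact (one_lt_inv₀ (fract_pos hx n)).mpr (Int.fract_lt_one _)

theorem one_le_pq {x : ℝ} (hx : Irrational x) (n : ℕ) : 1 ≤ pq x (n + 1) := by
  have h := one_lt_cq hx n
  unfold pq
  exact Int.le_floor.mpr (by push_cast; exact h.le)

/-- denominators -/
noncomputable def Q (x : ℝ) : ℕ → ℤ
  | 0 => 0
  | 1 => 1
  | (n + 2) => pq x (n + 1) * Q x (n + 1) + Q x n

/-- numerators -/
noncomputable def P (x : ℝ) : ℕ → ℤ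
  | 0 => 1
  | 1 => pq x 0
  | (n + 2) => pq x (n + 1) * P x (n + 1) + P x n

theorem Q_rec (x : ℝ) (n : ℕ) : Q x (n + 2) = pq x (n + 1) * Q x (n + 1) + Q x n := rfl

theorem P_rec (x : ℝ) (n : ℕ) : P x (n + 2) = pq x (n + 1) * P x (n + 1) + P x n := rfl

/-- `Q x - P` -/
noncomputable def th (x : ℝ) (n : ℕ) : ℝ := Q x n * x - P x n

theorem th_step {x : ℝ} (hx : Irrational x) (n : ℕ) : th x n = - (cq x (n + 1)) * th x (n + 1) := by
  induction n with
  | zero =>
    have h := (fract_pos hx 0).ne'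
    rw [cq_succ]
    have h1 : th x 0 = -1 := by simp [th, Q, P]
    have h2 : th x 1 = Int.fract (cq x 0) := by
      have e1 : th x 1 = 1 * x - (⌊x⌋ : ℝ) := by
        have : P x 1 = ⌊x⌋ := rfl
        have h' : Q x 1 = 1 := rfl
        unfold th
        rw [this, h']
        push_cast
        ring
      rw [e1, one_mul]
      rfl
    rw [h1, h2]
    field_simp
  | succ n ih =>
    have h := (fract_pos hx (n + 1)).ne'
    have h1 : th x (n + 2) = pq x (n + 1) * th x (n + 1) + th x n := by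
      unfold th
      rw [Q_rec, P_rec]
      push_cast
      ring
    have h2 : th x (n + 2) = - Int.fract (cq x (n + 1)) * th x (n + 1) := by
      rw [h1, ih]
      have : Int.fract (cq x (n + 1)) = cq x (n + 1) - pq x (n + 1) := rfl
      rw [this]
      ring
    rw [show n + 1 + 1 = n + 2 by ring, cq_succ x (n + 1), h2]
    field_simp

theorem det (x : ℝ) (n : ℕ) : Q x (n + 1) * P x n - Q x n * P x (n + 1) = (-1) ^ n := by
  induction n with
  | zero => simp [Q, P]
  | succ n ih =>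
    rw [show n + 1 + 1 = n + 2 by ring, Q_rec, P_rec, pow_succ]
    linear_combination (-1) * ih

theorem Q_mono {x : ℝ} (hx : Irrational x) : ∀ n : ℕ, 0 ≤ Q x n ∧ Q x n ≤ Q x (n + 1) ∧
    1 ≤ Q x (n + 1) := by
  intro n
  induction n with
  | zero => simp [Q]
  | succ n ih =>
    have h := one_le_pq hx n
    have h1 := Q_rec x n
    rw [show n + 1 + 1 = n + 2 by ring]
    refine ⟨by omega, ?_, ?_⟩ <;> nlinarith

theorem Q_nonneg {x : ℝ} (hx : Irrational x) (n : ℕ) : 0 ≤ Q x n := (Q_mono hx n).1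

theorem Q_monotone {x : ℝ} (hx : Irrational x) : Monotone (Q x) :=
  monotone_nat_of_le_succ fun n => (Q_mono hx n).2.1

theorem Q_double {x : ℝ} (hx : Irrational x) (n : ℕ) : 2 * Q x n ≤ Q x (n + 2) := by
  have h := one_le_pq hx n
  rw [Q_rec]
  have h2 := Q_mono hx n
  nlinarith

theorem Q_pow {x : ℝ} (hx : Irrational x) (n h : ℕ) : 2 ^ h * Q x n ≤ Q x (n + 2 * h) := by
  induction h with
  | zero => simp
  | succ h ih =>
    have h1 := Q_double hx (n + 2 * h)
    rw [show n + 2 * (h + 1) = n + 2 * h + 2 by ring, pow_succ]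
    linarith

theorem th_mul {x : ℝ} (hx : Irrational x) (n : ℕ) : |th x n| * Q x (n + 1) ≤ 1 := by
  have h1 : th x n * Q x (n + 1) - th x (n + 1) * Q x n = - (-1) ^ n := by
    have h := det x n
    have h' : (Q x (n + 1) : ℝ) * P x n - Q x n * P x (n + 1) = (-1) ^ n := by exact_mod_cast h
    unfold th
    linear_combination (-1 : ℝ) * h'
  have h2 := th_step hx n
  have h3 : 0 < cq x (n + 1) := by linarith [one_lt_cq hx n]
  have h4 : (0 : ℝ) ≤ Q x (n + 1) := by exact_mod_cast Q_nonneg hx (n + 1)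
  have h5 : (0 : ℝ) ≤ Q x n := by exact_mod_cast Q_nonneg hx n
  have h6 : th x (n + 1) * (cq x (n + 1) * Q x (n + 1) + Q x n) = (-1) ^ n := by
    rw [h2] at h1
    linarith
  have h7 : |th x (n + 1)| * (cq x (n + 1) * Q x (n + 1) + Q x n) = 1 := by
    have h8 : 0 ≤ cq x (n + 1) * Q x (n + 1) + Q x n := by positivity
    rw [← abs_of_nonneg h8, ← abs_mul, h6, abs_pow, abs_neg, abs_one, one_pow]
  rw [h2, abs_mul, abs_neg, abs_of_pos h3]
  nlinarith [abs_nonneg (th x (n + 1)), mul_nonneg (abs_nonneg (th x (n + 1))) h5]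

theorem th_mul' {x : ℝ} (hx : Irrational x) (n : ℕ) : |th x n| * Q x n ≤ 1 := by
  refine le_trans ?_ (th_mul hx n)
  apply mul_le_mul_of_nonneg_left _ (abs_nonneg _)
  exact_mod_cast (Q_mono hx n).2.1

theorem Q_tendsto {x : ℝ} (hx : Irrational x) (C : ℤ) : ∃ N : ℕ, ∀ n, N ≤ n → C ≤ Q x n := by
  refine ⟨1 + 2 * C.toNat, fun n hn => ?_⟩
  have h1 := Q_pow hx 1 C.toNat
  have h2 : (Q x 1 : ℤ) = 1 := rfl
  rw [h2, mul_one] at h1
  have h3 : C.toNat < 2 ^ C.toNat := Nat.lt_two_pow_self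
  have h4 : (C.toNat : ℤ) < 2 ^ C.toNat := by exact_mod_cast h3
  have h5 := Q_monotone hx hn
  have h6 : C ≤ C.toNat := Int.self_le_toNat C
  linarith

/-! ### the numbers `(a + b e) / (c + d e)` -/

/-- the error of the `k`-th convergent of `e` -/
theorem ek (k : ℕ) : |(EMeas.q k : ℝ) * exp 1 - EMeas.r k| ≤ 2 / EMeas.q (k + 1) := by
  have h3 := (EMeas.I_eq k).1
  have h4 := EMeas.I_pos k
  have h2 : |(EMeas.q k : ℝ) * exp 1 - EMeas.r k| = EMeas.I k := by
    rw [← abs_of_pos h4, h3, abs_mul, abs_pow, abs_neg, abs_one, one_pow, one_mul]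
  rw [h2]
  exact EMeas.I_le k

/-- **middle blocks**: for a number `x` with `(c + d e) x = a + b e` there is `K` such that no two
consecutive denominators of convergents of `x` lie between `K B_k` and `B_(k+1) / K` -/
theorem middle {x : ℝ} (hx : Irrational x) {a b c d : ℤ} (hcd : c ≠ 0 ∨ d ≠ 0)
    (hrel : (c + d * exp 1) * x = a + b * exp 1) :
    ∃ K₀ : ℕ, ∀ K : ℤ, K₀ ≤ K → ∀ n k : ℕ, 1 ≤ n → K * EMeas.q k ≤ Q x n →
      K * Q x (n + 1) < EMeas.q (k + 1) → False := by
  have hZ : (c : ℝ) + d * exp 1 ≠ 0 := by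
    intro h
    have := Lin.rel_e (a := c) (b := d) (by push_cast; exact h)
    rcases hcd with h1 | h1
    · exact h1 (by exact_mod_cast this.1)
    · exact h1 (by exact_mod_cast this.2)
  have hD : b * c - a * d ≠ 0 := by
    intro hD
    have hD' : (b : ℝ) * c - a * d = 0 := by exact_mod_cast hD
    -- then `x` is rational
    rcases hcd with h1 | h1
    · have hc : (c : ℝ) ≠ 0 := by exact_mod_cast h1
      have : x = ((a / c : ℚ) : ℝ) := by
        push_cast
        apply mul_left_cancel₀ hZ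
        rw [hrel]
        field_simp
        linear_combination (exp 1) * hD'
      exact hx ⟨_, this.symm⟩
    · have hd : (d : ℝ) ≠ 0 := by exact_mod_cast h1
      have : x = ((b / d : ℚ) : ℝ) := by
        push_cast
        apply mul_left_cancel₀ hZ
        rw [hrel]
        field_simp
        linear_combination (-1 : ℝ) * hD'
      exact hx ⟨_, this.symm⟩
  set C1 : ℝ := |(c : ℝ) + d * exp 1| with hC1
  set C2 : ℝ := |(b : ℝ)| + |(d : ℝ)| * (|x| + 1) with hC2
  have hC1n : 0 ≤ C1 := abs_nonneg _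
  have hC2n : 0 ≤ C2 := by positivity
  obtain ⟨K₀, hK₀⟩ := exists_nat_gt (C1 + 2 * C2)
  refine ⟨K₀, fun K hK n k hn h1 h2 => ?_⟩
  have hKr : C1 + 2 * C2 < (K : ℝ) := by
    have : ((K₀ : ℤ) : ℝ) ≤ K := by exact_mod_cast hK
    push_cast at this
    linarith
  have hKpos : (0 : ℝ) < K := by linarith
  have hBk : (0 : ℝ) < EMeas.q k := by exact_mod_cast (EMeas.q_pos k).1
  have hBk1 : (0 : ℝ) < EMeas.q (k + 1) := by exact_mod_cast (EMeas.q_pos k).2
  -- the integer attached to `m`
  have key : ∀ m : ℕ, 1 ≤ m → K * EMeas.q k ≤ Q x m → K * Q x m < EMeas.q (k + 1) →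
      (b * Q x m - d * P x m) * EMeas.r k - (c * P x m - a * Q x m) * EMeas.q k = 0 := by
    intro m hm hm1 hm2
    have hQ1 : 1 ≤ Q x m := by
      obtain ⟨j, rfl⟩ : ∃ j, m = j + 1 := ⟨m - 1, by omega⟩
      exact (Q_mono hx j).2.2
    have hQr : (1 : ℝ) ≤ Q x m := by exact_mod_cast hQ1
    have hQpos : (0 : ℝ) < Q x m := by linarith
    have hm1' : (K : ℝ) * EMeas.q k ≤ Q x m := by exact_mod_cast hm1
    have hm2' : (K : ℝ) * Q x m < EMeas.q (k + 1) := by exact_mod_cast hm2
    have hth := th_mul' hx m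
    have hth1 : |th x m| ≤ 1 := by nlinarith [abs_nonneg (th x m)]
    have hP : |(P x m : ℝ)| ≤ Q x m * (|x| + 1) := by
      have e1 : (P x m : ℝ) = Q x m * x - th x m := by unfold th; ring
      rw [e1]
      calc |(Q x m : ℝ) * x - th x m| ≤ |(Q x m : ℝ) * x| + |th x m| := abs_sub _ _
        _ ≤ Q x m * |x| + 1 := by rw [abs_mul, abs_of_pos hQpos]; linarith
        _ ≤ _ := by nlinarith
    have hq' : |((b * Q x m - d * P x m : ℤ) : ℝ)| ≤ C2 * Q x m := by
      push_cast
      calc |(b : ℝ) * Q x m - d * P x m| ≤ |(b : ℝ) * Q x m| + |(d : ℝ) * P x m| := abs_sub _ _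
        _ = |(b : ℝ)| * Q x m + |(d : ℝ)| * |(P x m : ℝ)| := by
            rw [abs_mul, abs_mul, abs_of_pos hQpos]
        _ ≤ |(b : ℝ)| * Q x m + |(d : ℝ)| * (Q x m * (|x| + 1)) := by gcongr
        _ = C2 * Q x m := by rw [hC2]; ring
    have hs : (((b * Q x m - d * P x m) * EMeas.r k - (c * P x m - a * Q x m) * EMeas.q k : ℤ) : ℝ) =
        EMeas.q k * ((c + d * exp 1) * th x m) -
          ((b * Q x m - d * P x m : ℤ) : ℝ) * (EMeas.q k * exp 1 - EMeas.r k) := by
      unfold th
      push_cast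
      linear_combination (-(EMeas.q k : ℝ) * Q x m) * hrel
    have hlt : |(((b * Q x m - d * P x m) * EMeas.r k -
        (c * P x m - a * Q x m) * EMeas.q k : ℤ) : ℝ)| < 1 := by
      rw [hs]
      calc |(EMeas.q k : ℝ) * ((c + d * exp 1) * th x m) -
            ((b * Q x m - d * P x m : ℤ) : ℝ) * (EMeas.q k * exp 1 - EMeas.r k)|
          ≤ |(EMeas.q k : ℝ) * ((c + d * exp 1) * th x m)| +
            |((b * Q x m - d * P x m : ℤ) : ℝ) * (EMeas.q k * exp 1 - EMeas.r k)| := abs_sub _ _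
        _ = EMeas.q k * (C1 * |th x m|) + |((b * Q x m - d * P x m : ℤ) : ℝ)| *
            |(EMeas.q k : ℝ) * exp 1 - EMeas.r k| := by
            rw [abs_mul, abs_mul, abs_mul, Nat.abs_cast]
        _ ≤ EMeas.q k * (C1 * |th x m|) + (C2 * Q x m) * (2 / EMeas.q (k + 1)) := by
            have := ek k
            gcongr
        _ ≤ C1 / K + 2 * C2 / K := by
            apply add_le_add
            · rw [le_div_iff₀ hKpos]
              calc (EMeas.q k : ℝ) * (C1 * |th x m|) * K = C1 * (|th x m| * (K * EMeas.q k)) := by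
                    ring
                _ ≤ C1 * (|th x m| * Q x m) := by gcongr
                _ ≤ C1 * 1 := by gcongr
                _ = C1 := mul_one _
            · rw [mul_div_assoc', div_le_div_iff₀ hBk1 hKpos]
              nlinarith
        _ = (C1 + 2 * C2) / K := by ring
        _ < 1 := by rw [div_lt_one hKpos]; exact hKr
    have : |(b * Q x m - d * P x m) * EMeas.r k - (c * P x m - a * Q x m) * (EMeas.q k : ℤ)| < 1 := by
      exact_mod_cast hlt
    exact Int.abs_lt_one_iff.mp this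
  have hle := (Q_mono hx n).2.1
  have hK0 : 0 ≤ K := by
    have : (0 : ℝ) ≤ K := hKpos.le
    exact_mod_cast this
  have e1 := key n hn h1 (lt_of_le_of_lt (mul_le_mul_of_nonneg_left hle hK0) h2)
  have e2 := key (n + 1) (by omega) (h1.trans hle) h2
  have hd := det x n
  have hB : ((EMeas.q k : ℕ) : ℤ) ≠ 0 := by
    have := (EMeas.q_pos k).1
    omega
  -- eliminate
  have e3 : (b * c - a * d) * (EMeas.q k : ℤ) * (-1) ^ n = 0 := by
    rw [← hd]
    linear_combination (b * Q x n - d * P x n) * e2 - (b * Q x (n + 1) - d * P x (n + 1)) * e1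
  have : ((-1 : ℤ)) ^ n ≠ 0 := pow_ne_zero _ (by norm_num)
  exact mul_ne_zero (mul_ne_zero hD hB) this e3

end Pool.Agent.NH22.CF
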