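import Pool.Agent.NH22.CF

/-! The partial quotients of the numbers `(a + b e) / (c + d e)`: every window of a fixed length
contains a large partial quotient. -/

set_option autoImplicit false

namespace Pool.Agent.NH22.CF

open Pool.Agent.H43R2.Cplx Real

theorem Q_upper {x : ℝ} (hx : Irrational x) (n : ℕ) :
    Q x (n + 2) ≤ (pq x (n + 1) + 1) * Q x (n + 1) := by
  have h := (Q_mono hx n).2.1
  rw [Q_rec]
  nlinarith

theorem exists_block (C : ℤ) (hC : 1 ≤ C) : ∃ k : ℕ, (EMeas.q k : ℤ) ≤ C ∧ C < EMeas.q (k + 1) := by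
  classical
  have hex : ∃ k, C < EMeas.q (k + 1) := by
    refine ⟨C.toNat, ?_⟩
    have h1 := EMeas.q_growth C.toNat
    have h2 : C.toNat < 2 ^ C.toNat := Nat.lt_two_pow_self
    have h3 : C ≤ C.toNat := Int.self_le_toNat C
    have h4 : (C.toNat : ℤ) < EMeas.q (C.toNat + 1) := by exact_mod_cast h2.trans_le h1
    omega
  refine ⟨Nat.find hex, ?_, Nat.find_spec hex⟩
  by_cases h0 : Nat.find hex = 0
  · rw [h0]; simpa [EMeas.q] using hC
  · have := Nat.find_min hex (m := Nat.find hex - 1) (by omega)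
    rw [show Nat.find hex - 1 + 1 = Nat.find hex by omega] at this
    exact not_lt.mp this

theorem windows {x : ℝ} (hx : Irrational x) {a b c d : ℤ} (hcd : c ≠ 0 ∨ d ≠ 0)
    (hrel : (c + d * exp 1) * x = a + b * exp 1) :
    ∃ W : ℕ, ∀ t : ℤ, ∃ N : ℕ, ∀ n, N ≤ n → ∃ i < W, t ≤ pq x (n + i) := by
  obtain ⟨K₀, hK₀⟩ := middle hx hcd hrel
  -- `K = 2 ^ h`
  set h : ℕ := K₀ with hh
  set K : ℤ := 2 ^ h with hK
  have hKK : (K₀ : ℤ) ≤ K := by
    have h1 : K₀ < 2 ^ K₀ := Nat.lt_two_pow_self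
    have h2 : (K₀ : ℤ) < (2 : ℤ) ^ K₀ := by exact_mod_cast h1
    rw [hK, hh]
    exact h2.le
  have hmid := hK₀ K hKK
  have hK1 : 1 ≤ K := one_le_pow₀ (by norm_num)
  refine ⟨6 * h + 2, fun t => ?_⟩
  -- how large `k` must be
  set k₀ : ℕ := (K ^ 2 * (|t| + 1) ^ 2).toNat with hk₀
  obtain ⟨N, hN⟩ := Q_tendsto hx (EMeas.q (k₀ + 1))
  refine ⟨N + 2, fun n hn => ?_⟩
  have hQn : (EMeas.q (k₀ + 1) : ℤ) ≤ Q x n := hN n (by omega)
  have hQn1 : 1 ≤ Q x n := by
    have := (EMeas.q_pos k₀).2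
    omega
  obtain ⟨k, hk1, hk2⟩ := exists_block (Q x n) hQn1
  have hkk : k₀ ≤ k := by
    by_contra hlt
    have h1 : k + 1 ≤ k₀ + 1 := by omega
    have h2 : ((EMeas.q (k + 1) : ℕ) : ℤ) ≤ EMeas.q (k₀ + 1) := by
      exact_mod_cast EMeas.q_mono h1
    omega
  -- first step
  have s1 : K * EMeas.q k ≤ Q x (n + 2 * h) := by
    have := Q_pow hx n h
    calc K * EMeas.q k ≤ K * Q x n := mul_le_mul_of_nonneg_left hk1 (by omega)
      _ ≤ _ := this
  have s2 : (EMeas.q (k + 1) : ℤ) ≤ K * Q x (n + 2 * h + 1) := by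
    by_contra hlt
    exact hmid (n + 2 * h) k (by omega) s1 (not_le.mp hlt)
  have s3 : K * EMeas.q (k + 1) ≤ Q x (n + 2 * h + 1 + 2 * (2 * h)) := by
    have := Q_pow hx (n + 2 * h + 1) (2 * h)
    have h2 : (2 : ℤ) ^ (2 * h) = K * K := by rw [hK, ← pow_add]; congr 1; ring
    rw [h2] at this
    calc K * EMeas.q (k + 1) ≤ K * (K * Q x (n + 2 * h + 1)) :=
          mul_le_mul_of_nonneg_left s2 (by omega)
      _ = K * K * Q x (n + 2 * h + 1) := by ring
      _ ≤ _ := this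
  -- the least index
  classical
  have hex : ∃ j, K * EMeas.q (k + 1) ≤ Q x (n + j) := ⟨2 * h + 1 + 2 * (2 * h), by
    have : n + (2 * h + 1 + 2 * (2 * h)) = n + 2 * h + 1 + 2 * (2 * h) := by ring
    rw [this]; exact s3⟩
  set j : ℕ := Nat.find hex with hj
  have hj1 : K * EMeas.q (k + 1) ≤ Q x (n + j) := Nat.find_spec hex
  have hj2 : j ≤ 6 * h + 1 := by
    have := Nat.find_min' hex (m := 2 * h + 1 + 2 * (2 * h)) (by
      have : n + (2 * h + 1 + 2 * (2 * h)) = n + 2 * h + 1 + 2 * (2 * h) := by ring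
      rw [this]; exact s3)
    omega
  have hj3 : 1 ≤ j := by
    by_contra h0
    have h00 : j = 0 := by omega
    rw [h00, add_zero] at hj1
    have : (0 : ℤ) ≤ EMeas.q (k + 1) := by positivity
    nlinarith
  have hj4 : Q x (n + j - 1) < K * EMeas.q (k + 1) := by
    have := Nat.find_min hex (m := j - 1) (by omega)
    rw [show n + j - 1 = n + (j - 1) by omega]
    exact not_le.mp this
  have s4 : (EMeas.q (k + 2) : ℤ) ≤ K * Q x (n + j + 1) := by
    by_contra hlt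
    exact hmid (n + j) (k + 1) (by omega) hj1 (not_le.mp hlt)
  -- two steps
  obtain ⟨m, hm⟩ : ∃ m, n + j = m + 2 := ⟨n + j - 2, by omega⟩
  rw [hm] at s4
  rw [show n + j - 1 = m + 1 by omega] at hj4
  have u1 := Q_upper hx m
  have u2 := Q_upper hx (m + 1)
  rw [show m + 1 + 2 = m + 2 + 1 by ring, show m + 1 + 1 = m + 2 by ring] at u2
  have p1 := one_le_pq hx m
  have p2 := one_le_pq hx (m + 1)
  rw [show m + 1 + 1 = m + 2 by ring] at p2
  by_contra hcon
  push Not at hcon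
  have c1 : pq x (m + 1) < t := by
    have := hcon (j - 1) (by omega)
    rwa [show n + (j - 1) = m + 1 by omega] at this
  have c2 : pq x (m + 2) < t := by
    have := hcon j (by omega)
    rwa [show n + j = m + 2 by omega] at this
  have ht : 0 < t := by omega
  have hB : (0 : ℤ) < EMeas.q (k + 1) := by exact_mod_cast (EMeas.q_pos k).2
  have hrecB : (EMeas.q (k + 2) : ℤ) = (4 * k + 6) * EMeas.q (k + 1) + EMeas.q k := by
    have : EMeas.q (k + 2) = (4 * k + 6) * EMeas.q (k + 1) + EMeas.q k := rfl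
    rw [this]; push_cast; ring
  have hkbig : K ^ 2 * (|t| + 1) ^ 2 ≤ k := by
    have h1 : K ^ 2 * (|t| + 1) ^ 2 ≤ k₀ := Int.self_le_toNat _
    have h2 : (k₀ : ℤ) ≤ k := by exact_mod_cast hkk
    omega
  rw [abs_of_pos ht] at hkbig
  have hQ1 : 0 ≤ Q x (m + 1) := Q_nonneg hx _
  have hQ2 : 0 ≤ Q x (m + 2) := Q_nonneg hx _
  have v1 : Q x (m + 2) ≤ t * (K * EMeas.q (k + 1)) := by
    calc Q x (m + 2) ≤ (pq x (m + 1) + 1) * Q x (m + 1) := u1
      _ ≤ t * Q x (m + 1) := mul_le_mul_of_nonneg_right (by omega) hQ1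
      _ ≤ t * (K * EMeas.q (k + 1)) := mul_le_mul_of_nonneg_left hj4.le ht.le
  have v2 : Q x (m + 2 + 1) ≤ t * (t * (K * EMeas.q (k + 1))) := by
    calc Q x (m + 2 + 1) ≤ (pq x (m + 2) + 1) * Q x (m + 2) := u2
      _ ≤ t * Q x (m + 2) := mul_le_mul_of_nonneg_right (by omega) hQ2
      _ ≤ _ := mul_le_mul_of_nonneg_left v1 ht.le
  have v3 : (EMeas.q (k + 2) : ℤ) ≤ (K ^ 2 * t ^ 2) * EMeas.q (k + 1) := by
    calc (EMeas.q (k + 2) : ℤ) ≤ K * Q x (m + 2 + 1) := s4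
      _ ≤ K * (t * (t * (K * EMeas.q (k + 1)))) := mul_le_mul_of_nonneg_left v2 (by omega)
      _ = _ := by ring
  have v4 : K ^ 2 * t ^ 2 ≤ K ^ 2 * (t + 1) ^ 2 := by
    apply mul_le_mul_of_nonneg_left _ (by positivity)
    nlinarith
  have v5 : (EMeas.q (k + 2) : ℤ) ≤ k * EMeas.q (k + 1) :=
    v3.trans (mul_le_mul_of_nonneg_right (v4.trans hkbig) hB.le)
  have hBk : (0 : ℤ) < EMeas.q k := by exact_mod_cast (EMeas.q_pos k).1
  rw [hrecB] at v5
  nlinarith

end Pool.Agent.NH22.CF
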