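import Mathlib

/-! Chains of integer vectors: if any three consecutive ones are linearly dependent and any two
consecutive ones are independent, then all lie in one plane. -/

set_option autoImplicit false

namespace Pool.Agent.NH22.Chain

/-- components of the cross product of the vectors `(x, y, z)` of indices `k`, `k + 1` -/
def c1 (_x y z : ℕ → ℤ) (k : ℕ) : ℤ := y k * z (k + 1) - z k * y (k + 1)
def c2 (x _y z : ℕ → ℤ) (k : ℕ) : ℤ := z k * x (k + 1) - x k * z (k + 1)
def c3 (x y _z : ℕ → ℤ) (k : ℕ) : ℤ := x k * y (k + 1) - y k * x (k + 1)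

/-- the three components -/
def Nz (x y z : ℕ → ℤ) (k : ℕ) : Prop := ¬ (c1 x y z k = 0 ∧ c2 x y z k = 0 ∧ c3 x y z k = 0)

/-- `n` orthogonal to the two vectors implies proportional to the cross product -/
theorem prop12 (x y z : ℕ → ℤ) (k : ℕ) {n1 n2 n3 : ℤ} (h0 : n1 * x k + n2 * y k + n3 * z k = 0)
    (h1 : n1 * x (k + 1) + n2 * y (k + 1) + n3 * z (k + 1) = 0) :
    n1 * c2 x y z k = n2 * c1 x y z k := by
  unfold c1 c2
  linear_combination z k * h1 - z (k + 1) * h0

theorem prop13 (x y z : ℕ → ℤ) (k : ℕ) {n1 n2 n3 : ℤ} (h0 : n1 * x k + n2 * y k + n3 * z k = 0)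
    (h1 : n1 * x (k + 1) + n2 * y (k + 1) + n3 * z (k + 1) = 0) :
    n1 * c3 x y z k = n3 * c1 x y z k := by
  unfold c1 c3
  linear_combination y (k + 1) * h0 - y k * h1

theorem prop23 (x y z : ℕ → ℤ) (k : ℕ) {n1 n2 n3 : ℤ} (h0 : n1 * x k + n2 * y k + n3 * z k = 0)
    (h1 : n1 * x (k + 1) + n2 * y (k + 1) + n3 * z (k + 1) = 0) :
    n2 * c3 x y z k = n3 * c2 x y z k := by
  unfold c2 c3
  linear_combination x k * h1 - x (k + 1) * h0

theorem chain (x y z : ℕ → ℤ) (hdet : ∀ k, c1 x y z k * x (k + 2) + c2 x y z k * y (k + 2) +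
      c3 x y z k * z (k + 2) = 0) (hnz : ∀ k, Nz x y z k) :
    ∀ k, c1 x y z 0 * x k + c2 x y z 0 * y k + c3 x y z 0 * z k = 0 ∧
      c1 x y z 0 * x (k + 1) + c2 x y z 0 * y (k + 1) + c3 x y z 0 * z (k + 1) = 0 := by
  intro k
  induction k with
  | zero => unfold c1 c2 c3; constructor <;> ring
  | succ k ih =>
    refine ⟨ih.2, ?_⟩
    have e12 := prop12 x y z k ih.1 ih.2
    have e13 := prop13 x y z k ih.1 ih.2
    have e23 := prop23 x y z k ih.1 ih.2
    have hd := hdet k
    rw [show k + 1 + 1 = k + 2 by ring]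
    set n1 := c1 x y z 0
    set n2 := c2 x y z 0
    set n3 := c3 x y z 0
    set w1 := c1 x y z k
    set w2 := c2 x y z k
    set w3 := c3 x y z k
    have hw : w1 ≠ 0 ∨ w2 ≠ 0 ∨ w3 ≠ 0 := by
      by_contra hcon
      push Not at hcon
      exact hnz k hcon
    rcases hw with h | h | h
    · apply mul_left_cancel₀ h
      rw [mul_zero]
      linear_combination n1 * hd - y (k + 2) * e12 - z (k + 2) * e13
    · apply mul_left_cancel₀ h
      rw [mul_zero]
      linear_combination n2 * hd + x (k + 2) * e12 - z (k + 2) * e23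
    · apply mul_left_cancel₀ h
      rw [mul_zero]
      linear_combination n3 * hd + x (k + 2) * e13 + y (k + 2) * e23

end Pool.Agent.NH22.Chain
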