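import Pool.Agent.NH22.Sim

/-! A pair of consecutive best simultaneous approximations and the covering of the torus. -/

set_option autoImplicit false

namespace Pool.Agent.NH22.Den

open Real Filter Pool.Agent.NH22.Seq Pool.Agent.NH22.Sim

/-- solving for the coordinates in the plane -/
theorem plane {q q' a a' b b' dx dA dB : ℝ}
    (hc : q * b' - q' * b ≠ 0 ∨ q' * a - q * a' ≠ 0)
    (hd : dx * (a * b' - a' * b) - (q * b' - q' * b) * dA - (q' * a - q * a') * dB = 0) :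
    ∃ α β : ℝ, α * q + β * q' = dx ∧ α * a + β * a' = dA ∧ α * b + β * b' = dB := by
  rcases hc with h | h
  · refine ⟨(dx * b' - dB * q') / (q * b' - q' * b), (q * dB - b * dx) / (q * b' - q' * b),
      ?_, ?_, ?_⟩
    · rw [div_mul_eq_mul_div, div_mul_eq_mul_div, ← add_div, div_eq_iff h]; ring
    · rw [div_mul_eq_mul_div, div_mul_eq_mul_div, ← add_div, div_eq_iff h]
      linear_combination hd
    · rw [div_mul_eq_mul_div, div_mul_eq_mul_div, ← add_div, div_eq_iff h]; ring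
  · refine ⟨(dA * q' - dx * a') / (q' * a - q * a'), (a * dx - q * dA) / (q' * a - q * a'),
      ?_, ?_, ?_⟩
    · rw [div_mul_eq_mul_div, div_mul_eq_mul_div, ← add_div, div_eq_iff h]; ring
    · rw [div_mul_eq_mul_div, div_mul_eq_mul_div, ← add_div, div_eq_iff h]; ring
    · rw [div_mul_eq_mul_div, div_mul_eq_mul_div, ← add_div, div_eq_iff h]
      linear_combination hd

theorem dirichlet2 (ξ η : ℝ) (M : ℕ) (hM : 1 ≤ M) :
    ∃ q : ℕ, 1 ≤ q ∧ q ≤ M ^ 2 ∧ Lq ξ η q ≤ 1 / M := by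
  have hMr : (0 : ℝ) < M := by exact_mod_cast (by omega : 0 < M)
  let F : ℕ → ℕ × ℕ := fun n => (⌊Int.fract ((n : ℝ) * ξ) * M⌋₊, ⌊Int.fract ((n : ℝ) * η) * M⌋₊)
  have hfl : ∀ v : ℝ, ⌊Int.fract v * M⌋₊ < M := by
    intro v
    have h1 : Int.fract v * M < M := by
      have := Int.fract_lt_one v
      nlinarith
    exact (Nat.floor_lt (mul_nonneg (Int.fract_nonneg _) hMr.le)).mpr h1
  have hmaps : ∀ n ∈ Finset.range (M ^ 2 + 1), F n ∈ Finset.range M ×ˢ Finset.range M := by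
    intro n _
    rw [Finset.mem_product, Finset.mem_range, Finset.mem_range]
    exact ⟨hfl _, hfl _⟩
  have hcard : (Finset.range M ×ˢ Finset.range M).card < (Finset.range (M ^ 2 + 1)).card := by
    rw [Finset.card_product, Finset.card_range, Finset.card_range]
    nlinarith
  obtain ⟨s, hs, t, ht, hst, hF⟩ := Finset.exists_ne_map_eq_of_card_lt_of_maps_to hcard hmaps
  rw [Finset.mem_range] at hs ht
  have hclose : ∀ u v : ℝ, ⌊Int.fract u * M⌋₊ = ⌊Int.fract v * M⌋₊ →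
      |Int.fract u - Int.fract v| ≤ 1 / M := by
    intro u v h
    have a1 := Nat.floor_le (mul_nonneg (Int.fract_nonneg u) hMr.le)
    have a2 := Nat.lt_floor_add_one (Int.fract u * M)
    have a3 := Nat.floor_le (mul_nonneg (Int.fract_nonneg v) hMr.le)
    have a4 := Nat.lt_floor_add_one (Int.fract v * M)
    have a5 : ((⌊Int.fract u * M⌋₊ : ℕ) : ℝ) = ((⌊Int.fract v * M⌋₊ : ℕ) : ℝ) := by
      exact_mod_cast h
    rw [abs_le, ← neg_div, div_le_iff₀ hMr, le_div_iff₀ hMr]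
    constructor <;> nlinarith
  have key : ∀ s t : ℕ, s < t → t < M ^ 2 + 1 → F s = F t →
      ∃ q : ℕ, 1 ≤ q ∧ q ≤ M ^ 2 ∧ Lq ξ η q ≤ 1 / M := by
    intro s t hlt ht hF
    refine ⟨t - s, by omega, by omega, ?_⟩
    have h1 : ⌊Int.fract ((s : ℝ) * ξ) * M⌋₊ = ⌊Int.fract ((t : ℝ) * ξ) * M⌋₊ :=
      congrArg Prod.fst hF
    have h2 : ⌊Int.fract ((s : ℝ) * η) * M⌋₊ = ⌊Int.fract ((t : ℝ) * η) * M⌋₊ :=
      congrArg Prod.snd hF
    have h3 := hclose _ _ h1
    have h4 := hclose _ _ h2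
    have hc : ((t - s : ℕ) : ℝ) = t - s := by
      rw [Nat.cast_sub hlt.le]
    refine max_le ?_ ?_
    · refine (di_le _ (⌊(t : ℝ) * ξ⌋ - ⌊(s : ℝ) * ξ⌋)).trans ?_
      have e : ((t - s : ℕ) : ℝ) * ξ - ((⌊(t : ℝ) * ξ⌋ - ⌊(s : ℝ) * ξ⌋ : ℤ) : ℝ) =
          -(Int.fract ((s : ℝ) * ξ) - Int.fract ((t : ℝ) * ξ)) := by
        rw [hc]; unfold Int.fract; push_cast; ring
      rw [e, abs_neg]
      exact h3
    · refine (di_le _ (⌊(t : ℝ) * η⌋ - ⌊(s : ℝ) * η⌋)).trans ?_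
      have e : ((t - s : ℕ) : ℝ) * η - ((⌊(t : ℝ) * η⌋ - ⌊(s : ℝ) * η⌋ : ℤ) : ℝ) =
          -(Int.fract ((s : ℝ) * η) - Int.fract ((t : ℝ) * η)) := by
        rw [hc]; unfold Int.fract; push_cast; ring
      rw [e, abs_neg]
      exact h4
  rcases lt_or_gt_of_ne hst with h | h
  · exact key s t h ht hF
  · exact key t s h hs hF.symm

section

variable {ξ η : ℝ} {q q' : ℕ}

/-- no integer point with small coordinates in the plane -/
theorem small_zero (hlt : q < q')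
    (hmin : ∀ r : ℕ, 1 ≤ r → r < q' → Lq ξ η q ≤ Lq ξ η r) (hL : Lq ξ η q' < Lq ξ η q)
    {α β : ℝ} (hα : |α| ≤ 1 / 2) (hβ : |β| ≤ 1 / 2) {X Y Z : ℤ}
    (hX : (X : ℝ) = α * q + β * q')
    (hY : (Y : ℝ) = α * round ((q : ℝ) * ξ) + β * round ((q' : ℝ) * ξ))
    (hZ : (Z : ℝ) = α * round ((q : ℝ) * η) + β * round ((q' : ℝ) * η)) :
    X = 0 ∧ Y = 0 ∧ Z = 0 := by
  have hltr : (q : ℝ) < q' := by exact_mod_cast hlt
  have hq0 : (0 : ℝ) ≤ q := Nat.cast_nonneg _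
  have hhalf : Lq ξ η q ≤ 1 / 2 := max_le (abs_sub_round _) (abs_sub_round _)
  have hcomb : ∀ u v : ℝ, |u| ≤ Lq ξ η q → |v| ≤ Lq ξ η q' → |α * u + β * v| < Lq ξ η q := by
    intro u v hu hv
    calc |α * u + β * v| ≤ |α * u| + |β * v| := abs_add_le _ _
      _ = |α| * |u| + |β| * |v| := by rw [abs_mul, abs_mul]
      _ ≤ 1 / 2 * Lq ξ η q + 1 / 2 * Lq ξ η q' := by gcongr
      _ < Lq ξ η q := by linarith
  have e1 : (X : ℝ) * ξ - Y = α * ((q : ℝ) * ξ - round ((q : ℝ) * ξ)) +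
      β * ((q' : ℝ) * ξ - round ((q' : ℝ) * ξ)) := by rw [hX, hY]; ring
  have e2 : (X : ℝ) * η - Z = α * ((q : ℝ) * η - round ((q : ℝ) * η)) +
      β * ((q' : ℝ) * η - round ((q' : ℝ) * η)) := by rw [hX, hZ]; ring
  have h1 : |(X : ℝ) * ξ - Y| < Lq ξ η q := by
    rw [e1]; exact hcomb _ _ (le_max_left _ _) (le_max_left _ _)
  have h2 : |(X : ℝ) * η - Z| < Lq ξ η q := by
    rw [e2]; exact hcomb _ _ (le_max_right _ _) (le_max_right _ _)
  by_cases hX0 : X = 0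
  · rw [hX0] at h1 h2
    simp only [Int.cast_zero, zero_mul, zero_sub, abs_neg] at h1 h2
    have h3 : |Y| < 1 := by
      have : |(Y : ℝ)| < 1 := by linarith
      exact_mod_cast this
    have h4 : |Z| < 1 := by
      have : |(Z : ℝ)| < 1 := by linarith
      exact_mod_cast this
    exact ⟨hX0, Int.abs_lt_one_iff.mp h3, Int.abs_lt_one_iff.mp h4⟩
  · exfalso
    have hXlt : |(X : ℝ)| < q' := by
      rw [hX]
      calc |α * q + β * q'| ≤ |α * q| + |β * q'| := abs_add_le _ _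
        _ = |α| * q + |β| * q' := by rw [abs_mul, abs_mul, Nat.abs_cast, Nat.abs_cast]
        _ ≤ 1 / 2 * q + 1 / 2 * q' := by gcongr
        _ < q' := by linarith
    have hr : ((X.natAbs : ℕ) : ℝ) = |(X : ℝ)| := by rw [Nat.cast_natAbs]; push_cast; rfl
    have hr1 : 1 ≤ X.natAbs := Int.natAbs_pos.mpr hX0
    have hr2 : X.natAbs < q' := by
      rw [← hr] at hXlt
      exact_mod_cast hXlt
    have h3 := hmin X.natAbs hr1 hr2
    have h4 : Lq ξ η X.natAbs < Lq ξ η q := by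
      rcases le_or_gt 0 X with hs | hs
      · have e3 : ((X.natAbs : ℕ) : ℝ) = (X : ℝ) := by
          rw [hr, abs_of_nonneg (by exact_mod_cast hs)]
        unfold Lq at h1 h2 ⊢
        rw [e3]
        exact max_lt ((di_le _ Y).trans_lt h1) ((di_le _ Z).trans_lt h2)
      · have e3 : ((X.natAbs : ℕ) : ℝ) = -(X : ℝ) := by
          rw [hr, abs_of_neg (by exact_mod_cast hs)]
        unfold Lq at h1 h2 ⊢
        rw [e3]
        have e4 : |-(X : ℝ) * ξ - ((-Y : ℤ) : ℝ)| = |(X : ℝ) * ξ - Y| := by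
          rw [← abs_neg]; congr 1; push_cast; ring
        have e5 : |-(X : ℝ) * η - ((-Z : ℤ) : ℝ)| = |(X : ℝ) * η - Z| := by
          rw [← abs_neg]; congr 1; push_cast; ring
        refine max_lt ((di_le _ (-Y)).trans_lt ?_) ((di_le _ (-Z)).trans_lt ?_)
        · rw [e4]; exact h1
        · rw [e5]; exact h2
    linarith

/-- one of the two minors is large -/
theorem minor_large (hq : 1 ≤ q) (hlt : q < q')
    (hmin : ∀ r : ℕ, 1 ≤ r → r < q' → Lq ξ η q ≤ Lq ξ η r) (hL : Lq ξ η q' < Lq ξ η q)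
    (hpos : 0 < Lq ξ η q) {a a' b b' : ℝ}
    (ha : a = q * ξ - round ((q : ℝ) * ξ)) (ha' : a' = q' * ξ - round ((q' : ℝ) * ξ))
    (hb : b = q * η - round ((q : ℝ) * η)) (hb' : b' = q' * η - round ((q' : ℝ) * η)) :
    q' * Lq ξ η q / 4 ≤ |q * b' - q' * b| ∨ q' * Lq ξ η q / 4 ≤ |q' * a - q * a'| := by
  by_contra hcon
  push Not at hcon
  obtain ⟨h2, h3⟩ := hcon
  have hq0 : (0 : ℝ) < q := by exact_mod_cast (by omega : 0 < q)
  have hq0' : (0 : ℝ) < q' := by exact_mod_cast (by omega : 0 < q')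
  have hltr : (q : ℝ) < q' := by exact_mod_cast hlt
  obtain ⟨L, hLd⟩ : ∃ L, L = Lq ξ η q := ⟨_, rfl⟩
  obtain ⟨L', hLd'⟩ : ∃ L', L' = Lq ξ η q' := ⟨_, rfl⟩
  have ha1 : |a'| ≤ L' := by rw [ha', hLd']; exact le_max_left _ _
  have hb1 : |b'| ≤ L' := by rw [hb', hLd']; exact le_max_right _ _
  have hLab : L = max |a| |b| := by rw [hLd, ha, hb]; rfl
  rw [← hLd] at h2 h3 hpos hL
  rw [← hLd'] at hL
  have hL'0 : 0 ≤ L' := (abs_nonneg _).trans ha1
  -- `q` is close to `q'`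
  have hq34 : 3 / 4 * (q' : ℝ) < q := by
    have key : ∀ u u' : ℝ, |u'| ≤ L' → L = |u| → |q' * u - q * u'| < q' * L / 4 →
        3 / 4 * (q' : ℝ) < q := by
      intro u u' hu' hu h
      have e1 : |q' * u| - |q * u'| ≤ |q' * u - q * u'| := abs_sub_abs_le_abs_sub _ _
      rw [abs_mul, abs_mul, Nat.abs_cast, Nat.abs_cast, ← hu] at e1
      have e2 : (q : ℝ) * |u'| ≤ q * L' := by gcongr
      have e3 : (q : ℝ) * L' ≤ q * L := by gcongr
      have e4 : 3 / 4 * (q' : ℝ) * L < q * L := by nlinarith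
      exact lt_of_mul_lt_mul_right e4 hpos.le
    rcases max_choice |a| |b| with h | h
    · exact key a a' ha1 (by rw [hLab, h]) h3
    · refine key b b' hb1 (by rw [hLab, h]) ?_
      rw [abs_sub_comm]; exact h2
  have hdiff : ∀ u u' : ℝ, |u'| ≤ L' → |q' * u - q * u'| < q' * L / 4 → |u' - u| < L := by
    intro u u' hu' h
    have e1 : (q' : ℝ) * (u' - u) = -(q' * u - q * u') + (q' - q) * u' := by ring
    have e2 : (q' : ℝ) * |u' - u| ≤ |q' * u - q * u'| + (q' - q) * |u'| := by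
      calc (q' : ℝ) * |u' - u| = |(q' : ℝ) * (u' - u)| := by rw [abs_mul, Nat.abs_cast]
        _ ≤ |-(q' * u - q * u')| + |(q' - q) * u'| := by rw [e1]; exact abs_add_le _ _
        _ = _ := by rw [abs_neg, abs_mul, abs_of_pos (by linarith : (0 : ℝ) < q' - q)]
    have e3 : ((q' : ℝ) - q) * |u'| ≤ (q' - q) * L := by
      apply mul_le_mul_of_nonneg_left _ (by linarith)
      linarith
    have e4 : (q' : ℝ) * |u' - u| < q' * L := by nlinarith
    exact lt_of_mul_lt_mul_left e4 hq0'.le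
  have h4 := hdiff a a' ha1 h3
  have h5 := hdiff b b' hb1 (by rw [abs_sub_comm]; exact h2)
  have h6 := hmin (q' - q) (by omega) (by omega)
  rw [← hLd] at h6
  have hc : ((q' - q : ℕ) : ℝ) = q' - q := by rw [Nat.cast_sub hlt.le]
  have h7 : Lq ξ η (q' - q) < L := by
    unfold Lq
    rw [hc]
    refine max_lt ((di_le _ (round ((q' : ℝ) * ξ) - round ((q : ℝ) * ξ))).trans_lt ?_)
      ((di_le _ (round ((q' : ℝ) * η) - round ((q : ℝ) * η))).trans_lt ?_)
    · have e : ((q' : ℝ) - q) * ξ - ((round ((q' : ℝ) * ξ) - round ((q : ℝ) * ξ) : ℤ) : ℝ) =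
          a' - a := by rw [ha, ha']; push_cast; ring
      rw [e]; exact h4
    · have e : ((q' : ℝ) - q) * η - ((round ((q' : ℝ) * η) - round ((q : ℝ) * η) : ℤ) : ℝ) =
          b' - b := by rw [hb, hb']; push_cast; ring
      rw [e]; exact h5
  linarith

/-- the three minors are coprime -/
theorem bezout (hq : 1 ≤ q) (hlt : q < q')
    (hmin : ∀ r : ℕ, 1 ≤ r → r < q' → Lq ξ η q ≤ Lq ξ η r) (hL : Lq ξ η q' < Lq ξ η q)
    (hpos : 0 < Lq ξ η q) {y y' z z' : ℤ}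
    (hy : y = round ((q : ℝ) * ξ)) (hy' : y' = round ((q' : ℝ) * ξ))
    (hz : z = round ((q : ℝ) * η)) (hz' : z' = round ((q' : ℝ) * η)) :
    ∃ u1 u2 u3 : ℤ, (y * z' - z * y') * u1 + (z * q' - q * z') * u2 +
      (q * y' - y * q') * u3 = 1 := by
  obtain ⟨c1, hc1⟩ : ∃ c : ℤ, c = y * z' - z * y' := ⟨_, rfl⟩
  obtain ⟨c2, hc2⟩ : ∃ c : ℤ, c = z * q' - q * z' := ⟨_, rfl⟩
  obtain ⟨c3, hc3⟩ : ∃ c : ℤ, c = q * y' - y * q' := ⟨_, rfl⟩
  rw [← hc1, ← hc2, ← hc3]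
  -- not both vanish
  have hne : c2 ≠ 0 ∨ c3 ≠ 0 := by
    have h := minor_large hq hlt hmin hL hpos rfl rfl rfl rfl
    have hq0' : (0 : ℝ) < q' := by exact_mod_cast (by omega : 0 < q')
    have hp : 0 < (q' : ℝ) * Lq ξ η q / 4 := by positivity
    by_contra hcon
    push Not at hcon
    obtain ⟨h2, h3⟩ := hcon
    have e2 : (q : ℝ) * (q' * η - round ((q' : ℝ) * η)) - q' * (q * η - round ((q : ℝ) * η)) =
        (c2 : ℝ) := by
      rw [hc2, hz, hz']; push_cast; ring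
    have e3 : (q' : ℝ) * (q * ξ - round ((q : ℝ) * ξ)) - q * (q' * ξ - round ((q' : ℝ) * ξ)) =
        (c3 : ℝ) := by
      rw [hc3, hy, hy']; push_cast; ring
    rw [e2, e3, h2, h3] at h
    simp only [Int.cast_zero, abs_zero] at h
    rcases h with h | h <;> linarith
  -- no prime divides all of them
  have hprime : ∀ p : ℕ, p.Prime → ¬ ((p : ℤ) ∣ c1 ∧ (p : ℤ) ∣ c2 ∧ (p : ℤ) ∣ c3) := by
    rintro p hp ⟨hd1, hd2, hd3⟩
    -- a combination
    have hkey : ∀ i j : ℤ, (p : ℤ) ∣ i * q + j * q' → (p : ℤ) ∣ i * y + j * y' →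
        (p : ℤ) ∣ i * z + j * z' → (p : ℤ) ∣ i ∧ (p : ℤ) ∣ j := by
      intro i j h1 h2 h3
      have hi := Int.dvd_bmod_sub_self (x := i) (m := p)
      have hj := Int.dvd_bmod_sub_self (x := j) (m := p)
      obtain ⟨i', hi'⟩ : ∃ i', i' = Int.bmod i p := ⟨_, rfl⟩
      obtain ⟨j', hj'⟩ : ∃ j', j' = Int.bmod j p := ⟨_, rfl⟩
      rw [← hi'] at hi
      rw [← hj'] at hj
      have hppos : 0 < p := hp.pos
      have hpr : (0 : ℝ) < p := by exact_mod_cast hppos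
      have hbi : |i'| * 2 ≤ p := by
        have a1 := Int.le_bmod (x := i) hppos
        have a2 := Int.bmod_lt (x := i) hppos
        rw [← hi'] at a1 a2
        rcases abs_cases i' with ⟨h, _⟩ | ⟨h, _⟩ <;> rw [h] <;> omega
      have hbj : |j'| * 2 ≤ p := by
        have a1 := Int.le_bmod (x := j) hppos
        have a2 := Int.bmod_lt (x := j) hppos
        rw [← hj'] at a1 a2
        rcases abs_cases j' with ⟨h, _⟩ | ⟨h, _⟩ <;> rw [h] <;> omega
      have hdv : ∀ u v : ℤ, (p : ℤ) ∣ i * u + j * v → (p : ℤ) ∣ i' * u + j' * v := by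
        intro u v h
        have e : i' * u + j' * v = (i' - i) * u + (j' - j) * v + (i * u + j * v) := by ring
        rw [e]
        exact dvd_add (dvd_add (Dvd.dvd.mul_right hi _) (Dvd.dvd.mul_right hj _)) h
      obtain ⟨X, hX⟩ := hdv _ _ h1
      obtain ⟨Y, hY⟩ := hdv _ _ h2
      obtain ⟨Z, hZ⟩ := hdv _ _ h3
      have hXr : (X : ℝ) = (i' / p : ℝ) * q + (j' / p : ℝ) * q' := by
        have : (i' : ℝ) * q + j' * q' = p * X := by exact_mod_cast hX
        field_simp; linarith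
      have hYr : (Y : ℝ) = (i' / p : ℝ) * y + (j' / p : ℝ) * y' := by
        have : (i' : ℝ) * y + j' * y' = p * Y := by exact_mod_cast hY
        field_simp; linarith
      have hZr : (Z : ℝ) = (i' / p : ℝ) * z + (j' / p : ℝ) * z' := by
        have : (i' : ℝ) * z + j' * z' = p * Z := by exact_mod_cast hZ
        field_simp; linarith
      rw [hy, hy'] at hYr
      rw [hz, hz'] at hZr
      have habs : ∀ k : ℤ, |k| * 2 ≤ p → |(k : ℝ) / p| ≤ 1 / 2 := by
        intro k hk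
        rw [abs_div, Nat.abs_cast, div_le_iff₀ hpr]
        have : |(k : ℝ)| * 2 ≤ p := by exact_mod_cast hk
        linarith
      obtain ⟨hX0, hY0, hZ0⟩ := small_zero hlt hmin hL (habs _ hbi) (habs _ hbj) hXr hYr hZr
      rw [hX0, mul_zero] at hX
      rw [hY0, mul_zero] at hY
      rw [hZ0, mul_zero] at hZ
      have e1 : i' * c2 = 0 := by rw [hc2]; linear_combination (z' : ℤ) * (-hX) + (q' : ℤ) * hZ
      have e2 : i' * c3 = 0 := by rw [hc3]; linear_combination (y' : ℤ) * hX - (q' : ℤ) * hY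
      have e3 : j' * c2 = 0 := by rw [hc2]; linear_combination (z : ℤ) * hX - (q : ℤ) * hZ
      have e4 : j' * c3 = 0 := by rw [hc3]; linear_combination (-y : ℤ) * hX + (q : ℤ) * hY
      have hi0 : i' = 0 := by
        rcases hne with h | h
        · exact (mul_eq_zero.mp e1).resolve_right h
        · exact (mul_eq_zero.mp e2).resolve_right h
      have hj0 : j' = 0 := by
        rcases hne with h | h
        · exact (mul_eq_zero.mp e3).resolve_right h
        · exact (mul_eq_zero.mp e4).resolve_right h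
      rw [hi0, zero_sub] at hi
      rw [hj0, zero_sub] at hj
      exact ⟨(dvd_neg.mp hi), (dvd_neg.mp hj)⟩
    have hp1 : ¬ (p : ℤ) ∣ 1 := by
      intro h
      have := Int.natCast_dvd_natCast.mp (by simpa using h : (p : ℤ) ∣ ((1 : ℕ) : ℤ))
      exact hp.one_lt.ne' (Nat.dvd_one.mp this)
    by_cases hq1 : (p : ℤ) ∣ q
    · by_cases hy1 : (p : ℤ) ∣ y
      · by_cases hz1 : (p : ℤ) ∣ z
        · have := hkey 1 0 (by simpa using hq1) (by simpa using hy1) (by simpa using hz1)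
          exact hp1 this.1
        · apply hz1
          refine (hkey (-z') z ?_ ?_ ?_).2
          · have : -z' * q + z * q' = c2 := by rw [hc2]; ring
            rw [this]; exact hd2
          · have : -z' * y + z * y' = -c1 := by rw [hc1]; ring
            rw [this]; exact (dvd_neg.mpr hd1)
          · have : -z' * z + z * z' = 0 := by ring
            rw [this]; exact dvd_zero _
      · apply hy1
        refine (hkey (-y') y ?_ ?_ ?_).2
        · have : -y' * q + y * q' = -c3 := by rw [hc3]; ring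
          rw [this]; exact (dvd_neg.mpr hd3)
        · have : -y' * y + y * y' = 0 := by ring
          rw [this]; exact dvd_zero _
        · have : -y' * z + y * z' = c1 := by rw [hc1]; ring
          rw [this]; exact hd1
    · apply hq1
      refine (hkey (-q') q ?_ ?_ ?_).2
      · have : -(q' : ℤ) * q + q * q' = 0 := by ring
        rw [this]; exact dvd_zero _
      · have : -(q' : ℤ) * y + q * y' = c3 := by rw [hc3]; ring
        rw [this]; exact hd3
      · have : -(q' : ℤ) * z + q * z' = -c2 := by rw [hc2]; ring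
        rw [this]; exact (dvd_neg.mpr hd2)
  -- Bezout
  have hg : Int.gcd (Int.gcd c1 c2) c3 = 1 := by
    by_contra hg
    obtain ⟨p, hp, hpd⟩ := Nat.exists_prime_and_dvd hg
    have h1 : (p : ℤ) ∣ (Int.gcd (Int.gcd c1 c2) c3 : ℤ) := Int.natCast_dvd_natCast.mpr hpd
    have h2 : (p : ℤ) ∣ (Int.gcd c1 c2 : ℤ) := h1.trans (Int.gcd_dvd_left _ _)
    have h3 : (p : ℤ) ∣ c3 := h1.trans (Int.gcd_dvd_right _ _)
    exact hprime p hp ⟨h2.trans (Int.gcd_dvd_left _ _), h2.trans (Int.gcd_dvd_right _ _), h3⟩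
  have h1 := Int.gcd_eq_gcd_ab (Int.gcd c1 c2) c3
  rw [hg] at h1
  have h2 := Int.gcd_eq_gcd_ab c1 c2
  refine ⟨Int.gcdA c1 c2 * Int.gcdA (Int.gcd c1 c2) c3, Int.gcdB c1 c2 *
    Int.gcdA (Int.gcd c1 c2) c3, Int.gcdB (Int.gcd c1 c2) c3, ?_⟩
  have h3 : ((1 : ℕ) : ℤ) = 1 := rfl
  rw [h3] at h1
  linear_combination (-Int.gcdA (Int.gcd c1 c2) c3) * h2 - h1

/-- **covering** by the multiples up to `2 q'` -/
theorem cover (hq : 1 ≤ q) (hlt : q < q')
    (hmin : ∀ r : ℕ, 1 ≤ r → r < q' → Lq ξ η q ≤ Lq ξ η r) (hL : Lq ξ η q' < Lq ξ η q)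
    (hpos : 0 < Lq ξ η q) (s t : ℝ) :
    ∃ n : ℕ, n ≤ 2 * q' ∧ ∃ A B : ℤ, |n * ξ - s - A| ≤ 2 / (q' * Lq ξ η q) + Lq ξ η q ∧
      |n * η - t - B| ≤ 2 / (q' * Lq ξ η q) + Lq ξ η q := by
  have hq0 : (0 : ℝ) < q := by exact_mod_cast (by omega : 0 < q)
  have hq0' : (0 : ℝ) < q' := by exact_mod_cast (by omega : 0 < q')
  have hltr : (q : ℝ) < q' := by exact_mod_cast hlt
  obtain ⟨y, hy⟩ : ∃ y : ℤ, y = round ((q : ℝ) * ξ) := ⟨_, rfl⟩
  obtain ⟨y', hy'⟩ : ∃ y : ℤ, y = round ((q' : ℝ) * ξ) := ⟨_, rfl⟩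
  obtain ⟨z, hz⟩ : ∃ y : ℤ, y = round ((q : ℝ) * η) := ⟨_, rfl⟩
  obtain ⟨z', hz'⟩ : ∃ y : ℤ, y = round ((q' : ℝ) * η) := ⟨_, rfl⟩
  obtain ⟨u1, u2, u3, hu⟩ := bezout hq hlt hmin hL hpos hy hy' hz hz'
  obtain ⟨a, ha⟩ : ∃ a : ℝ, a = q * ξ - round ((q : ℝ) * ξ) := ⟨_, rfl⟩
  obtain ⟨a', ha'⟩ : ∃ a : ℝ, a = q' * ξ - round ((q' : ℝ) * ξ) := ⟨_, rfl⟩
  obtain ⟨b, hb⟩ : ∃ a : ℝ, a = q * η - round ((q : ℝ) * η) := ⟨_, rfl⟩
  obtain ⟨b', hb'⟩ : ∃ a : ℝ, a = q' * η - round ((q' : ℝ) * η) := ⟨_, rfl⟩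
  have hml := minor_large hq hlt hmin hL hpos ha ha' hb hb'
  obtain ⟨L, hLd⟩ : ∃ L, L = Lq ξ η q := ⟨_, rfl⟩
  obtain ⟨L', hLd'⟩ : ∃ L', L' = Lq ξ η q' := ⟨_, rfl⟩
  have ha0 : |a| ≤ L := by rw [ha, hLd]; exact le_max_left _ _
  have hb0 : |b| ≤ L := by rw [hb, hLd]; exact le_max_right _ _
  have ha1 : |a'| ≤ L' := by rw [ha', hLd']; exact le_max_left _ _
  have hb1 : |b'| ≤ L' := by rw [hb', hLd']; exact le_max_right _ _
  rw [← hLd] at hL hpos hml ⊢
  rw [← hLd'] at hL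
  rw [← hy] at ha
  rw [← hy'] at ha'
  rw [← hz] at hb
  rw [← hz'] at hb'
  obtain ⟨c2, hc2⟩ : ∃ c : ℝ, c = q * b' - q' * b := ⟨_, rfl⟩
  obtain ⟨c3, hc3⟩ : ∃ c : ℝ, c = q' * a - q * a' := ⟨_, rfl⟩
  obtain ⟨Λ, hΛ⟩ : ∃ c : ℝ, c = a * b' - a' * b := ⟨_, rfl⟩
  have hc2' : c2 = (z * q' - q * z' : ℝ) := by rw [hc2, hb, hb']; ring
  have hc3' : c3 = (q * y' - y * q' : ℝ) := by rw [hc3, ha, ha']; ring
  obtain ⟨θ, hθ⟩ : ∃ θ : ℝ, θ = q' * Λ - c2 * s - c3 * t := ⟨_, rfl⟩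
  obtain ⟨m, hm⟩ : ∃ m : ℤ, m = round θ := ⟨_, rfl⟩
  have hδ : |θ - m| ≤ 1 / 2 := by rw [hm]; exact abs_sub_round _
  have hqL : 0 < (q' : ℝ) * L := by positivity
  -- the shift
  obtain ⟨uA, uB, huA, huB, huu⟩ : ∃ uA uB : ℝ, |uA| ≤ 2 / (q' * L) ∧ |uB| ≤ 2 / (q' * L) ∧
      c2 * uA + c3 * uB = θ - m := by
    have key : ∀ c : ℝ, q' * L / 4 ≤ |c| → |(θ - m) / c| ≤ 2 / (q' * L) := by
      intro c hc
      have hcp : 0 < |c| := by linarith
      rw [abs_div, div_le_div_iff₀ hcp hqL]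
      nlinarith
    rcases hml with h | h
    · rw [← hc2] at h
      have hne : c2 ≠ 0 := by
        intro h0; rw [h0, abs_zero] at h; linarith
      refine ⟨(θ - m) / c2, 0, key _ h, by rw [abs_zero]; positivity, ?_⟩
      field_simp
      ring
    · rw [← hc3] at h
      have hne : c3 ≠ 0 := by
        intro h0; rw [h0, abs_zero] at h; linarith
      refine ⟨0, (θ - m) / c3, by rw [abs_zero]; positivity, key _ h, ?_⟩
      field_simp
      ring
  have hor : (q : ℝ) * b' - q' * b ≠ 0 ∨ (q' : ℝ) * a - q * a' ≠ 0 := by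
    rcases hml with h | h
    · left; intro h0; rw [h0, abs_zero] at h; linarith
    · right; intro h0; rw [h0, abs_zero] at h; linarith
  -- Bezout over the reals
  have hur : u1 * Λ - c2 * (u1 * ξ - u2) - c3 * (u1 * η - u3) = 1 := by
    have h1 : ((y * z' - z * y' : ℤ) : ℝ) * u1 + ((z * q' - q * z' : ℤ) : ℝ) * u2 +
        ((q * y' - y * q' : ℤ) : ℝ) * u3 = 1 := by exact_mod_cast hu
    push_cast at h1
    rw [hc2', hc3', hΛ, ha, ha', hb, hb']
    linear_combination h1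
  obtain ⟨α, β, e1, e2, e3⟩ := plane (dx := q' - m * u1) (dA := s + uA - m * (u1 * ξ - u2))
    (dB := t + uB - m * (u1 * η - u3)) hor (by
      rw [← hΛ, ← hc2, ← hc3]
      linear_combination (-(m : ℝ)) * hur - huu - hθ)
  have hα := abs_sub_round α
  have hβ := abs_sub_round β
  obtain ⟨i, hi⟩ : ∃ i : ℤ, i = round α := ⟨_, rfl⟩
  obtain ⟨j, hj⟩ : ∃ i : ℤ, i = round β := ⟨_, rfl⟩
  rw [← hi] at hα
  rw [← hj] at hβ
  obtain ⟨n, hn⟩ : ∃ n : ℤ, n = m * u1 + i * q + j * q' := ⟨_, rfl⟩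
  have hcomb : ∀ u v : ℝ, |u| ≤ L → |v| ≤ L' → |(α - i) * u + (β - j) * v| ≤ L := by
    intro u v hu hv
    have hL0 : 0 ≤ L' := (abs_nonneg _).trans ha1
    calc |(α - i) * u + (β - j) * v| ≤ |(α - i) * u| + |(β - j) * v| := abs_add_le _ _
      _ = |α - i| * |u| + |β - j| * |v| := by rw [abs_mul, abs_mul]
      _ ≤ 1 / 2 * L + 1 / 2 * L' := by gcongr
      _ ≤ L := by linarith
  have hnabs : |(n : ℝ) - q'| ≤ q' := by
    have e : (n : ℝ) - q' = -((α - i) * q + (β - j) * q') := by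
      rw [hn]; push_cast; linear_combination e1
    rw [e, abs_neg]
    calc |(α - i) * q + (β - j) * q'| ≤ |(α - i) * q| + |(β - j) * q'| := abs_add_le _ _
      _ = |α - i| * q + |β - j| * q' := by rw [abs_mul, abs_mul, Nat.abs_cast, Nat.abs_cast]
      _ ≤ 1 / 2 * q + 1 / 2 * q' := by gcongr
      _ ≤ q' := by linarith
  have hn0 : 0 ≤ n := by
    have := (abs_le.mp hnabs).1
    have : (0 : ℝ) ≤ n := by linarith
    exact_mod_cast this
  have hn2 : n ≤ 2 * q' := by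
    have := (abs_le.mp hnabs).2
    have : (n : ℝ) ≤ 2 * q' := by linarith
    exact_mod_cast this
  have hnc : ((n.toNat : ℕ) : ℝ) = (n : ℝ) := by
    have : ((n.toNat : ℕ) : ℤ) = n := Int.toNat_of_nonneg hn0
    exact_mod_cast this
  refine ⟨n.toNat, by omega, m * u2 + i * y + j * y', m * u3 + i * z + j * z', ?_, ?_⟩
  · have e : ((n.toNat : ℕ) : ℝ) * ξ - s - ((m * u2 + i * y + j * y' : ℤ) : ℝ) =
        uA - ((α - i) * a + (β - j) * a') := by
      rw [hnc, hn]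
      push_cast
      have f1 : (q : ℝ) * ξ = a + y := by rw [ha]; ring
      have f2 : (q' : ℝ) * ξ = a' + y' := by rw [ha']; ring
      linear_combination e2 + (i : ℝ) * f1 + (j : ℝ) * f2
    rw [e]
    exact (abs_sub _ _).trans (add_le_add huA (hcomb _ _ ha0 ha1))
  · have e : ((n.toNat : ℕ) : ℝ) * η - t - ((m * u3 + i * z + j * z' : ℤ) : ℝ) =
        uB - ((α - i) * b + (β - j) * b') := by
      rw [hnc, hn]
      push_cast
      have f1 : (q : ℝ) * η = b + z := by rw [hb]; ring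
      have f2 : (q' : ℝ) * η = b' + z' := by rw [hb']; ring
      linear_combination e3 + (i : ℝ) * f1 + (j : ℝ) * f2
    rw [e]
    exact (abs_sub _ _).trans (add_le_add huB (hcomb _ _ hb0 hb1))

end

end Pool.Agent.NH22.Den
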