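import Pool.Agent.NH22.Dual2

/-! Uniformly small linear forms in `1, ξ, η` force a linear relation: conclusion. -/

set_option autoImplicit false

namespace Pool.Agent.NH22.Dual

open Real Filter Pool.Agent.NH22.Sim Pool.Agent.NH22.Chain

theorem rel_of_forms {ξ η om : ℝ} (hξ : ExpTwo ξ) (hom1 : (3 + √5) / 2 < om)
    (h : ∃ Y₀ : ℕ, ∀ Y : ℕ, Y₀ ≤ Y → ∃ v : ℤ × ℤ × ℤ, v ≠ 0 ∧ |lf ξ η v| ≤ (Y : ℝ) ^ (-om) ∧
      nrm v ≤ Y) : ∃ v : ℤ × ℤ × ℤ, v ≠ 0 ∧ lf ξ η v = 0 := by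
  by_contra hcon
  have hI : ∀ v : ℤ × ℤ × ℤ, v ≠ 0 → lf ξ η v ≠ 0 := fun v hv h0 => hcon ⟨v, hv, h0⟩
  have h5 : 2 < √5 := by
    rw [Real.lt_sqrt (by norm_num)]; norm_num
  have hom2 : 5 / 2 < om := by linarith
  have hom : 0 < om := by linarith
  obtain ⟨Y₀, hY₀⟩ := h
  have hex : ∀ Y : ℕ, ∃ v : ℤ × ℤ × ℤ, Y₀ ≤ Y → Good ξ η om Y v := by
    intro Y
    by_cases hY : Y₀ ≤ Y
    · obtain ⟨v, hv⟩ := exists_good (hY₀ Y hY)
      exact ⟨v, fun _ => hv⟩
    · exact ⟨0, fun h => absurd h hY⟩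
  choose f hf using hex
  obtain ⟨Y₁, hY₁, hY₁', h3⟩ := third_ne hξ (by linarith) hf
  have hf1 : ∀ Y, Y₁ ≤ Y → Good ξ η om Y (f Y) := fun Y hY => hf Y (hY₁.trans hY)
  obtain ⟨Y₂, hY₂, hsmall⟩ := small2 hI hY₁' hf1 hξ hom1 h3
  -- the sequence of scales
  set s : ℕ → ℕ := fun k => (g ξ η om f)^[k] Y₂ with hs
  have hs0 : s 0 = Y₂ := rfl
  have hsS : ∀ k, s (k + 1) = g ξ η om f (s k) := fun k => by
    rw [hs]; exact Function.iterate_succ_apply' _ _ _
  have hsY : ∀ k, Y₂ + k ≤ s k := by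
    intro k
    induction k with
    | zero => simp [hs0]
    | succ k ih =>
      have := lt_g hI hom hf1 (show Y₁ ≤ s k by omega)
      rw [hsS]
      omega
  have hsY1 : ∀ k, Y₁ ≤ s k := fun k => by have := hsY k; omega
  set x : ℕ → ℤ := fun k => (f (s k)).1 with hx
  set y : ℕ → ℤ := fun k => (f (s k)).2.1 with hy
  set z : ℕ → ℤ := fun k => (f (s k)).2.2 with hz
  set L : ℕ → ℝ := fun k => lf ξ η (f (s k)) with hL
  have hN : ∀ k, nrm (f (s k)) ≤ s k := fun k => (hf1 _ (hsY1 k)).2.2.1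
  have hslt : ∀ k, s k < s (k + 1) := fun k => by
    rw [hsS]; exact lt_g hI hom hf1 (hsY1 k)
  have hLlt : ∀ k, |L (k + 1)| < |L k| := fun k => by
    have := L_lt hI hom hf1 (hsY1 k)
    rw [← hsS] at this
    exact this
  have hkey : ∀ k, 6 * |L k| * (s (k + 1) : ℝ) * (s (k + 2) : ℝ) < 1 := fun k => by
    have := hsmall (s k) (by have := hsY k; omega)
    rw [← hsS, ← hsS] at this
    exact this
  have hQc : ∀ k, Qm (f (s k)) (f (s (k + 1))) = c1 x y z k := fun k => rfl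
  have hPc : ∀ k, Pm (f (s k)) (f (s (k + 1))) = c2 x y z k := fun k => rfl
  have hRc : ∀ k, Rm (f (s k)) (f (s (k + 1))) = c3 x y z k := fun k => rfl
  have hnz : ∀ k, Nz x y z k := by
    rintro k ⟨e1, e2, e3⟩
    have := indep hI hom hY₁' hf1 (hsY1 k)
    rw [← hsS] at this
    exact this ⟨by rw [hQc]; exact e1, by rw [hPc]; exact e2, by rw [hRc]; exact e3⟩
  have hdet : ∀ k, c1 x y z k * x (k + 2) + c2 x y z k * y (k + 2) + c3 x y z k * z (k + 2) = 0 := by
    intro k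
    have e : ((c1 x y z k * x (k + 2) + c2 x y z k * y (k + 2) + c3 x y z k * z (k + 2) : ℤ) : ℝ) =
        L k * (y (k + 1) * z (k + 2) - z (k + 1) * y (k + 2)) -
        L (k + 1) * (y k * z (k + 2) - z k * y (k + 2)) +
        L (k + 2) * (y k * z (k + 1) - z k * y (k + 1)) := by
      rw [hL]
      unfold c1 c2 c3
      simp only [hx, hy, hz]
      unfold lf
      push_cast
      ring
    have hy' : ∀ i, |(y i : ℝ)| ≤ s i := fun i => (le2 _).trans (by exact_mod_cast hN i)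
    have hz' : ∀ i, |(z i : ℝ)| ≤ s i := fun i => (le3 _).trans (by exact_mod_cast hN i)
    have hb2 : ∀ i j, |(y i : ℝ) * z j - z i * y j| ≤ 2 * (s i * s j) := by
      intro i j
      calc |(y i : ℝ) * z j - z i * y j| ≤ |(y i : ℝ) * z j| + |(z i : ℝ) * y j| := abs_sub _ _
        _ = |(y i : ℝ)| * |(z j : ℝ)| + |(z i : ℝ)| * |(y j : ℝ)| := by rw [abs_mul, abs_mul]
        _ ≤ s i * s j + s i * s j := by
            have h1 := hy' i
            have h2 := hy' j
            have h3 := hz' i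
            have h4 := hz' j
            gcongr
        _ = _ := by ring
    have l0 := (hLlt k).le
    have l1 := (hLlt (k + 1)).le
    rw [show k + 1 + 1 = k + 2 by ring] at l1
    have s0 : (s k : ℝ) ≤ s (k + 1) := by exact_mod_cast (hslt k).le
    have s1 : (s (k + 1) : ℝ) ≤ s (k + 2) := by exact_mod_cast (hslt (k + 1)).le
    have hlt : |((c1 x y z k * x (k + 2) + c2 x y z k * y (k + 2) +
        c3 x y z k * z (k + 2) : ℤ) : ℝ)| < 1 := by
      rw [e]
      refine lt_of_le_of_lt ?_ (hkey k)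
      calc |L k * ((y (k + 1) : ℝ) * z (k + 2) - z (k + 1) * y (k + 2)) -
            L (k + 1) * ((y k : ℝ) * z (k + 2) - z k * y (k + 2)) +
            L (k + 2) * ((y k : ℝ) * z (k + 1) - z k * y (k + 1))|
          ≤ |L k * ((y (k + 1) : ℝ) * z (k + 2) - z (k + 1) * y (k + 2)) -
            L (k + 1) * ((y k : ℝ) * z (k + 2) - z k * y (k + 2))| +
            |L (k + 2) * ((y k : ℝ) * z (k + 1) - z k * y (k + 1))| := abs_add_le _ _
        _ ≤ |L k * ((y (k + 1) : ℝ) * z (k + 2) - z (k + 1) * y (k + 2))| +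
            |L (k + 1) * ((y k : ℝ) * z (k + 2) - z k * y (k + 2))| +
            |L (k + 2) * ((y k : ℝ) * z (k + 1) - z k * y (k + 1))| := by
            gcongr
            exact abs_sub _ _
        _ = |L k| * |(y (k + 1) : ℝ) * z (k + 2) - z (k + 1) * y (k + 2)| +
            |L (k + 1)| * |(y k : ℝ) * z (k + 2) - z k * y (k + 2)| +
            |L (k + 2)| * |(y k : ℝ) * z (k + 1) - z k * y (k + 1)| := by
            rw [abs_mul, abs_mul, abs_mul]
        _ ≤ |L k| * (2 * (s (k + 1) * s (k + 2))) + |L k| * (2 * (s (k + 1) * s (k + 2))) +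
            |L k| * (2 * (s (k + 1) * s (k + 2))) := by
            have t1 := hb2 (k + 1) (k + 2)
            have t2 := hb2 k (k + 2)
            have t3 := hb2 k (k + 1)
            have t2' : |(y k : ℝ) * z (k + 2) - z k * y (k + 2)| ≤ 2 * (s (k + 1) * s (k + 2)) :=
              t2.trans (by gcongr)
            have t3' : |(y k : ℝ) * z (k + 1) - z k * y (k + 1)| ≤ 2 * (s (k + 1) * s (k + 2)) :=
              t3.trans (by gcongr)
            have l2 : |L (k + 2)| ≤ |L k| := l1.trans l0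
            gcongr
        _ = 6 * |L k| * (s (k + 1) : ℝ) * (s (k + 2) : ℝ) := by ring
    have : |c1 x y z k * x (k + 2) + c2 x y z k * y (k + 2) + c3 x y z k * z (k + 2)| < 1 := by
      exact_mod_cast hlt
    exact Int.abs_lt_one_iff.mp this
  have hch := chain x y z hdet hnz
  -- the approximations of `ξ`
  have hsmallQ : ∀ k, |(c1 x y z k : ℝ) * ξ - c2 x y z k| ≤
      2 * (2 ^ om * (s (k + 1) : ℝ) ^ (1 - om)) := by
    intro k
    have := QP_small hI hY₁' hf1 hom (hsY1 k)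
    rw [← hsS] at this
    exact this
  have hQPne : ∀ k, ¬ (c1 x y z k = 0 ∧ c2 x y z k = 0) := by
    rintro k ⟨e1, e2⟩
    have := QP_ne hI hY₁' hf1 hom h3 (hsY1 k)
    rw [← hsS] at this
    exact this ⟨by rw [hQc]; exact e1, by rw [hPc]; exact e2⟩
  set A : ℤ := c1 x y z 0 with hA
  set B : ℤ := c2 x y z 0 with hB
  have hprop : ∀ k, A * c2 x y z k = B * c1 x y z k := fun k =>
    prop12 x y z k (hch k).1 (hch k).2
  have hABne : (A : ℝ) * ξ - B ≠ 0 := by
    by_cases hA0 : A = 0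
    · have hB0 : B ≠ 0 := fun hB0 => hQPne 0 ⟨hA0, hB0⟩
      rw [hA0]
      have : (B : ℝ) ≠ 0 := by exact_mod_cast hB0
      simpa using this
    · exact hξ.ne hA0
  have hlim : Tendsto (fun k : ℕ => 2 * (2 ^ om * (s (k + 1) : ℝ) ^ (1 - om))) atTop
      (nhds (2 * (2 ^ om * 0))) := by
    apply Tendsto.const_mul
    apply Tendsto.const_mul
    have t1 : Tendsto (fun k => s (k + 1)) atTop atTop := by
      apply tendsto_atTop_mono (fun k => (by have := hsY (k + 1); omega : k ≤ s (k + 1))) tendsto_id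
    have t2 : Tendsto (fun u : ℝ => u ^ (1 - om)) atTop (nhds 0) := by
      have := tendsto_rpow_neg_atTop (show 0 < om - 1 by linarith)
      rwa [neg_sub] at this
    exact t2.comp (tendsto_natCast_atTop_atTop.comp t1)
  rw [mul_zero, mul_zero] at hlim
  -- bound for `|A ξ - B|`
  have hpos : 0 < |(A : ℝ) * ξ - B| / (|(A : ℝ)| + 1) := by positivity
  obtain ⟨k, hk1, hk2⟩ := ((hlim.eventually_lt_const hpos).and
    (hlim.eventually_lt_const one_pos)).exists
  have hk := hsmallQ k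
  have hQ0 : c1 x y z k ≠ 0 := by
    intro h0
    have hP0 : c2 x y z k ≠ 0 := fun hP => hQPne k ⟨h0, hP⟩
    have : (1 : ℤ) ≤ |c2 x y z k| := Int.one_le_abs hP0
    have h4 : (1 : ℝ) ≤ |(c2 x y z k : ℝ)| := by exact_mod_cast this
    rw [h0] at hk
    have h6 : |((0 : ℤ) : ℝ) * ξ - c2 x y z k| = |(c2 x y z k : ℝ)| := by simp
    rw [h6] at hk
    linarith
  have hQ1 : (1 : ℝ) ≤ |(c1 x y z k : ℝ)| := by exact_mod_cast Int.one_le_abs hQ0
  have hp : (A : ℝ) * c2 x y z k = B * c1 x y z k := by exact_mod_cast hprop k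
  have e1 : |(c1 x y z k : ℝ)| * |(A : ℝ) * ξ - B| =
      |(A : ℝ)| * |(c1 x y z k : ℝ) * ξ - c2 x y z k| := by
    rw [← abs_mul, ← abs_mul]
    congr 1
    linear_combination hp
  have e2 : |(A : ℝ) * ξ - B| ≤ |(A : ℝ)| * |(c1 x y z k : ℝ) * ξ - c2 x y z k| := by
    rw [← e1]
    nlinarith [abs_nonneg ((A : ℝ) * ξ - B)]
  have e3 : |(c1 x y z k : ℝ) * ξ - c2 x y z k| < |(A : ℝ) * ξ - B| / (|(A : ℝ)| + 1) :=
    hk.trans_lt hk1
  rw [lt_div_iff₀ (by positivity)] at e3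
  have e4 : 0 < |(A : ℝ) * ξ - B| := abs_pos.mpr hABne
  nlinarith [abs_nonneg ((c1 x y z k : ℝ) * ξ - c2 x y z k), abs_nonneg (A : ℝ)]

end Pool.Agent.NH22.Dual
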