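import Pool.Agent.NH22.Sim2
import Pool.Agent.NH22.Dual3

/-! The remaining implications between the exponents of approximation of `(ξ, η)`. -/

set_option autoImplicit false

namespace Pool.Agent.NH22.Gap

open Real Filter Pool.Agent.NH22.Sim Pool.Agent.NH22.Dual

/-- the linear form -/
def form (ξ η : ℝ) (a b c : ℤ) : ℝ := a + b * ξ + c * η

/-- the height -/
def ht (a b c : ℤ) : ℝ := max (max |(a : ℝ)| |(b : ℝ)|) |(c : ℝ)|

/-- simultaneous approximation `≤ δ` with a denominator `≤ X` -/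
def Simul (ξ η X δ : ℝ) : Prop :=
  ∃ q p r : ℤ, 1 ≤ q ∧ (q : ℝ) ≤ X ∧ |q * ξ - p| ≤ δ ∧ |q * η - r| ≤ δ

/-- a nonzero linear form of height `≤ X` and absolute value `≤ δ` -/
def SmallForm (ξ η X δ : ℝ) : Prop :=
  ∃ a b c : ℤ, ¬ (a = 0 ∧ b = 0 ∧ c = 0) ∧ ht a b c ≤ X ∧ |form ξ η a b c| ≤ δ

def Dep (ξ η : ℝ) : Prop := ∃ a b : ℚ, η = a + b * ξ

theorem dep_of_rel {ξ η : ℝ} (hξ : ExpTwo ξ) {a b c : ℤ} (h : ¬ (a = 0 ∧ b = 0 ∧ c = 0))
    (h0 : (a : ℝ) + b * ξ + c * η = 0) : Dep ξ η := by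
  have hc : c ≠ 0 := by
    intro hc
    rw [hc] at h0
    by_cases hb : b = 0
    · apply h
      refine ⟨?_, hb, hc⟩
      rw [hb] at h0
      have : (a : ℝ) = 0 := by push_cast at h0; linarith
      exact_mod_cast this
    · apply hξ.ne (Q := b) (m := -a) hb
      push_cast at h0 ⊢
      linarith
  have hc' : (c : ℝ) ≠ 0 := by exact_mod_cast hc
  refine ⟨-a / c, -b / c, ?_⟩
  push_cast
  field_simp
  linarith

/-- integer form of the dependence -/
theorem Dep.int {ξ η : ℝ} (h : Dep ξ η) : ∃ A B D : ℤ, 1 ≤ D ∧ (D : ℝ) * η = A + B * ξ := by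
  obtain ⟨a, b, hab⟩ := h
  refine ⟨a.num * b.den, b.num * a.den, a.den * b.den, ?_, ?_⟩
  · have h1 := a.den_pos
    have h2 := b.den_pos
    have : 0 < a.den * b.den := Nat.mul_pos h1 h2
    exact_mod_cast this
  · have ha : (a : ℝ) * a.den = a.num := by exact_mod_cast Rat.mul_den_eq_num a
    have hb : (b : ℝ) * b.den = b.num := by exact_mod_cast Rat.mul_den_eq_num b
    rw [hab]
    push_cast
    rw [← ha, ← hb]
    ring

theorem a_b {ξ η : ℝ} (h : Dep ξ η) : ∃ C : ℝ, ∀ X : ℝ, 1 ≤ X → Simul ξ η X (C / X) := by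
  obtain ⟨A, B, D, hD, hrel⟩ := h.int
  have hDr : (1 : ℝ) ≤ D := by exact_mod_cast hD
  refine ⟨(D : ℝ) ^ 2 + |(B : ℝ)| * D + D, fun X hX => ?_⟩
  have hXpos : 0 < X := by linarith
  by_cases hXD : X < D
  · refine ⟨1, round ((1 : ℝ) * ξ), round ((1 : ℝ) * η), le_rfl, by simpa using hX, ?_, ?_⟩
    · push_cast
      refine (abs_sub_round _).trans ?_
      rw [le_div_iff₀ hXpos]
      have : 0 ≤ |(B : ℝ)| * D := by positivity
      nlinarith
    · push_cast
      refine (abs_sub_round _).trans ?_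
      rw [le_div_iff₀ hXpos]
      have : 0 ≤ |(B : ℝ)| * D := by positivity
      nlinarith
  · have hXD' : (D : ℝ) ≤ X := not_lt.mp hXD
    set N : ℕ := ⌊X / D⌋₊ with hN
    have hDpos : (0 : ℝ) < D := by linarith
    have hN1 : 0 < N := by
      apply Nat.floor_pos.mpr
      rw [le_div_iff₀ hDpos]
      linarith
    obtain ⟨m, hm0, hmN, hm⟩ := Real.exists_nat_abs_mul_sub_round_le ξ hN1
    have hNle : (N : ℝ) ≤ X / D := Nat.floor_le (by positivity)
    have hNlt : X / D < N + 1 := Nat.lt_floor_add_one _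
    have hb1 : (1 : ℝ) / (N + 1) ≤ D / X := by
      rw [div_le_div_iff₀ (by positivity) hXpos]
      rw [div_lt_iff₀ hDpos] at hNlt
      nlinarith
    have hm' := hm.trans hb1
    set j : ℤ := round ((m : ℝ) * ξ) with hj
    refine ⟨D * m, D * j, A * m + B * j, ?_, ?_, ?_, ?_⟩
    · have : (1 : ℤ) ≤ m := by exact_mod_cast hm0
      nlinarith
    · push_cast
      have : (m : ℝ) ≤ X / D := le_trans (by exact_mod_cast hmN) hNle
      rw [le_div_iff₀ hDpos] at this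
      linarith
    · have e : ((D * m : ℤ) : ℝ) * ξ - ((D * j : ℤ) : ℝ) = D * ((m : ℝ) * ξ - j) := by
        push_cast; ring
      rw [e, abs_mul, abs_of_pos hDpos]
      calc (D : ℝ) * |(m : ℝ) * ξ - j| ≤ D * (D / X) := mul_le_mul_of_nonneg_left hm' hDpos.le
        _ = (D : ℝ) ^ 2 / X := by ring
        _ ≤ _ := by
            apply div_le_div_of_nonneg_right _ hXpos.le
            have : 0 ≤ |(B : ℝ)| * D := by positivity
            linarith
    · have e : ((D * m : ℤ) : ℝ) * η - ((A * m + B * j : ℤ) : ℝ) = B * ((m : ℝ) * ξ - j) := by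
        push_cast
        linear_combination (m : ℝ) * hrel
      rw [e, abs_mul]
      calc |(B : ℝ)| * |(m : ℝ) * ξ - j| ≤ |(B : ℝ)| * (D / X) :=
            mul_le_mul_of_nonneg_left hm' (abs_nonneg _)
        _ = (|(B : ℝ)| * D) / X := by ring
        _ ≤ _ := by
            apply div_le_div_of_nonneg_right _ hXpos.le
            have : (0 : ℝ) ≤ (D : ℝ) ^ 2 := by positivity
            linarith

theorem Simul.mono {ξ η X δ δ' : ℝ} (h : Simul ξ η X δ) (hd : δ ≤ δ') : Simul ξ η X δ' := by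
  obtain ⟨q, p, r, h1, h2, h3, h4⟩ := h
  exact ⟨q, p, r, h1, h2, h3.trans hd, h4.trans hd⟩

theorem golden_lt : (√5 - 1) / 2 < 9 / 10 := by
  have : √5 < 14 / 5 := by
    rw [Real.sqrt_lt' (by norm_num)]; norm_num
  linarith

theorem b_c {ξ η : ℝ} (h : ∃ C : ℝ, ∀ X : ℝ, 1 ≤ X → Simul ξ η X (C / X)) :
    ∃ lam : ℝ, (√5 - 1) / 2 < lam ∧ ∃ X₀ : ℝ, ∀ X : ℝ, X₀ ≤ X → Simul ξ η X (X ^ (-lam)) := by
  obtain ⟨C, hC⟩ := h
  refine ⟨9 / 10, golden_lt, ?_⟩
  have ht : Tendsto (fun X : ℝ => X ^ (1 / 10 : ℝ)) atTop atTop := tendsto_rpow_atTop (by norm_num)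
  obtain ⟨X₀, hX₀⟩ := eventually_atTop.mp (ht.eventually_ge_atTop C)
  refine ⟨max X₀ 1, fun X hX => ?_⟩
  have h1 : X₀ ≤ X := (le_max_left _ _).trans hX
  have h2 : 1 ≤ X := (le_max_right _ _).trans hX
  have hpos : 0 < X := by linarith
  refine (hC X h2).mono ?_
  have e : X ^ (-(9 / 10) : ℝ) * X = X ^ (1 / 10 : ℝ) := by
    rw [← Real.rpow_add_one hpos.ne']
    norm_num
  rw [div_le_iff₀ hpos, e]
  exact hX₀ X h1

theorem c_a {ξ η : ℝ} (hξ : ExpTwo ξ) (h : ∃ lam : ℝ, (√5 - 1) / 2 < lam ∧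
    ∃ X₀ : ℝ, ∀ X : ℝ, X₀ ≤ X → Simul ξ η X (X ^ (-lam))) : Dep ξ η := by
  obtain ⟨lam, hlam, X₀, hX⟩ := h
  set lam' : ℝ := min lam (9 / 10) with hlam'
  have h1 : (√5 - 1) / 2 < lam' := lt_min hlam golden_lt
  have h2 : lam' < 1 := (min_le_right _ _).trans_lt (by norm_num)
  have hadm : Adm ξ η lam' (max ⌈X₀⌉₊ 1) := by
    refine ⟨le_max_right _ _, fun Y hY => ?_⟩
    have hY1 : 1 ≤ Y := (le_max_right _ _).trans hY
    have hY2 : X₀ ≤ Y := (Nat.le_ceil X₀).trans (by exact_mod_cast (le_max_left _ _).trans hY)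
    obtain ⟨q, p, r, q1, q2, q3, q4⟩ := hX Y hY2
    have hYr : (1 : ℝ) ≤ Y := by exact_mod_cast hY1
    have hle : (Y : ℝ) ^ (-lam) ≤ (Y : ℝ) ^ (-lam') := by
      apply Real.rpow_le_rpow_of_exponent_le hYr
      have := min_le_left lam (9 / 10)
      linarith
    have hqn : ((q.toNat : ℕ) : ℤ) = q := Int.toNat_of_nonneg (by omega)
    have hqr : ((q.toNat : ℕ) : ℝ) = q := by exact_mod_cast hqn
    refine ⟨q.toNat, ⟨by omega, ?_⟩, ?_⟩
    · unfold Lq
      rw [hqr]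
      apply max_le
      · exact (Pool.Agent.NH22.Seq.di_le _ p).trans (q3.trans hle)
      · exact (Pool.Agent.NH22.Seq.di_le _ r).trans (q4.trans hle)
    · have : (q.toNat : ℝ) ≤ Y := by rw [hqr]; exact q2
      exact_mod_cast this
  obtain ⟨a, b, c, hne, h0⟩ := rel_of_adm hξ h1 h2 hadm
  exact dep_of_rel hξ hne h0

theorem a_d {ξ η : ℝ} (h : Dep ξ η) : ∃ om : ℝ, (3 + √5) / 2 < om ∧
    ∃ X₀ : ℝ, ∀ X : ℝ, X₀ ≤ X → SmallForm ξ η X (X ^ (-om)) := by
  obtain ⟨A, B, D, hD, hrel⟩ := h.int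
  have h5 : √5 < 3 := by
    rw [Real.sqrt_lt' (by norm_num)]; norm_num
  refine ⟨3, by linarith, max (ht A B (-D)) 0, fun X hX => ⟨A, B, -D, ?_, ?_, ?_⟩⟩
  · rintro ⟨-, -, h3⟩; omega
  · exact (le_max_left _ _).trans hX
  · have : form ξ η A B (-D) = 0 := by
      unfold form; push_cast; linarith
    rw [this, abs_zero]
    have : 0 ≤ X := (le_max_right _ _).trans hX
    positivity

theorem ht_eq (a b c : ℤ) : ht a b c = nrm (a, b, c) := by
  unfold ht nrm
  have hcast : ∀ t : ℤ, ((t.natAbs : ℕ) : ℝ) = |(t : ℝ)| := fun t => by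
    rw [Nat.cast_natAbs]; push_cast; rfl
  simp only [Nat.cast_max, hcast]

theorem d_a {ξ η : ℝ} (hξ : ExpTwo ξ) (h : ∃ om : ℝ, (3 + √5) / 2 < om ∧
    ∃ X₀ : ℝ, ∀ X : ℝ, X₀ ≤ X → SmallForm ξ η X (X ^ (-om))) : Dep ξ η := by
  obtain ⟨om, hom, X₀, hX⟩ := h
  obtain ⟨v, hv, hv0⟩ := rel_of_forms (ξ := ξ) (η := η) hξ hom ⟨⌈X₀⌉₊, fun Y hY => by
    have hY2 : X₀ ≤ Y := (Nat.le_ceil X₀).trans (by exact_mod_cast hY)
    obtain ⟨a, b, c, hne, h1, h2⟩ := hX Y hY2
    refine ⟨(a, b, c), ?_, h2, ?_⟩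
    · intro h0
      apply hne
      simpa [Prod.ext_iff] using h0
    · rw [ht_eq] at h1
      exact_mod_cast h1⟩
  refine dep_of_rel hξ (a := v.1) (b := v.2.1) (c := v.2.2) ?_ hv0
  rintro ⟨h1, h2, h3⟩
  exact hv (by ext <;> assumption)

theorem ht_nonneg (a b c : ℤ) : 0 ≤ ht a b c := by
  unfold ht; positivity

theorem one_le_ht {a b c : ℤ} (h : ¬ (a = 0 ∧ b = 0 ∧ c = 0)) : 1 ≤ ht a b c := by
  have h1 : ∀ t : ℤ, t ≠ 0 → (1 : ℝ) ≤ |(t : ℝ)| := fun t ht => by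
    exact_mod_cast Int.one_le_abs ht
  unfold ht
  by_cases ha : a = 0
  · by_cases hb : b = 0
    · have hc : c ≠ 0 := fun hc => h ⟨ha, hb, hc⟩
      exact le_max_of_le_right (h1 c hc)
    · exact le_max_of_le_left (le_max_of_le_right (h1 b hb))
  · exact le_max_of_le_left (le_max_of_le_left (h1 a ha))

theorem a_f {ξ η : ℝ} (hξ : ExpTwo ξ) (h : Dep ξ η) : ∀ ε : ℝ, 0 < ε → ∃ c₀ : ℝ, 0 < c₀ ∧
    ∀ a b c : ℤ, form ξ η a b c ≠ 0 → c₀ * ht a b c ^ (-(1 + ε)) ≤ |form ξ η a b c| := by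
  obtain ⟨A, B, D, hD, hrel⟩ := h.int
  intro ε hε
  obtain ⟨c1, hc1, hm⟩ := hξ.int hε
  have hDpos : (0 : ℝ) < D := by exact_mod_cast (by omega : 0 < D)
  set K : ℝ := D + |(B : ℝ)| with hK
  have hKpos : 0 < K := by positivity
  set c₂ : ℝ := min c1 1 / (D * (max K 1) ^ (1 + ε)) with hc2
  have hc2pos : 0 < c₂ := by
    have : 0 < max K 1 := lt_max_of_lt_right one_pos
    have : 0 < min c1 1 := lt_min hc1 one_pos
    positivity
  refine ⟨c₂, hc2pos, fun a b c hne => ?_⟩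
  have hne' : ¬ (a = 0 ∧ b = 0 ∧ c = 0) := by
    rintro ⟨rfl, rfl, rfl⟩
    apply hne; simp [form]
  have hH := one_le_ht hne'
  have hHpos : 0 < ht a b c := by linarith
  set H : ℝ := ht a b c with hHdef
  have hb : |(b : ℝ)| ≤ H := le_max_of_le_left (le_max_right _ _)
  have hc : |(c : ℝ)| ≤ H := le_max_right _ _
  -- `D L = p + q ξ`
  set q : ℤ := D * b + c * B with hq
  set p : ℤ := D * a + c * A with hp
  have e : (D : ℝ) * form ξ η a b c = q * ξ - ((-p : ℤ) : ℝ) := by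
    rw [hq, hp]; unfold form; push_cast; linear_combination (c : ℝ) * hrel
  have hqle : |(q : ℝ)| ≤ (max K 1) * H := by
    rw [hq]; push_cast
    calc |(D : ℝ) * b + c * B| ≤ |(D : ℝ) * b| + |(c : ℝ) * B| := abs_add_le _ _
      _ = D * |(b : ℝ)| + |(c : ℝ)| * |(B : ℝ)| := by rw [abs_mul, abs_mul, abs_of_pos hDpos]
      _ ≤ D * H + H * |(B : ℝ)| := by gcongr
      _ = K * H := by rw [hK]; ring
      _ ≤ _ := by gcongr; exact le_max_left _ _
  have hM1 : 1 ≤ max K 1 := le_max_right _ _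
  have hMpos : 0 < max K 1 := by linarith
  have key : min c1 1 ≤ ((max K 1) * H) ^ (1 + ε) * (D * |form ξ η a b c|) := by
    have e' : (D : ℝ) * |form ξ η a b c| = |(q : ℝ) * ξ - ((-p : ℤ) : ℝ)| := by
      rw [← e, abs_mul, abs_of_pos hDpos]
    rw [e']
    have hbig : (1 : ℝ) ≤ ((max K 1) * H) ^ (1 + ε) := by
      apply Real.one_le_rpow _ (by linarith)
      nlinarith
    by_cases hq0 : q = 0
    · have hp0 : p ≠ 0 := by
        intro hp0
        rw [hq0, hp0] at e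
        apply hne
        have : (D : ℝ) * form ξ η a b c = 0 := by rw [e]; simp
        rcases mul_eq_zero.mp this with h1 | h1
        · exact absurd h1 hDpos.ne'
        · exact h1
      have h1 : (1 : ℝ) ≤ |(q : ℝ) * ξ - ((-p : ℤ) : ℝ)| := by
        rw [hq0]
        have : (1 : ℤ) ≤ |p| := Int.one_le_abs hp0
        have h4 : (1 : ℝ) ≤ |(p : ℝ)| := by exact_mod_cast this
        simpa using h4
      calc min c1 1 ≤ 1 := min_le_right _ _
        _ = 1 * 1 := by ring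
        _ ≤ _ := mul_le_mul hbig h1 (by norm_num) (by positivity)
    · refine (min_le_left _ _).trans ((hm q hq0 (-p)).trans ?_)
      apply mul_le_mul_of_nonneg_right _ (abs_nonneg _)
      exact Real.rpow_le_rpow (abs_nonneg _) hqle (by linarith)
  rw [Real.mul_rpow hMpos.le hHpos.le] at key
  rw [Real.rpow_neg hHpos.le, hc2]
  have hHp : 0 < H ^ (1 + ε) := by positivity
  have hMp : 0 < (max K 1) ^ (1 + ε) := by positivity
  rw [div_mul_eq_mul_div, div_le_iff₀ (by positivity), ← div_eq_mul_inv, div_le_iff₀ hHp]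
  linarith

theorem e_a {ξ η : ℝ} (hξ : ExpTwo ξ) (h : ∃ om : ℝ, om < 2 ∧ ∃ c₀ : ℝ, 0 < c₀ ∧
    ∀ a b c : ℤ, form ξ η a b c ≠ 0 → c₀ * ht a b c ^ (-om) ≤ |form ξ η a b c|) : Dep ξ η := by
  by_contra hcon
  obtain ⟨om, hom, c₀, hc₀, hlow⟩ := h
  have hI : ∀ a b c : ℤ, ¬ (a = 0 ∧ b = 0 ∧ c = 0) → form ξ η a b c ≠ 0 := by
    intro a b c hne h0
    exact hcon (dep_of_rel hξ hne h0)
  set om' : ℝ := max om 0 with hom'
  have hom2 : om' < 2 := max_lt hom (by norm_num)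
  have hom0 : 0 ≤ om' := le_max_right _ _
  set C₁ : ℝ := 1 + |ξ| + |η| with hC1
  have hC1pos : 0 < C₁ := by positivity
  -- for every `H` a small form
  have hsmall : ∀ H : ℕ, 1 ≤ H → ∃ a b c : ℤ, ¬ (a = 0 ∧ b = 0 ∧ c = 0) ∧ ht a b c ≤ C₁ * H ∧
      |form ξ η a b c| ≤ 1 / (H : ℝ) ^ 2 := by
    intro H hH
    have hHr : (1 : ℝ) ≤ H := by exact_mod_cast hH
    set K : ℕ := H ^ 2 + 2 * H with hK
    have hKpos : (0 : ℝ) < K := by
      have : 0 < K := by positivity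
      exact_mod_cast this
    set F : ℕ × ℕ → ℕ := fun t => ⌊Int.fract ((t.1 : ℝ) * ξ + t.2 * η) * K⌋₊ with hF
    have hmaps : ∀ t ∈ Finset.range (H + 1) ×ˢ Finset.range (H + 1), F t ∈ Finset.range K := by
      intro t _
      rw [Finset.mem_range]
      have h1 : Int.fract ((t.1 : ℝ) * ξ + t.2 * η) * K < K := by
        have := Int.fract_lt_one ((t.1 : ℝ) * ξ + t.2 * η)
        nlinarith
      exact (Nat.floor_lt (mul_nonneg (Int.fract_nonneg _) hKpos.le)).mpr h1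
    have hcard : (Finset.range K).card < (Finset.range (H + 1) ×ˢ Finset.range (H + 1)).card := by
      rw [Finset.card_product, Finset.card_range, Finset.card_range, hK]
      nlinarith
    obtain ⟨s, hs, t, ht', hst, hFst⟩ := Finset.exists_ne_map_eq_of_card_lt_of_maps_to hcard hmaps
    simp only [Finset.mem_product, Finset.mem_range] at hs ht'
    set u : ℝ := (s.1 : ℝ) * ξ + s.2 * η with hu
    set w : ℝ := (t.1 : ℝ) * ξ + t.2 * η with hw
    have hdiff : |Int.fract u - Int.fract w| ≤ 1 / K := by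
      have h1 : ∀ v : ℝ, ((⌊Int.fract v * K⌋₊ : ℕ) : ℝ) ≤ Int.fract v * K := fun v =>
        Nat.floor_le (mul_nonneg (Int.fract_nonneg _) hKpos.le)
      have h2 : ∀ v : ℝ, Int.fract v * K < ((⌊Int.fract v * K⌋₊ : ℕ) : ℝ) + 1 := fun v =>
        Nat.lt_floor_add_one _
      have h3 : ((⌊Int.fract u * K⌋₊ : ℕ) : ℝ) = ((⌊Int.fract w * K⌋₊ : ℕ) : ℝ) := by
        exact_mod_cast hFst
      have a1 := h1 u
      have a2 := h2 u
      have a3 := h1 w
      have a4 := h2 w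
      rw [abs_le, ← neg_div, div_le_iff₀ hKpos, le_div_iff₀ hKpos]
      constructor <;> nlinarith
    refine ⟨⌊w⌋ - ⌊u⌋, (s.1 : ℤ) - t.1, (s.2 : ℤ) - t.2, ?_, ?_, ?_⟩
    · rintro ⟨-, h1, h2⟩
      apply hst
      ext
      · have : (s.1 : ℤ) = t.1 := by linarith
        exact_mod_cast this
      · have : (s.2 : ℤ) = t.2 := by linarith
        exact_mod_cast this
    all_goals
      have hform : form ξ η (⌊w⌋ - ⌊u⌋) ((s.1 : ℤ) - t.1) ((s.2 : ℤ) - t.2) =
          Int.fract u - Int.fract w := by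
        unfold form Int.fract
        push_cast
        rw [hu, hw]
        ring
    · have hb : |(((s.1 : ℤ) - t.1 : ℤ) : ℝ)| ≤ H := by
        have h1 : |(s.1 : ℤ) - t.1| ≤ H := by
          rw [abs_le]; constructor <;> omega
        exact_mod_cast h1
      have hc : |(((s.2 : ℤ) - t.2 : ℤ) : ℝ)| ≤ H := by
        have h1 : |(s.2 : ℤ) - t.2| ≤ H := by
          rw [abs_le]; constructor <;> omega
        exact_mod_cast h1
      have hK1 : (1 : ℝ) / K ≤ 1 := by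
        rw [div_le_one hKpos]
        have : 1 ≤ K := by rw [hK]; nlinarith
        exact_mod_cast this
      have ha : |((⌊w⌋ - ⌊u⌋ : ℤ) : ℝ)| ≤ C₁ * H := by
        have e1 : ((⌊w⌋ - ⌊u⌋ : ℤ) : ℝ) = (Int.fract u - Int.fract w) -
            ((((s.1 : ℤ) - t.1 : ℤ) : ℝ) * ξ + (((s.2 : ℤ) - t.2 : ℤ) : ℝ) * η) := by
          rw [← hform]; unfold form; ring
        rw [e1]
        calc |(Int.fract u - Int.fract w) -
              ((((s.1 : ℤ) - t.1 : ℤ) : ℝ) * ξ + (((s.2 : ℤ) - t.2 : ℤ) : ℝ) * η)|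
            ≤ |Int.fract u - Int.fract w| +
              |(((s.1 : ℤ) - t.1 : ℤ) : ℝ) * ξ + (((s.2 : ℤ) - t.2 : ℤ) : ℝ) * η| := abs_sub _ _
          _ ≤ 1 + (|(((s.1 : ℤ) - t.1 : ℤ) : ℝ) * ξ| + |(((s.2 : ℤ) - t.2 : ℤ) : ℝ) * η|) := by
              gcongr
              · exact hdiff.trans hK1
              · exact abs_add_le _ _
          _ ≤ 1 * H + (H * |ξ| + H * |η|) := by
              rw [abs_mul, abs_mul]
              gcongr
              linarith
          _ = C₁ * H := by rw [hC1]; ring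
      have hCH : (H : ℝ) ≤ C₁ * H := by
        have : 1 ≤ C₁ := by
          rw [hC1]
          have := abs_nonneg ξ
          have := abs_nonneg η
          linarith
        nlinarith
      exact max_le (max_le ha (hb.trans hCH)) (hc.trans hCH)
    · rw [hform]
      refine hdiff.trans ?_
      apply one_div_le_one_div_of_le (by positivity)
      rw [hK]
      push_cast
      nlinarith
  -- contradiction for large `H`
  have hlim : Tendsto (fun H : ℕ => (H : ℝ) ^ (2 - om')) atTop atTop :=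
    (tendsto_rpow_atTop (by linarith)).comp tendsto_natCast_atTop_atTop
  obtain ⟨H, hH1, hH2⟩ := ((hlim.eventually_gt_atTop (C₁ ^ om' / c₀)).and
    (eventually_ge_atTop 1)).exists
  obtain ⟨a, b, c, hne, h1, h2⟩ := hsmall H hH2
  have hHpos : (0 : ℝ) < H := by exact_mod_cast (by omega : 0 < H)
  have h3 := hlow a b c (hI a b c hne)
  have h4 := one_le_ht hne
  have h5 : (C₁ * H) ^ (-om') ≤ ht a b c ^ (-om) := by
    calc (C₁ * H) ^ (-om') ≤ ht a b c ^ (-om') :=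
          Real.rpow_le_rpow_of_nonpos (by linarith) h1 (by linarith)
      _ ≤ ht a b c ^ (-om) := by
          apply Real.rpow_le_rpow_of_exponent_le h4
          have := le_max_left om 0
          linarith
  have h6 : c₀ * (C₁ * H) ^ (-om') ≤ 1 / (H : ℝ) ^ 2 :=
    (mul_le_mul_of_nonneg_left h5 hc₀.le).trans (h3.trans h2)
  rw [Real.rpow_neg (by positivity), Real.mul_rpow hC1pos.le hHpos.le, ← div_eq_mul_inv,
    div_le_div_iff₀ (by positivity) (by positivity), one_mul] at h6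
  have h7 : (H : ℝ) ^ 2 = (H : ℝ) ^ (2 - om') * (H : ℝ) ^ om' := by
    rw [← Real.rpow_add hHpos, ← Real.rpow_natCast]
    norm_num
  rw [h7] at h6
  rw [div_lt_iff₀ hc₀] at hH1
  have h8 : 0 < (H : ℝ) ^ om' := by positivity
  nlinarith

end Pool.Agent.NH22.Gap
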