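import Pool.Agent.NH22.Den
import Pool.Agent.NH22.Gap

/-! The rate of density of the multiples of `(ξ, η)` modulo one. -/

set_option autoImplicit false

namespace Pool.Agent.NH22.Den

open Real Filter Pool.Agent.NH22.Seq Pool.Agent.NH22.Sim Pool.Agent.NH22.Gap

/-- every point of the torus is within `δ` of one of `n (ξ, η)`, `n ≤ N` -/
def Covers (ξ η : ℝ) (N : ℕ) (δ : ℝ) : Prop :=
  ∀ s t : ℝ, ∃ n : ℕ, n ≤ N ∧ ∃ a b : ℤ, |n * ξ - s - a| ≤ δ ∧ |n * η - t - b| ≤ δ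

theorem Covers.mono {ξ η : ℝ} {N : ℕ} {δ δ' : ℝ} (h : Covers ξ η N δ) (hd : δ ≤ δ') :
    Covers ξ η N δ' := by
  intro s t
  obtain ⟨n, hn, a, b, h1, h2⟩ := h s t
  exact ⟨n, hn, a, b, h1.trans hd, h2.trans hd⟩

/-- consecutive best approximations around the scale `Y` -/
theorem exists_pair {ξ η : ℝ} (hξ : ExpTwo ξ) {Y : ℕ} (hY : 1 ≤ Y) : ∃ q q' : ℕ, 1 ≤ q ∧ q ≤ Y ∧
    Y < q' ∧ (∀ r : ℕ, 1 ≤ r → r < q' → Lq ξ η q ≤ Lq ξ η r) ∧ Lq ξ η q' < Lq ξ η q ∧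
    0 < Lq ξ η q := by
  classical
  obtain ⟨q, hq, hqmin⟩ := Finset.exists_min_image (Finset.Icc 1 Y) (Lq ξ η) ⟨1, by simp [hY]⟩
  rw [Finset.mem_Icc] at hq
  have hpos : 0 < Lq ξ η q := Lq_pos hξ hq.1
  have hex : ∃ q' : ℕ, 1 ≤ q' ∧ Lq ξ η q' < Lq ξ η q := by
    obtain ⟨M, hM⟩ := exists_nat_gt (1 / Lq ξ η q)
    have hM0 : 0 < M := by
      rcases Nat.eq_zero_or_pos M with h | h
      · rw [h] at hM
        have : 0 < 1 / Lq ξ η q := by positivity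
        simp only [Nat.cast_zero] at hM
        linarith
      · exact h
    obtain ⟨r, hr1, -, hr⟩ := dirichlet2 ξ η M hM0
    refine ⟨r, hr1, hr.trans_lt ?_⟩
    have hMr : (0 : ℝ) < M := by exact_mod_cast hM0
    rw [div_lt_iff₀ hMr]
    rw [div_lt_iff₀ hpos] at hM
    linarith
  refine ⟨q, Nat.find hex, hq.1, hq.2, ?_, ?_, (Nat.find_spec hex).2, hpos⟩
  · by_contra hlt
    push Not at hlt
    have h1 := (Nat.find_spec hex)
    have h2 := hqmin (Nat.find hex) (by rw [Finset.mem_Icc]; exact ⟨h1.1, hlt⟩)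
    linarith [h1.2]
  · intro r hr1 hr2
    by_contra hlt
    push Not at hlt
    exact Nat.find_min hex hr2 ⟨hr1, hlt⟩

/-- if the multiples are never dense at the rate `N^(-μ)` then there is a relation -/
theorem dep_of_sparse {ξ η : ℝ} (hξ : ExpTwo ξ) {μ : ℝ} (hμ : μ < (3 - √5) / 2)
    (h : ∀ᶠ N : ℕ in atTop, ¬ Covers ξ η N ((N : ℝ) ^ (-μ))) : Dep ξ η := by
  have h5 : 2 < √5 := by
    rw [Real.lt_sqrt (by norm_num)]; norm_num
  have h55 : √5 * √5 = 5 := Real.mul_self_sqrt (by norm_num)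
  have h54 : √5 < 9 / 4 := by nlinarith
  -- positive exponent
  obtain ⟨ν, hν⟩ : ∃ ν : ℝ, ν = max μ (1 / 10) := ⟨_, rfl⟩
  have hν0 : 0 < ν := by rw [hν]; exact lt_max_of_lt_right (by norm_num)
  have hν1 : ν < (3 - √5) / 2 := by rw [hν]; exact max_lt hμ (by linarith)
  have hν2 : ν < 1 / 2 := by linarith
  have h' : ∀ᶠ N : ℕ in atTop, ¬ Covers ξ η N ((N : ℝ) ^ (-ν)) := by
    filter_upwards [h, eventually_ge_atTop 1] with N hN hN1 hc
    apply hN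
    refine hc.mono ?_
    apply Real.rpow_le_rpow_of_exponent_le (by exact_mod_cast hN1)
    rw [hν]
    have := le_max_left μ (1 / 10)
    linarith
  obtain ⟨lam, hlam⟩ : ∃ lam : ℝ, lam = ((√5 - 1) / 2 + (1 - ν)) / 2 := ⟨_, rfl⟩
  have hlam1 : (√5 - 1) / 2 < lam := by rw [hlam]; linarith
  have hlam2 : lam < 1 - ν := by rw [hlam]; linarith
  have hlam0 : 0 < lam := by linarith
  -- the size conditions
  have t1 : ∀ᶠ x : ℕ in atTop, 2 * (x : ℝ) ^ (-(1 / 2 : ℝ)) ≤ 1 / 2 * (2 * (x : ℝ)) ^ (-ν) := by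
    have e : Tendsto (fun n : ℕ => (n : ℝ) ^ (-(1 / 2 - ν))) atTop (nhds 0) :=
      (tendsto_rpow_neg_atTop (by linarith)).comp tendsto_natCast_atTop_atTop
    have hc : (0 : ℝ) < 1 / 4 * 2 ^ (-ν) := by positivity
    filter_upwards [e.eventually_le_const hc, eventually_ge_atTop 1] with n hn hn1
    have hnp : (0 : ℝ) < n := by exact_mod_cast (by omega : 0 < n)
    rw [Real.mul_rpow (by norm_num) hnp.le]
    have e2 : (n : ℝ) ^ (-(1 / 2 : ℝ)) = (n : ℝ) ^ (-(1 / 2 - ν)) * (n : ℝ) ^ (-ν) := by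
      rw [← Real.rpow_add hnp]; congr 1; ring
    rw [e2]
    have e3 : 0 < (n : ℝ) ^ (-ν) := Real.rpow_pos_of_pos hnp _
    nlinarith
  have t2 : ∀ᶠ x : ℕ in atTop, 4 * (2 * (x : ℝ)) ^ ν / x ≤ (x : ℝ) ^ (-lam) := by
    have e : Tendsto (fun n : ℕ => (n : ℝ) ^ (-(1 - ν - lam))) atTop (nhds 0) :=
      (tendsto_rpow_neg_atTop (by linarith)).comp tendsto_natCast_atTop_atTop
    have hc : (0 : ℝ) < (4 * 2 ^ ν)⁻¹ := by positivity
    filter_upwards [e.eventually_le_const hc, eventually_ge_atTop 1] with n hn hn1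
    have hnp : (0 : ℝ) < n := by exact_mod_cast (by omega : 0 < n)
    rw [Real.mul_rpow (by norm_num) hnp.le]
    have e2 : 4 * (2 ^ ν * (n : ℝ) ^ ν) / n =
        (4 * 2 ^ ν) * (n : ℝ) ^ (-(1 - ν - lam)) * (n : ℝ) ^ (-lam) := by
      have e3 : (n : ℝ) ^ ν / n = (n : ℝ) ^ (-(1 - ν - lam)) * (n : ℝ) ^ (-lam) := by
        rw [← Real.rpow_add hnp, div_eq_mul_inv, ← Real.rpow_neg_one, ← Real.rpow_add hnp]
        congr 1
        ring
      rw [mul_assoc, ← e3]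
      ring
    rw [e2]
    have e3 : 0 < (n : ℝ) ^ (-lam) := Real.rpow_pos_of_pos hnp _
    have e4 : (4 * 2 ^ ν) * (n : ℝ) ^ (-(1 - ν - lam)) ≤ 1 := by
      have h4 : (0 : ℝ) < 4 * 2 ^ ν := by positivity
      calc (4 * 2 ^ ν) * (n : ℝ) ^ (-(1 - ν - lam)) ≤ (4 * 2 ^ ν) * (4 * 2 ^ ν)⁻¹ := by
            gcongr
        _ = 1 := mul_inv_cancel₀ h4.ne'
    nlinarith
  obtain ⟨N₀, hN₀⟩ := eventually_atTop.mp (h'.and (t1.and t2))
  have hadm : Adm ξ η lam (max N₀ 2) := by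
    refine ⟨by omega, fun Y hY => ?_⟩
    have hY1 : N₀ ≤ Y := by omega
    have hY2 : 2 ≤ Y := by omega
    obtain ⟨q, q', hq1, hqY, hYq, hmin, hL, hpos⟩ := exists_pair (η := η) hξ (show 1 ≤ Y by omega)
    refine ⟨q, ⟨hq1, ?_⟩, hqY⟩
    have hq0' : (0 : ℝ) < q' := by exact_mod_cast (by omega : 0 < q')
    obtain ⟨-, h1, h2⟩ := hN₀ q' (by omega)
    obtain ⟨hnc, -, -⟩ := hN₀ (2 * q') (by omega)
    obtain ⟨L, hLd⟩ : ∃ L, L = Lq ξ η q := ⟨_, rfl⟩
    rw [← hLd] at hpos hL ⊢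
    -- Dirichlet
    have hD : L ≤ 2 * (q' : ℝ) ^ (-(1 / 2 : ℝ)) := by
      obtain ⟨M, hM⟩ : ∃ M : ℕ, M = Nat.sqrt (q' - 1) := ⟨_, rfl⟩
      have hM1 : 1 ≤ M := by
        rw [hM, Nat.one_le_iff_ne_zero]
        intro h0
        have := Nat.sqrt_eq_zero.mp h0
        omega
      have hM2 : M ^ 2 ≤ q' - 1 := by rw [hM]; exact Nat.sqrt_le' _
      have hM3 : q' - 1 < (M + 1) ^ 2 := by rw [hM]; exact Nat.lt_succ_sqrt' _
      obtain ⟨r, hr1, hr2, hr3⟩ := dirichlet2 ξ η M hM1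
      have h3 := hmin r hr1 (by omega)
      rw [← hLd] at h3
      have hMr : (0 : ℝ) < M := by exact_mod_cast (by omega : 0 < M)
      have h4 : (q' : ℝ) ≤ (2 * M) ^ 2 := by
        have h5 : q' ≤ (2 * M) ^ 2 := by
          have h6 : (M + 1) ^ 2 ≤ (2 * M) ^ 2 := Nat.pow_le_pow_left (by omega) 2
          omega
        exact_mod_cast h5
      have h5 : (q' : ℝ) ^ (1 / 2 : ℝ) ≤ 2 * M := by
        rw [← Real.sqrt_eq_rpow]
        exact Real.sqrt_le_iff.mpr ⟨by positivity, h4⟩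
      have h6 : 0 < (q' : ℝ) ^ (1 / 2 : ℝ) := Real.rpow_pos_of_pos hq0' _
      refine (h3.trans hr3).trans ?_
      rw [Real.rpow_neg hq0'.le, ← div_eq_mul_inv, div_le_div_iff₀ hMr h6]
      linarith
    have hcov : Covers ξ η (2 * q') (2 / (q' * L) + L) := fun s t => by
      rw [hLd]
      exact cover hq1 (by omega) hmin (by rw [← hLd]; exact hL) (by rw [← hLd]; exact hpos) s t
    have hlt : (2 * (q' : ℝ)) ^ (-ν) < 2 / (q' * L) + L := by
      by_contra hcon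
      push Not at hcon
      apply hnc
      refine hcov.mono ?_
      push_cast
      exact hcon
    have h3 : 1 / 2 * (2 * (q' : ℝ)) ^ (-ν) < 2 / (q' * L) := by linarith
    have hp2 : (0 : ℝ) < (2 * (q' : ℝ)) ^ ν := by positivity
    rw [Real.rpow_neg (by positivity), lt_div_iff₀ (by positivity)] at h3
    have h4 : L < 4 * (2 * (q' : ℝ)) ^ ν / q' := by
      rw [lt_div_iff₀ hq0']
      have h5 : 1 / 2 * ((2 * (q' : ℝ)) ^ ν)⁻¹ * (q' * L) * (2 * (2 * (q' : ℝ)) ^ ν) =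
          q' * L := by
        field_simp
      nlinarith
    refine (h4.le.trans h2).trans ?_
    apply Real.rpow_le_rpow_of_nonpos
    · exact_mod_cast (by omega : 0 < Y)
    · exact_mod_cast hYq.le
    · linarith
  obtain ⟨a, b, c, hne, h0⟩ := rel_of_adm hξ hlam1 (by linarith) hadm
  exact dep_of_rel hξ hne h0

/-- if there is a relation then the multiples are not dense -/
theorem not_dense_of_dep {ξ η : ℝ} (h : Dep ξ η) : ∃ δ : ℝ, 0 < δ ∧ ∀ N, ¬ Covers ξ η N δ := by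
  obtain ⟨A, B, D, hD, hrel⟩ := h.int
  have hDr : (1 : ℝ) ≤ D := by exact_mod_cast hD
  have hK : 0 < (D : ℝ) + |(B : ℝ)| := by positivity
  refine ⟨1 / (4 * (D + |(B : ℝ)|)), by positivity, fun N hc => ?_⟩
  obtain ⟨n, -, a, b, h1, h2⟩ := hc 0 (1 / (2 * D))
  -- `1/2 + integer` is small
  have e : (1 / 2 : ℝ) = ((n * A - D * b + B * a : ℤ) : ℝ) -
      (D * (n * η - 1 / (2 * D) - b) - B * (n * ξ - 0 - a)) := by
    push_cast
    have : (D : ℝ) * (1 / (2 * D)) = 1 / 2 := by field_simp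
    linear_combination (n : ℝ) * hrel - this
  have hsmall : |D * (n * η - 1 / (2 * D) - b) - B * (n * ξ - 0 - a)| ≤ 1 / 4 := by
    calc |D * (n * η - 1 / (2 * D) - b) - B * (n * ξ - 0 - a)|
        ≤ |D * (n * η - 1 / (2 * D) - b)| + |B * (n * ξ - 0 - a)| := abs_sub _ _
      _ = D * |n * η - 1 / (2 * D) - b| + |(B : ℝ)| * |n * ξ - 0 - a| := by
          rw [abs_mul, abs_mul, abs_of_pos (by linarith : (0 : ℝ) < D)]
      _ ≤ D * (1 / (4 * (D + |(B : ℝ)|))) + |(B : ℝ)| * (1 / (4 * (D + |(B : ℝ)|))) := by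
          gcongr
      _ = 1 / 4 := by field_simp
  obtain ⟨k, hk⟩ : ∃ k : ℤ, k = n * A - D * b + B * a := ⟨_, rfl⟩
  rw [← hk] at e
  have h3 := abs_le.mp hsmall
  have h4 : (0 : ℝ) < k := by linarith [h3.1]
  have h5 : (k : ℝ) < 1 := by linarith [h3.2]
  have h6 : 0 < k := by exact_mod_cast h4
  have h7 : k < 1 := by exact_mod_cast h5
  omega

end Pool.Agent.NH22.Den
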