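import Pool.Agent.NH22.Sim
import Pool.Agent.NH22.Chain

/-! Uniformly small linear forms in `1, ξ, η` force a linear relation. -/

set_option autoImplicit false

namespace Pool.Agent.NH22.Dual

open Real Filter Pool.Agent.NH22.Sim Pool.Agent.NH22.Chain

/-- the linear form -/
def lf (ξ η : ℝ) (v : ℤ × ℤ × ℤ) : ℝ := v.1 + v.2.1 * ξ + v.2.2 * η

/-- the height -/
def nrm (v : ℤ × ℤ × ℤ) : ℕ := max (max v.1.natAbs v.2.1.natAbs) v.2.2.natAbs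

theorem le1 (v : ℤ × ℤ × ℤ) : |(v.1 : ℝ)| ≤ nrm v := by
  have h1 : v.1.natAbs ≤ nrm v := le_max_of_le_left (le_max_left _ _)
  have h2 : |(v.1 : ℝ)| = (v.1.natAbs : ℝ) := by rw [Nat.cast_natAbs]; push_cast; rfl
  rw [h2]; exact_mod_cast h1

theorem le2 (v : ℤ × ℤ × ℤ) : |(v.2.1 : ℝ)| ≤ nrm v := by
  have h1 : v.2.1.natAbs ≤ nrm v := le_max_of_le_left (le_max_right _ _)
  have h2 : |(v.2.1 : ℝ)| = (v.2.1.natAbs : ℝ) := by rw [Nat.cast_natAbs]; push_cast; rfl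
  rw [h2]; exact_mod_cast h1

theorem le3 (v : ℤ × ℤ × ℤ) : |(v.2.2 : ℝ)| ≤ nrm v := by
  have h1 : v.2.2.natAbs ≤ nrm v := le_max_right _ _
  have h2 : |(v.2.2 : ℝ)| = (v.2.2.natAbs : ℝ) := by rw [Nat.cast_natAbs]; push_cast; rfl
  rw [h2]; exact_mod_cast h1

theorem nrm_pos {v : ℤ × ℤ × ℤ} (h : v ≠ 0) : 1 ≤ nrm v := by
  by_contra hcon
  apply h
  have h0 : nrm v = 0 := by omega
  unfold nrm at h0
  have h1 : v.1.natAbs = 0 := by omega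
  have h2 : v.2.1.natAbs = 0 := by omega
  have h3 : v.2.2.natAbs = 0 := by omega
  ext
  · simpa using h1
  · simpa using h2
  · simpa using h3

/-- some coordinate attains the height -/
theorem nrm_attained (v : ℤ × ℤ × ℤ) :
    nrm v = v.1.natAbs ∨ nrm v = v.2.1.natAbs ∨ nrm v = v.2.2.natAbs := by
  unfold nrm
  omega

/-- minimal choice at the scale `Y` -/
def Good (ξ η om : ℝ) (Y : ℕ) (v : ℤ × ℤ × ℤ) : Prop :=
  v ≠ 0 ∧ |lf ξ η v| ≤ (Y : ℝ) ^ (-om) ∧ nrm v ≤ Y ∧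
    ∀ w : ℤ × ℤ × ℤ, w ≠ 0 → |lf ξ η w| ≤ (Y : ℝ) ^ (-om) → nrm v ≤ nrm w

theorem exists_good {ξ η om : ℝ} {Y : ℕ}
    (h : ∃ v : ℤ × ℤ × ℤ, v ≠ 0 ∧ |lf ξ η v| ≤ (Y : ℝ) ^ (-om) ∧ nrm v ≤ Y) :
    ∃ v, Good ξ η om Y v := by
  classical
  have hex : ∃ n : ℕ, ∃ v : ℤ × ℤ × ℤ, v ≠ 0 ∧ |lf ξ η v| ≤ (Y : ℝ) ^ (-om) ∧ nrm v = n := by
    obtain ⟨v, h1, h2, _⟩ := h
    exact ⟨_, v, h1, h2, rfl⟩
  obtain ⟨v, h1, h2, h3⟩ := Nat.find_spec hex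
  refine ⟨v, h1, h2, ?_, ?_⟩
  · obtain ⟨w, w1, w2, w3⟩ := h
    rw [h3]
    exact (Nat.find_min' hex ⟨w, w1, w2, rfl⟩).trans w3
  · intro w w1 w2
    rw [h3]
    exact Nat.find_min' hex ⟨w, w1, w2, rfl⟩

/-- the `1 × 2` minors -/
def Qm (v w : ℤ × ℤ × ℤ) : ℤ := v.2.1 * w.2.2 - v.2.2 * w.2.1
def Pm (v w : ℤ × ℤ × ℤ) : ℤ := v.2.2 * w.1 - v.1 * w.2.2
def Rm (v w : ℤ × ℤ × ℤ) : ℤ := v.1 * w.2.1 - v.2.1 * w.1

theorem QP (ξ η : ℝ) (v w : ℤ × ℤ × ℤ) :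
    (Qm v w : ℝ) * ξ - Pm v w = w.2.2 * lf ξ η v - v.2.2 * lf ξ η w := by
  unfold Qm Pm lf
  push_cast
  ring

section

variable {ξ η om : ℝ} {Y₀ : ℕ} {f : ℕ → ℤ × ℤ × ℤ}

/-- the next scales -/
def U (ξ η om : ℝ) (f : ℕ → ℤ × ℤ × ℤ) (Y : ℕ) : Set ℕ :=
  {Z | 1 ≤ Z ∧ (Z : ℝ) ^ (-om) < |lf ξ η (f Y)|}

noncomputable def g (ξ η om : ℝ) (f : ℕ → ℤ × ℤ × ℤ) (Y : ℕ) : ℕ := sInf (U ξ η om f Y)

variable (hI : ∀ v : ℤ × ℤ × ℤ, v ≠ 0 → lf ξ η v ≠ 0) (hom : 0 < om) (hY0 : 1 ≤ Y₀)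
  (hf : ∀ Y, Y₀ ≤ Y → Good ξ η om Y (f Y))

include hI hom hf

theorem U_nonempty {Y : ℕ} (hY : Y₀ ≤ Y) : (U ξ η om f Y).Nonempty := by
  have h1 : 0 < |lf ξ η (f Y)| := abs_pos.mpr (hI _ (hf Y hY).1)
  have h2 : Tendsto (fun Z : ℕ => (Z : ℝ) ^ (-om)) atTop (nhds 0) :=
    (tendsto_rpow_neg_atTop hom).comp tendsto_natCast_atTop_atTop
  obtain ⟨Z, hZ1, hZ2⟩ := ((h2.eventually_lt_const h1).and (eventually_ge_atTop 1)).exists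
  exact ⟨Z, hZ2, hZ1⟩

theorem g_mem {Y : ℕ} (hY : Y₀ ≤ Y) : g ξ η om f Y ∈ U ξ η om f Y :=
  Nat.sInf_mem (U_nonempty hI hom hf hY)

theorem lt_g {Y : ℕ} (hY : Y₀ ≤ Y) : Y < g ξ η om f Y := by
  by_contra hlt
  have h1 := g_mem hI hom hf hY
  have h2 := (hf Y hY).2.1
  have h3 : (Y : ℝ) ^ (-om) ≤ (g ξ η om f Y : ℝ) ^ (-om) := by
    apply Real.rpow_le_rpow_of_nonpos
    · exact_mod_cast h1.1
    · exact_mod_cast not_lt.mp hlt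
    · linarith
  have := h1.2
  linarith

include hY0

theorem L_le {Y : ℕ} (hY : Y₀ ≤ Y) :
    |lf ξ η (f Y)| ≤ 2 ^ om * (g ξ η om f Y : ℝ) ^ (-om) := by
  have h1 := lt_g hI hom hf hY
  have hY1 : 1 ≤ Y := hY0.trans hY
  have h2 : g ξ η om f Y - 1 ∉ U ξ η om f Y := by
    intro hmem
    have : g ξ η om f Y ≤ g ξ η om f Y - 1 := Nat.sInf_le hmem
    omega
  have h3 : |lf ξ η (f Y)| ≤ ((g ξ η om f Y - 1 : ℕ) : ℝ) ^ (-om) := by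
    by_contra hlt
    exact h2 ⟨by omega, not_le.mp hlt⟩
  refine h3.trans ?_
  have h4 : (g ξ η om f Y : ℝ) / 2 ≤ ((g ξ η om f Y - 1 : ℕ) : ℝ) := by
    rw [Nat.cast_sub (by omega)]
    have : (2 : ℝ) ≤ g ξ η om f Y := by exact_mod_cast (by omega : 2 ≤ g ξ η om f Y)
    push_cast
    linarith
  have hg : (0 : ℝ) < g ξ η om f Y := by exact_mod_cast (by omega : 0 < g ξ η om f Y)
  calc ((g ξ η om f Y - 1 : ℕ) : ℝ) ^ (-om) ≤ ((g ξ η om f Y : ℝ) / 2) ^ (-om) :=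
        Real.rpow_le_rpow_of_nonpos (by positivity) h4 (by linarith)
    _ = 2 ^ om * (g ξ η om f Y : ℝ) ^ (-om) := by
        rw [Real.div_rpow hg.le (by norm_num), Real.rpow_neg (by norm_num : (0:ℝ) ≤ 2)]
        field_simp

omit hY0 in
theorem L_lt {Y : ℕ} (hY : Y₀ ≤ Y) : |lf ξ η (f (g ξ η om f Y))| < |lf ξ η (f Y)| := by
  have h1 := lt_g hI hom hf hY
  exact (hf _ (by omega : Y₀ ≤ g ξ η om f Y)).2.1.trans_lt (g_mem hI hom hf hY).2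

theorem nrm_le {Y : ℕ} (hY : Y₀ ≤ Y) : nrm (f Y) ≤ nrm (f (g ξ η om f Y)) := by
  have h1 := lt_g hI hom hf hY
  have h2 := hf _ (by omega : Y₀ ≤ g ξ η om f Y)
  refine (hf Y hY).2.2.2 _ h2.1 (h2.2.1.trans ?_)
  apply Real.rpow_le_rpow_of_nonpos
  · exact_mod_cast (hY0.trans hY)
  · exact_mod_cast h1.le
  · linarith

/-- consecutive vectors are independent -/
theorem indep {Y : ℕ} (hY : Y₀ ≤ Y) :
    ¬ (Qm (f Y) (f (g ξ η om f Y)) = 0 ∧ Pm (f Y) (f (g ξ η om f Y)) = 0 ∧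
      Rm (f Y) (f (g ξ η om f Y)) = 0) := by
  rintro ⟨hQ, hP, hR⟩
  set v := f Y with hv
  set w := f (g ξ η om f Y) with hw
  have h1 := lt_g hI hom hf hY
  have hw0 := (hf _ (by omega : Y₀ ≤ g ξ η om f Y)).1
  have hv0 := (hf Y hY).1
  have hN := nrm_le hI hom hY0 hf hY
  have hL := L_lt hI hom hf hY
  rw [← hv, ← hw] at hN hL
  have hQ' : (v.2.1 : ℝ) * w.2.2 = v.2.2 * w.2.1 := by
    unfold Qm at hQ; exact_mod_cast (by linarith : v.2.1 * w.2.2 = v.2.2 * w.2.1)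
  have hP' : (v.2.2 : ℝ) * w.1 = v.1 * w.2.2 := by
    unfold Pm at hP; exact_mod_cast (by linarith : v.2.2 * w.1 = v.1 * w.2.2)
  have hR' : (v.1 : ℝ) * w.2.1 = v.2.1 * w.1 := by
    unfold Rm at hR; exact_mod_cast (by linarith : v.1 * w.2.1 = v.2.1 * w.1)
  have hNv : (1 : ℝ) ≤ nrm v := by exact_mod_cast nrm_pos hv0
  have hNw : (1 : ℝ) ≤ nrm w := by exact_mod_cast nrm_pos hw0
  have hNr : (nrm v : ℝ) ≤ nrm w := by exact_mod_cast hN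
  -- the coordinate of `w` attaining the height
  have key : ∀ vi wi : ℤ, |(vi : ℝ)| ≤ nrm v → (nrm w : ℝ) = |(wi : ℝ)| →
      (vi : ℝ) * lf ξ η w = wi * lf ξ η v → False := by
    intro vi wi h2 h3 h4
    have h5 := congrArg abs h4
    rw [abs_mul, abs_mul, ← h3] at h5
    have h6 : |lf ξ η w| < |lf ξ η v| := hL
    have h7 : 0 ≤ |lf ξ η w| := abs_nonneg _
    nlinarith [abs_nonneg (vi : ℝ)]
  have hcast : ∀ t : ℤ, ((t.natAbs : ℕ) : ℝ) = |(t : ℝ)| := fun t => by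
    rw [Nat.cast_natAbs]; push_cast; rfl
  rcases nrm_attained w with h | h | h
  · refine key v.1 w.1 (le1 v) (by rw [h, hcast]) ?_
    unfold lf
    linear_combination ξ * hR' - η * hP'
  · refine key v.2.1 w.2.1 (le2 v) (by rw [h, hcast]) ?_
    unfold lf
    linear_combination η * hQ' - hR'
  · refine key v.2.2 w.2.2 (le3 v) (by rw [h, hcast]) ?_
    unfold lf
    linear_combination hP' - ξ * hQ'

end

end Pool.Agent.NH22.Dual
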