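import Pool.Agent.NH22.Dual

/-! Uniformly small linear forms in `1, ξ, η`: the estimates. -/

set_option autoImplicit false

namespace Pool.Agent.NH22.Dual

open Real Filter Pool.Agent.NH22.Sim Pool.Agent.NH22.Chain

variable {ξ η om : ℝ} {Y₀ : ℕ} {f : ℕ → ℤ × ℤ × ℤ}

/-- for large scales the coefficient of `η` does not vanish -/
theorem third_ne (hξ : ExpTwo ξ) (hom : 2 < om) (hf : ∀ Y, Y₀ ≤ Y → Good ξ η om Y (f Y)) :
    ∃ Y₁ : ℕ, Y₀ ≤ Y₁ ∧ 1 ≤ Y₁ ∧ ∀ Y, Y₁ ≤ Y → (f Y).2.2 ≠ 0 := by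
  obtain ⟨c, hc, hm⟩ := hξ.int (show (0 : ℝ) < 1 / 2 by norm_num)
  have ht : Tendsto (fun Z : ℕ => (Z : ℝ) ^ (-(om - 3 / 2))) atTop (nhds 0) :=
    (tendsto_rpow_neg_atTop (by linarith)).comp tendsto_natCast_atTop_atTop
  have ht2 : Tendsto (fun Z : ℕ => (Z : ℝ) ^ (-om)) atTop (nhds 0) :=
    (tendsto_rpow_neg_atTop (by linarith)).comp tendsto_natCast_atTop_atTop
  obtain ⟨N, hN⟩ := eventually_atTop.mp ((ht.eventually_lt_const hc).and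
    (ht2.eventually_lt_const one_pos))
  refine ⟨max (max Y₀ N) 1, le_max_of_le_left (le_max_left _ _), le_max_right _ _,
    fun Y hY h0 => ?_⟩
  have hYa : Y₀ ≤ Y := (le_max_of_le_left (le_max_left _ _)).trans hY
  have hYb : N ≤ Y := (le_max_of_le_left (le_max_right _ _)).trans hY
  have hYc : 1 ≤ Y := (le_max_right _ _).trans hY
  have hYpos : (0 : ℝ) < Y := by exact_mod_cast hYc
  obtain ⟨g1, g2, g3, _⟩ := hf Y hYa
  set v := f Y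
  have hL : lf ξ η v = v.2.1 * ξ - ((-v.1 : ℤ) : ℝ) := by
    unfold lf; rw [h0]; push_cast; ring
  by_cases hb : v.2.1 = 0
  · have hv1 : v.1 ≠ 0 := by
      intro h1
      apply g1
      ext
      · simpa using h1
      · simpa using hb
      · simpa using h0
    rw [hL, hb] at g2
    have h3 : (1 : ℝ) ≤ |((0 : ℤ) : ℝ) * ξ - ((-v.1 : ℤ) : ℝ)| := by
      have : (1 : ℤ) ≤ |v.1| := Int.one_le_abs hv1
      have h4 : (1 : ℝ) ≤ |(v.1 : ℝ)| := by exact_mod_cast this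
      simpa using h4
    have := (hN Y hYb).2
    linarith
  · have h1 := hm v.2.1 hb (-v.1)
    rw [← hL] at h1
    have h2 : |(v.2.1 : ℝ)| ^ (1 + (1 / 2 : ℝ)) ≤ (Y : ℝ) ^ (1 + (1 / 2 : ℝ)) := by
      apply Real.rpow_le_rpow (abs_nonneg _) _ (by norm_num)
      exact (le2 v).trans (by exact_mod_cast g3)
    have h3 : c ≤ (Y : ℝ) ^ (1 + (1 / 2 : ℝ)) * (Y : ℝ) ^ (-om) :=
      h1.trans (mul_le_mul h2 g2 (abs_nonneg _) (by positivity))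
    rw [← Real.rpow_add hYpos] at h3
    have h4 := (hN Y hYb).1
    rw [show -(om - 3 / 2) = 1 + 1 / 2 + -om by ring] at h4
    linarith

variable (hI : ∀ v : ℤ × ℤ × ℤ, v ≠ 0 → lf ξ η v ≠ 0) (hY0 : 1 ≤ Y₀)
  (hf : ∀ Y, Y₀ ≤ Y → Good ξ η om Y (f Y)) (h3 : ∀ Y, Y₀ ≤ Y → (f Y).2.2 ≠ 0)

include hI hY0 hf

theorem QP_ne (hom : 0 < om) (h3 : ∀ Y, Y₀ ≤ Y → (f Y).2.2 ≠ 0) {Y : ℕ} (hY : Y₀ ≤ Y) :
    ¬ (Qm (f Y) (f (g ξ η om f Y)) = 0 ∧ Pm (f Y) (f (g ξ η om f Y)) = 0) := by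
  rintro ⟨hQ, hP⟩
  have h1 := lt_g hI hom hf hY
  refine indep hI hom hY0 hf hY ⟨hQ, hP, ?_⟩
  have hc := h3 Y hY
  set v := f Y
  set w := f (g ξ η om f Y)
  unfold Qm at hQ
  unfold Pm at hP
  unfold Rm
  apply mul_left_cancel₀ hc
  linear_combination (-v.1) * hQ - v.2.1 * hP

/-- the first two minors give a good approximation of `ξ` -/
theorem QP_small (hom : 0 < om) {Y : ℕ} (hY : Y₀ ≤ Y) :
    |(Qm (f Y) (f (g ξ η om f Y)) : ℝ) * ξ - Pm (f Y) (f (g ξ η om f Y))| ≤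
      2 * (2 ^ om * (g ξ η om f Y : ℝ) ^ (1 - om)) := by
  have h1 := lt_g hI hom hf hY
  have hL := L_le hI hom hY0 hf hY
  have hLt := L_lt hI hom hf hY
  obtain ⟨-, -, hN', -⟩ := hf _ (by omega : Y₀ ≤ g ξ η om f Y)
  obtain ⟨-, -, hN, -⟩ := hf _ hY
  set Y' := g ξ η om f Y
  set v := f Y
  set w := f Y'
  have hYp : (0 : ℝ) < Y' := by exact_mod_cast (by omega : 0 < Y')
  have e1 : |(w.2.2 : ℝ)| ≤ Y' := (le3 w).trans (by exact_mod_cast hN')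
  have e2 : |(v.2.2 : ℝ)| ≤ Y' := (le3 v).trans (by exact_mod_cast hN.trans h1.le)
  rw [QP ξ η]
  calc |(w.2.2 : ℝ) * lf ξ η v - v.2.2 * lf ξ η w| ≤ |(w.2.2 : ℝ) * lf ξ η v| +
        |(v.2.2 : ℝ) * lf ξ η w| := abs_sub _ _
    _ = |(w.2.2 : ℝ)| * |lf ξ η v| + |(v.2.2 : ℝ)| * |lf ξ η w| := by rw [abs_mul, abs_mul]
    _ ≤ Y' * |lf ξ η v| + Y' * |lf ξ η v| := by gcongr
    _ = 2 * (Y' * |lf ξ η v|) := by ring
    _ ≤ 2 * (Y' * (2 ^ om * (Y' : ℝ) ^ (-om))) := by gcongr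
    _ = 2 * (2 ^ om * (Y' : ℝ) ^ (1 - om)) := by
        rw [sub_eq_add_neg, Real.rpow_add hYp, Real.rpow_one]; ring

/-- **main estimate** -/
theorem small2 (hξ : ExpTwo ξ) (hom1 : (3 + √5) / 2 < om)
    (h3 : ∀ Y, Y₀ ≤ Y → (f Y).2.2 ≠ 0) : ∃ Y₁ : ℕ, Y₀ ≤ Y₁ ∧ ∀ Y : ℕ, Y₁ ≤ Y →
      6 * |lf ξ η (f Y)| * (g ξ η om f Y : ℝ) * (g ξ η om f (g ξ η om f Y) : ℝ) < 1 := by
  have h5 : 2 < √5 := by
    rw [Real.lt_sqrt (by norm_num)]; norm_num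
  have h55 : √5 * √5 = 5 := Real.mul_self_sqrt (by norm_num)
  have hom2 : 5 / 2 < om := by linarith
  have hom : 0 < om := by linarith
  have hquad : 1 < (om - 1) * (om - 2) := by nlinarith
  -- choose `ε`
  obtain ⟨ε, hε, hε2, hε3⟩ : ∃ ε : ℝ, 0 < ε ∧ 0 < om - 2 - ε ∧ 1 + ε < (om - 1) * (om - 2 - ε) := by
    set D : ℝ := (om - 1) * (om - 2) - 1 with hD
    have hDpos : 0 < D := by linarith
    refine ⟨min (1 / 4) (D / (2 * om)), by positivity, ?_, ?_⟩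
    · have := min_le_left (1 / 4 : ℝ) (D / (2 * om))
      linarith
    · have e1 := min_le_right (1 / 4 : ℝ) (D / (2 * om))
      have e2 : om * (D / (2 * om)) = D / 2 := by field_simp
      have e3 : om * min (1 / 4 : ℝ) (D / (2 * om)) ≤ D / 2 := by
        rw [← e2]; exact mul_le_mul_of_nonneg_left e1 hom.le
      nlinarith
  set τ : ℝ := om - 2 - ε with hτ
  obtain ⟨c, hc, hmeas⟩ := hξ.int hε
  set c1 : ℝ := min c 1 with hc1
  have hc1pos : 0 < c1 := lt_min hc one_pos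
  set A : ℝ := 2 ^ (2 + om + ε) / c1 with hA
  have hApos : 0 < A := by positivity
  set κ : ℝ := (om - 1) - (1 + ε) / τ with hκ
  have hκpos : 0 < κ := by
    rw [hκ, sub_pos, div_lt_iff₀ hε2]
    linarith
  set C : ℝ := 6 * 2 ^ om * A ^ (1 / τ) with hC
  have hCpos : 0 < C := by positivity
  have ht : Tendsto (fun Z : ℕ => C * (Z : ℝ) ^ (-κ)) atTop (nhds (C * 0)) :=
    ((tendsto_rpow_neg_atTop hκpos).comp tendsto_natCast_atTop_atTop).const_mul C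
  rw [mul_zero] at ht
  obtain ⟨Y₁, hY₁⟩ := eventually_atTop.mp (ht.eventually_lt_const one_pos)
  refine ⟨max Y₀ Y₁, le_max_left _ _, fun Y hY => ?_⟩
  have hYa : Y₀ ≤ Y := (le_max_left _ _).trans hY
  have hYb : Y₁ ≤ Y := (le_max_right _ _).trans hY
  have hlt1 := lt_g hI hom hf hYa
  have hL := L_le hI hom hY0 hf hYa
  set Y' : ℕ := g ξ η om f Y with hY'
  have hYa' : Y₀ ≤ Y' := by omega
  have hlt2 := lt_g hI hom hf hYa'
  have hqp := QP_ne hI hY0 hf hom h3 hYa'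
  have hqs := QP_small hI hY0 hf hom hYa'
  obtain ⟨-, -, hNw, -⟩ := hf _ hYa'
  obtain ⟨-, -, hNu, -⟩ := hf (g ξ η om f Y') (by omega)
  set Y'' : ℕ := g ξ η om f Y' with hY''
  set w := f Y'
  set u := f Y''
  have hYp : (0 : ℝ) < Y' := by exact_mod_cast (by omega : 0 < Y')
  have hYpp : (0 : ℝ) < Y'' := by exact_mod_cast (by omega : 0 < Y'')
  have hYp1 : (1 : ℝ) ≤ Y' := by exact_mod_cast (by omega : 1 ≤ Y')
  have hYpp1 : (1 : ℝ) ≤ Y'' := by exact_mod_cast (by omega : 1 ≤ Y'')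
  -- the measure
  have hm : c1 ≤ (2 * Y' * Y'' : ℝ) ^ (1 + ε) * |(Qm w u : ℝ) * ξ - Pm w u| := by
    have hbig : (1 : ℝ) ≤ (2 * Y' * Y'' : ℝ) ^ (1 + ε) := by
      apply Real.one_le_rpow _ (by linarith)
      nlinarith
    by_cases hQ : Qm w u = 0
    · have hP : Pm w u ≠ 0 := fun hP => hqp ⟨hQ, hP⟩
      have h1 : (1 : ℝ) ≤ |(Qm w u : ℝ) * ξ - Pm w u| := by
        rw [hQ]
        have : (1 : ℤ) ≤ |Pm w u| := Int.one_le_abs hP
        have h4 : (1 : ℝ) ≤ |(Pm w u : ℝ)| := by exact_mod_cast this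
        simpa using h4
      calc c1 ≤ 1 := min_le_right _ _
        _ = 1 * 1 := by ring
        _ ≤ _ := mul_le_mul hbig h1 (by norm_num) (by positivity)
    · refine (min_le_left _ _).trans ((hmeas _ hQ (Pm w u)).trans ?_)
      apply mul_le_mul_of_nonneg_right _ (abs_nonneg _)
      apply Real.rpow_le_rpow (abs_nonneg _) _ (by linarith)
      have a1 : |(w.2.1 : ℝ)| ≤ Y' := (le2 w).trans (by exact_mod_cast hNw)
      have a2 : |(w.2.2 : ℝ)| ≤ Y' := (le3 w).trans (by exact_mod_cast hNw)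
      have a3 : |(u.2.1 : ℝ)| ≤ Y'' := (le2 u).trans (by exact_mod_cast hNu)
      have a4 : |(u.2.2 : ℝ)| ≤ Y'' := (le3 u).trans (by exact_mod_cast hNu)
      unfold Qm
      push_cast
      calc |(w.2.1 : ℝ) * u.2.2 - w.2.2 * u.2.1| ≤ |(w.2.1 : ℝ) * u.2.2| + |(w.2.2 : ℝ) * u.2.1| :=
            abs_sub _ _
        _ = |(w.2.1 : ℝ)| * |(u.2.2 : ℝ)| + |(w.2.2 : ℝ)| * |(u.2.1 : ℝ)| := by
            rw [abs_mul, abs_mul]
        _ ≤ Y' * Y'' + Y' * Y'' := by gcongr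
        _ = 2 * Y' * Y'' := by ring
  have hm2 : c1 ≤ (2 * Y' * Y'' : ℝ) ^ (1 + ε) * (2 * (2 ^ om * (Y'' : ℝ) ^ (1 - om))) :=
    hm.trans (mul_le_mul_of_nonneg_left hqs (by positivity))
  have hm3 : (Y'' : ℝ) ^ τ ≤ A * (Y' : ℝ) ^ (1 + ε) := by
    rw [Real.mul_rpow (by positivity) hYpp.le, Real.mul_rpow (by norm_num) hYp.le] at hm2
    rw [hA, div_mul_eq_mul_div, le_div_iff₀ hc1pos]
    have e1 : (Y'' : ℝ) ^ τ * ((2 : ℝ) ^ (1 + ε) * (Y' : ℝ) ^ (1 + ε) * (Y'' : ℝ) ^ (1 + ε) *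
        (2 * (2 ^ om * (Y'' : ℝ) ^ (1 - om)))) = 2 ^ (2 + om + ε) * (Y' : ℝ) ^ (1 + ε) := by
      have e2 : (Y'' : ℝ) ^ τ * (Y'' : ℝ) ^ (1 + ε) * (Y'' : ℝ) ^ (1 - om) = 1 := by
        rw [← Real.rpow_add hYpp, ← Real.rpow_add hYpp, hτ]
        rw [show om - 2 - ε + (1 + ε) + (1 - om) = 0 by ring, Real.rpow_zero]
      have e3 : (2 : ℝ) ^ (2 + om + ε) = 2 ^ (1 + ε) * 2 * 2 ^ om := by
        rw [show 2 + om + ε = (1 + ε) + 1 + om by ring, Real.rpow_add (by norm_num),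
          Real.rpow_add (by norm_num), Real.rpow_one]
      rw [e3]
      linear_combination (2 ^ (1 + ε) * 2 * 2 ^ om * (Y' : ℝ) ^ (1 + ε)) * e2
    rw [← e1]
    exact mul_le_mul_of_nonneg_left hm2 (by positivity)
  have hm4 : (Y'' : ℝ) ≤ A ^ (1 / τ) * (Y' : ℝ) ^ ((1 + ε) / τ) := by
    have e3 : (Y'' : ℝ) = ((Y'' : ℝ) ^ τ) ^ (1 / τ) := by
      rw [← Real.rpow_mul hYpp.le, mul_one_div_cancel hε2.ne', Real.rpow_one]
    rw [e3]
    calc ((Y'' : ℝ) ^ τ) ^ (1 / τ) ≤ (A * (Y' : ℝ) ^ (1 + ε)) ^ (1 / τ) := by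
          apply Real.rpow_le_rpow (by positivity) hm3
          positivity
      _ = _ := by
          rw [Real.mul_rpow hApos.le (by positivity), ← Real.rpow_mul hYp.le]
          congr 2
          ring
  calc 6 * |lf ξ η (f Y)| * (Y' : ℝ) * (Y'' : ℝ)
      ≤ 6 * (2 ^ om * (Y' : ℝ) ^ (-om)) * Y' * (A ^ (1 / τ) * (Y' : ℝ) ^ ((1 + ε) / τ)) := by
        gcongr
    _ = C * (Y' : ℝ) ^ (-κ) := by
        have e4 : (Y' : ℝ) ^ (-κ) = (Y' : ℝ) ^ (-om) * Y' * (Y' : ℝ) ^ ((1 + ε) / τ) := by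
          nth_rewrite 3 [← Real.rpow_one (Y' : ℝ)]
          rw [← Real.rpow_add hYp, ← Real.rpow_add hYp]
          congr 1
          rw [hκ]
          ring
        rw [hC, e4]
        ring
    _ < 1 := hY₁ Y' (by omega)

end Pool.Agent.NH22.Dual
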