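import Pool.Agent.W472.AC.EMeas2

/-! Joint irrationality measures for pairs of the numbers `t + e`, `t - e`, `t e`, `t / e`. -/

set_option autoImplicit false

namespace Pool.Agent.NH22.JM

open Polynomial Filter Pool.Agent.W472.AC

theorem meas2 {η : ℝ} (hη : 0 < η) : ∃ c : ℝ, 0 < c ∧ ∀ A B C : ℤ, ¬ (A = 0 ∧ B = 0 ∧ C = 0) →
    ∀ H : ℝ, 1 ≤ H → |(A : ℝ)| ≤ H → |(B : ℝ)| ≤ H → |(C : ℝ)| ≤ H →
      c ≤ H ^ (2 + η) * |A + B * Real.exp 1 + C * Real.exp 1 ^ 2| := by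
  obtain ⟨c, hc, h⟩ := e_meas 2 ![0, 1, 2] (by decide) (by decide) (by decide) η hη
  refine ⟨c, hc, fun A B C hne H hH hA hB hC => ?_⟩
  have h1 := h ![A, B, C] (by
    intro h0
    apply hne
    refine ⟨?_, ?_, ?_⟩
    · simpa using congrFun h0 0
    · simpa using congrFun h0 1
    · simpa using congrFun h0 2) H hH (by
    intro j
    fin_cases j
    · simpa using hA
    · simpa using hB
    · simpa using hC)
  have e2 : Real.exp 2 = Real.exp 1 ^ 2 := by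
    rw [← Real.exp_nat_mul]; norm_num
  have h2 : ∑ j : Fin (2 + 1), ((![A, B, C] j : ℤ) : ℝ) * Real.exp ((![0, 1, 2] j : ℤ) : ℝ) =
      A + B * Real.exp 1 + C * Real.exp 1 ^ 2 := by
    rw [Fin.sum_univ_three, ← e2]
    simp only [Matrix.cons_val_zero, Matrix.cons_val_one, Matrix.cons_val, Int.cast_zero,
      Int.cast_one, Real.exp_zero, Int.cast_ofNat, mul_one]
  rw [h2] at h1
  exact_mod_cast h1

theorem meas1 {η : ℝ} (hη : 0 < η) : ∃ c : ℝ, 0 < c ∧ ∀ A B : ℤ, ¬ (A = 0 ∧ B = 0) →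
    ∀ H : ℝ, 1 ≤ H → |(A : ℝ)| ≤ H → |(B : ℝ)| ≤ H →
      c ≤ H ^ (1 + η) * |A + B * Real.exp 1| := by
  obtain ⟨c, hc, h⟩ := e_meas 1 ![0, 1] (by decide) (by decide) (by decide) η hη
  refine ⟨c, hc, fun A B hne H hH hA hB => ?_⟩
  have h1 := h ![A, B] (by
    intro h0
    apply hne
    refine ⟨?_, ?_⟩
    · simpa using congrFun h0 0
    · simpa using congrFun h0 1) H hH (by
    intro j
    fin_cases j
    · simpa using hA
    · simpa using hB)
  have h2 : ∑ j : Fin (1 + 1), ((![A, B] j : ℤ) : ℝ) * Real.exp ((![0, 1] j : ℤ) : ℝ) =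
      A + B * Real.exp 1 := by
    rw [Fin.sum_univ_two]
    simp
  rw [h2] at h1
  exact_mod_cast h1

theorem meas02 {η : ℝ} (hη : 0 < η) : ∃ c : ℝ, 0 < c ∧ ∀ A B : ℤ, ¬ (A = 0 ∧ B = 0) →
    ∀ H : ℝ, 1 ≤ H → |(A : ℝ)| ≤ H → |(B : ℝ)| ≤ H →
      c ≤ H ^ (1 + η) * |A + B * Real.exp 1 ^ 2| := by
  obtain ⟨c, hc, h⟩ := e_meas 1 ![0, 2] (by decide) (by decide) (by decide) η hη
  refine ⟨c, hc, fun A B hne H hH hA hB => ?_⟩
  have h1 := h ![A, B] (by
    intro h0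
    apply hne
    refine ⟨?_, ?_⟩
    · simpa using congrFun h0 0
    · simpa using congrFun h0 1) H hH (by
    intro j
    fin_cases j
    · simpa using hA
    · simpa using hB)
  have e2 : Real.exp 2 = Real.exp 1 ^ 2 := by
    rw [← Real.exp_nat_mul]; norm_num
  have h2 : ∑ j : Fin (1 + 1), ((![A, B] j : ℤ) : ℝ) * Real.exp ((![0, 2] j : ℤ) : ℝ) =
      A + B * Real.exp 1 ^ 2 := by
    rw [Fin.sum_univ_two, ← e2]
    simp only [Matrix.cons_val_zero, Matrix.cons_val_one, Matrix.cons_val, Int.cast_zero,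
      Int.cast_one, Real.exp_zero, Int.cast_ofNat, mul_one]
  rw [h2] at h1
  exact_mod_cast h1

/-- a rational number with denominator dividing `D` -/
theorem scaled {a : ℚ} {D : ℕ} (h : a.den ∣ D) : ∃ A : ℤ, (A : ℝ) = D * a := by
  obtain ⟨k, hk⟩ := h
  refine ⟨a.num * k, ?_⟩
  have ha : (a : ℝ) * a.den = a.num := by exact_mod_cast Rat.mul_den_eq_num a
  rw [hk]
  push_cast
  rw [← ha]
  ring

/-- the last step of all cases -/
theorem finish {D K C δ c₀ κ κ' c : ℝ} (hD : 1 ≤ D) (hK : 1 ≤ K) (hC : 0 < C)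
    (hκ' : κ' = κ + 1) (hc : c ≤ c₀ / (C * K ^ κ)) (h : c₀ ≤ (D * K) ^ κ * (C * D * δ)) :
    c * D ^ (-κ') ≤ δ := by
  have hD0 : 0 < D := by linarith
  have hK0 : 0 < K := by linarith
  have hKp : 0 < K ^ κ := Real.rpow_pos_of_pos hK0 _
  have hDp : 0 < D ^ κ' := Real.rpow_pos_of_pos hD0 _
  have hDm : 0 < D ^ (-κ') := Real.rpow_pos_of_pos hD0 _
  refine (mul_le_mul_of_nonneg_right hc hDm.le).trans ?_
  rw [Real.rpow_neg hD0.le, ← div_eq_mul_inv, div_div, div_le_iff₀ (by positivity)]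
  rw [Real.mul_rpow hD0.le hK0.le] at h
  have e : D ^ κ' = D ^ κ * D := by rw [hκ', Real.rpow_add hD0, Real.rpow_one]
  rw [e]
  linarith

end Pool.Agent.NH22.JM
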