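import Pool.Agent.NH22.JM

/-! Joint irrationality measures: the six pairs. -/

set_option autoImplicit false

namespace Pool.Agent.NH22.JM

open Real

/-- joint irrationality measure, in terms of the least common denominator -/
def PairMeas (x y κ : ℝ) : Prop :=
  ∀ ε : ℝ, 0 < ε → ∃ c : ℝ, 0 < c ∧ ∀ a b : ℚ,
    c * ((a.den.lcm b.den : ℕ) : ℝ) ^ (-(κ + ε)) ≤ max |x - a| |y - b|

theorem PairMeas.symm {x y κ : ℝ} (h : PairMeas x y κ) : PairMeas y x κ := by
  intro ε hε
  obtain ⟨c, hc, h1⟩ := h ε hε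
  refine ⟨c, hc, fun a b => ?_⟩
  rw [Nat.lcm_comm, max_comm]
  exact h1 b a

theorem core {x y κ : ℝ} (hκ : 0 ≤ κ) (h : ∀ η : ℝ, 0 < η → ∃ c₀ C K δ₀ : ℝ, 0 < c₀ ∧ 0 < C ∧
    1 ≤ K ∧ 0 < δ₀ ∧ ∀ (a b : ℚ) (D : ℕ), 1 ≤ D → a.den ∣ D → b.den ∣ D → ∀ δ : ℝ,
      |x - a| ≤ δ → |y - b| ≤ δ → δ < 1 → δ < δ₀ →
      c₀ ≤ ((D : ℝ) * K) ^ (κ + η) * (C * D * δ)) : PairMeas x y (κ + 1) := by
  intro ε hε
  obtain ⟨c₀, C, K, δ₀, hc₀, hC, hK, hδ₀, h1⟩ := h ε hε
  have hK0 : 0 < K := by linarith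
  obtain ⟨c, hcd⟩ : ∃ c : ℝ, c = min (min 1 δ₀) (c₀ / (C * K ^ (κ + ε))) := ⟨_, rfl⟩
  have hc : 0 < c := by
    rw [hcd]
    have : 0 < K ^ (κ + ε) := Real.rpow_pos_of_pos hK0 _
    exact lt_min (lt_min one_pos hδ₀) (by positivity)
  have hc1 : c ≤ 1 := by rw [hcd]; exact (min_le_left _ _).trans (min_le_left _ _)
  have hc2 : c ≤ δ₀ := by rw [hcd]; exact (min_le_left _ _).trans (min_le_right _ _)
  have hc3 : c ≤ c₀ / (C * K ^ (κ + ε)) := by rw [hcd]; exact min_le_right _ _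
  refine ⟨c, hc, fun a b => ?_⟩
  have hD : 1 ≤ a.den.lcm b.den := Nat.lcm_pos a.den_pos b.den_pos
  have hDr : (1 : ℝ) ≤ ((a.den.lcm b.den : ℕ) : ℝ) := by exact_mod_cast hD
  have hsmall : ((a.den.lcm b.den : ℕ) : ℝ) ^ (-(κ + 1 + ε)) ≤ 1 :=
    Real.rpow_le_one_of_one_le_of_nonpos hDr (by linarith)
  have hpos : 0 < ((a.den.lcm b.den : ℕ) : ℝ) ^ (-(κ + 1 + ε)) :=
    Real.rpow_pos_of_pos (by linarith) _
  by_cases hδ1 : max |x - a| |y - b| < 1
  · by_cases hδ2 : max |x - a| |y - b| < δ₀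
    · exact finish hDr hK hC (by ring) hc3
        (h1 a b _ hD (Nat.dvd_lcm_left _ _) (Nat.dvd_lcm_right _ _) _ (le_max_left _ _)
          (le_max_right _ _) hδ1 hδ2)
    · calc c * ((a.den.lcm b.den : ℕ) : ℝ) ^ (-(κ + 1 + ε)) ≤ δ₀ * 1 := by gcongr
        _ ≤ _ := by rw [mul_one]; exact not_lt.mp hδ2
  · calc c * ((a.den.lcm b.den : ℕ) : ℝ) ^ (-(κ + 1 + ε)) ≤ 1 * 1 := by gcongr
      _ ≤ _ := by rw [mul_one]; exact not_lt.mp hδ1

theorem abs_lt_of {x a δ : ℝ} (h : |x - a| ≤ δ) (hδ : δ < 1) : |a| ≤ |x| + 1 := by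
  have e : a = x - (x - a) := by ring
  calc |a| = |x - (x - a)| := by rw [← e]
    _ ≤ |x| + |x - a| := abs_sub _ _
    _ ≤ |x| + 1 := by linarith

theorem e_lt : exp 1 < 3 := Real.exp_one_lt_three

/-- quadratic relation -/
theorem quad {x y s : ℝ} (hs : s = 1 ∨ s = -1) (h : exp 1 ^ 2 = s * (x * exp 1 - y)) :
    PairMeas x y 3 := by
  have h3 : (3 : ℝ) = 2 + 1 := by norm_num
  rw [h3]
  refine core (by norm_num) fun η hη => ?_
  obtain ⟨c, hc, hm⟩ := meas2 hη
  refine ⟨c, 4, |x| + |y| + 1, 1, hc, by norm_num, ?_, one_pos, ?_⟩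
  · have := abs_nonneg x
    have := abs_nonneg y
    linarith
  · intro a b D hD ha hb δ hxa hyb hδ1 _
    obtain ⟨A, hA⟩ := scaled ha
    obtain ⟨B, hB⟩ := scaled hb
    have hDr : (1 : ℝ) ≤ D := by exact_mod_cast hD
    have hδ0 : 0 ≤ δ := (abs_nonneg _).trans hxa
    obtain ⟨σ, hσ⟩ : ∃ σ : ℤ, (σ : ℝ) = s := by
      rcases hs with h | h
      · exact ⟨1, by rw [h]; norm_num⟩
      · exact ⟨-1, by rw [h]; norm_num⟩
    have hs1 : |s| = 1 := by
      rcases hs with h | h <;> rw [h] <;> norm_num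
    have ha' := abs_lt_of hxa hδ1
    have hb' := abs_lt_of hyb hδ1
    have hx0 := abs_nonneg x
    have hy0 := abs_nonneg y
    have h1 := hm (σ * B) (-σ * A) D (by
      rintro ⟨-, -, h0⟩
      have : D = 0 := by exact_mod_cast h0
      omega) (D * (|x| + |y| + 1)) (by nlinarith) (by
        push_cast
        rw [hσ, hB, abs_mul, abs_mul, hs1, one_mul, Nat.abs_cast]
        nlinarith) (by
        push_cast
        rw [hσ, hA, abs_mul, abs_neg, abs_mul, hs1, one_mul, Nat.abs_cast]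
        nlinarith) (by
        push_cast
        rw [Nat.abs_cast]
        nlinarith)
    refine h1.trans (mul_le_mul_of_nonneg_left ?_ (by positivity))
    push_cast
    rw [hσ, hA, hB]
    have e : s * (D * b) + -s * (D * a) * exp 1 + D * exp 1 ^ 2 =
        D * (s * ((x - a) * exp 1 - (y - b))) := by
      rw [h]; ring
    rw [e, abs_mul, abs_mul, hs1, one_mul, Nat.abs_cast]
    have he := e_lt
    have he0 := Real.exp_pos 1
    calc (D : ℝ) * |(x - a) * exp 1 - (y - b)| ≤ D * (|(x - a) * exp 1| + |y - b|) := by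
          gcongr
          exact abs_sub _ _
      _ = D * (|x - a| * exp 1 + |y - b|) := by rw [abs_mul, abs_of_pos he0]
      _ ≤ D * (δ * 3 + δ) := by gcongr
      _ = 4 * D * δ := by ring

/-- linear relation `x = e y + r e`, `r = ±1`, not the trivial solution -/
theorem lin {x y r : ℝ} (hr : r = 1 ∨ r = -1) (h : x = exp 1 * y + r * exp 1) (hx : x ≠ 0) :
    PairMeas x y 2 := by
  have h3 : (2 : ℝ) = 1 + 1 := by norm_num
  rw [h3]
  refine core (by norm_num) fun η hη => ?_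
  obtain ⟨c, hc, hm⟩ := meas1 hη
  refine ⟨c, 4, |x| + |y| + 2, |x|, hc, by norm_num, ?_, abs_pos.mpr hx, ?_⟩
  · have := abs_nonneg x
    have := abs_nonneg y
    linarith
  · intro a b D hD ha hb δ hxa hyb hδ1 hδ2
    obtain ⟨A, hA⟩ := scaled ha
    obtain ⟨B, hB⟩ := scaled hb
    have hDr : (1 : ℝ) ≤ D := by exact_mod_cast hD
    have hδ0 : 0 ≤ δ := (abs_nonneg _).trans hxa
    obtain ⟨σ, hσ⟩ : ∃ σ : ℤ, (σ : ℝ) = r := by
      rcases hr with h | h
      · exact ⟨1, by rw [h]; norm_num⟩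
      · exact ⟨-1, by rw [h]; norm_num⟩
    have hs1 : |r| = 1 := by
      rcases hr with h | h <;> rw [h] <;> norm_num
    have ha' := abs_lt_of hxa hδ1
    have hb' := abs_lt_of hyb hδ1
    have hx0 := abs_nonneg x
    have hy0 := abs_nonneg y
    have h1 := hm A (-(B + σ * D)) (by
      rintro ⟨h0, -⟩
      rw [h0] at hA
      have : (a : ℝ) = 0 := by
        have : (D : ℝ) * a = 0 := by rw [← hA]; simp
        rcases mul_eq_zero.mp this with h4 | h4
        · linarith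
        · exact h4
      rw [this, sub_zero] at hxa
      linarith) (D * (|x| + |y| + 2)) (by nlinarith) (by
        rw [hA, abs_mul, Nat.abs_cast]
        nlinarith) (by
        push_cast
        rw [hσ, hB, abs_neg]
        calc |(D : ℝ) * b + r * D| ≤ |(D : ℝ) * b| + |r * D| := abs_add_le _ _
          _ = D * |(b : ℝ)| + D := by rw [abs_mul, abs_mul, hs1, Nat.abs_cast, one_mul]
          _ ≤ _ := by nlinarith)
    refine h1.trans (mul_le_mul_of_nonneg_left ?_ (by positivity))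
    push_cast
    rw [hσ, hA, hB]
    have e : (D : ℝ) * a + -(D * b + r * D) * exp 1 = D * (-(x - a) + exp 1 * (y - b)) := by
      linear_combination (D : ℝ) * h
    rw [e, abs_mul, Nat.abs_cast]
    have he := e_lt
    have he0 := Real.exp_pos 1
    calc (D : ℝ) * |-(x - a) + exp 1 * (y - b)| ≤ D * (|-(x - a)| + |exp 1 * (y - b)|) := by
          gcongr
          exact abs_add_le _ _
      _ = D * (|x - a| + exp 1 * |y - b|) := by rw [abs_neg, abs_mul, abs_of_pos he0]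
      _ ≤ D * (δ + 3 * δ) := by gcongr
      _ = 4 * D * δ := by ring

/-- relation `x - y = 2 e` -/
theorem lin2 {x y : ℝ} (h : x - y = 2 * exp 1) : PairMeas x y 2 := by
  have h3 : (2 : ℝ) = 1 + 1 := by norm_num
  rw [h3]
  refine core (by norm_num) fun η hη => ?_
  obtain ⟨c, hc, hm⟩ := meas1 hη
  refine ⟨c, 2, |x| + |y| + 2, 1, hc, by norm_num, ?_, one_pos, ?_⟩
  · have := abs_nonneg x
    have := abs_nonneg y
    linarith
  · intro a b D hD ha hb δ hxa hyb hδ1 hδ2
    obtain ⟨A, hA⟩ := scaled ha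
    obtain ⟨B, hB⟩ := scaled hb
    have hDr : (1 : ℝ) ≤ D := by exact_mod_cast hD
    have hδ0 : 0 ≤ δ := (abs_nonneg _).trans hxa
    have ha' := abs_lt_of hxa hδ1
    have hb' := abs_lt_of hyb hδ1
    have hx0 := abs_nonneg x
    have hy0 := abs_nonneg y
    have h1 := hm (A - B) (-(2 * D)) (by
      rintro ⟨-, h0⟩
      omega) (D * (|x| + |y| + 2)) (by nlinarith) (by
        push_cast
        rw [hA, hB]
        calc |(D : ℝ) * a - D * b| ≤ |(D : ℝ) * a| + |(D : ℝ) * b| := abs_sub _ _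
          _ = D * |(a : ℝ)| + D * |(b : ℝ)| := by rw [abs_mul, abs_mul, Nat.abs_cast]
          _ ≤ _ := by nlinarith) (by
        push_cast
        rw [abs_neg, abs_of_pos (by linarith : (0 : ℝ) < 2 * D)]
        nlinarith)
    refine h1.trans (mul_le_mul_of_nonneg_left ?_ (by positivity))
    push_cast
    rw [hA, hB]
    have e : (D : ℝ) * a - D * b + -(2 * D) * exp 1 = D * (-(x - a) + (y - b)) := by
      linear_combination (D : ℝ) * h
    rw [e, abs_mul, Nat.abs_cast]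
    calc (D : ℝ) * |-(x - a) + (y - b)| ≤ D * (|-(x - a)| + |y - b|) := by
          gcongr
          exact abs_add_le _ _
      _ = D * (|x - a| + |y - b|) := by rw [abs_neg]
      _ ≤ D * (δ + δ) := by gcongr
      _ = 2 * D * δ := by ring

/-- relation `x = e² y` -/
theorem lin3 {x y : ℝ} (h : x = exp 1 ^ 2 * y) (hx : x ≠ 0) : PairMeas x y 2 := by
  have h3 : (2 : ℝ) = 1 + 1 := by norm_num
  rw [h3]
  refine core (by norm_num) fun η hη => ?_
  obtain ⟨c, hc, hm⟩ := meas02 hη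
  refine ⟨c, 10, |x| + |y| + 2, |x|, hc, by norm_num, ?_, abs_pos.mpr hx, ?_⟩
  · have := abs_nonneg x
    have := abs_nonneg y
    linarith
  · intro a b D hD ha hb δ hxa hyb hδ1 hδ2
    obtain ⟨A, hA⟩ := scaled ha
    obtain ⟨B, hB⟩ := scaled hb
    have hDr : (1 : ℝ) ≤ D := by exact_mod_cast hD
    have hδ0 : 0 ≤ δ := (abs_nonneg _).trans hxa
    have ha' := abs_lt_of hxa hδ1
    have hb' := abs_lt_of hyb hδ1
    have hx0 := abs_nonneg x
    have hy0 := abs_nonneg y
    have h1 := hm A (-B) (by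
      rintro ⟨h0, -⟩
      rw [h0] at hA
      have : (a : ℝ) = 0 := by
        have : (D : ℝ) * a = 0 := by rw [← hA]; simp
        rcases mul_eq_zero.mp this with h4 | h4
        · linarith
        · exact h4
      rw [this, sub_zero] at hxa
      linarith) (D * (|x| + |y| + 2)) (by nlinarith) (by
        rw [hA, abs_mul, Nat.abs_cast]
        nlinarith) (by
        push_cast
        rw [hB, abs_neg, abs_mul, Nat.abs_cast]
        nlinarith)
    refine h1.trans (mul_le_mul_of_nonneg_left ?_ (by positivity))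
    push_cast
    rw [hA, hB]
    have e : (D : ℝ) * a + -(D * b) * exp 1 ^ 2 = D * (-(x - a) + exp 1 ^ 2 * (y - b)) := by
      linear_combination (D : ℝ) * h
    rw [e, abs_mul, Nat.abs_cast]
    have he := e_lt
    have he0 := Real.exp_pos 1
    have he2 : exp 1 ^ 2 ≤ 9 := by nlinarith
    calc (D : ℝ) * |-(x - a) + exp 1 ^ 2 * (y - b)| ≤
          D * (|-(x - a)| + |exp 1 ^ 2 * (y - b)|) := by
          gcongr
          exact abs_add_le _ _
      _ = D * (|x - a| + exp 1 ^ 2 * |y - b|) := by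
          rw [abs_neg, abs_mul, abs_of_pos (by positivity : 0 < exp 1 ^ 2)]
      _ ≤ D * (δ + 9 * δ) := by gcongr
      _ = 10 * D * δ := by ring

end Pool.Agent.NH22.JM
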