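import Pool.Agent.H43R2.Cplx.EMeas

/-! Linear independence of `1, e, x` over the rationals. -/

set_option autoImplicit false

namespace Pool.Agent.NH22.Lin

open Pool.Agent.H43R2.Cplx Real

/-- `Q e - m` does not vanish -/
theorem e_ne (Q m : ℤ) (hQ : Q ≠ 0) : (Q : ℝ) * exp 1 - m ≠ 0 := by
  obtain ⟨c, hc, h⟩ := EMeas.measure 1 one_pos
  intro h0
  rcases lt_or_gt_of_ne hQ with hneg | hpos
  · have h1 := h (-Q).toNat (by omega) (-m)
    have h2 : (((-Q).toNat : ℕ) : ℝ) = -(Q : ℝ) := by
      have : (((-Q).toNat : ℕ) : ℤ) = -Q := Int.toNat_of_nonneg (by omega)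
      exact_mod_cast this
    rw [h2] at h1
    have h3 : -(Q : ℝ) * exp 1 - ((-m : ℤ) : ℝ) = 0 := by push_cast; linarith
    rw [h3, abs_zero, mul_zero] at h1
    linarith
  · have h1 := h Q.toNat (by omega) m
    have h2 : ((Q.toNat : ℕ) : ℝ) = (Q : ℝ) := by
      have : ((Q.toNat : ℕ) : ℤ) = Q := Int.toNat_of_nonneg (by omega)
      exact_mod_cast this
    rw [h2, h0, abs_zero, mul_zero] at h1
    linarith

/-- a rational relation between `1` and `e` is trivial -/
theorem rel_e {a b : ℚ} (h : (a : ℝ) + b * exp 1 = 0) : a = 0 ∧ b = 0 := by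
  have hb : b = 0 := by
    by_contra hb
    have hd : ((a.den : ℤ) : ℝ) ≠ 0 := by exact_mod_cast a.den_nz
    have hd2 : ((b.den : ℤ) : ℝ) ≠ 0 := by exact_mod_cast b.den_nz
    have hnum : b.num * a.den ≠ 0 :=
      mul_ne_zero (Rat.num_ne_zero.mpr hb) (by exact_mod_cast a.den_nz)
    apply e_ne (b.num * a.den) (-(a.num * b.den)) hnum
    have ha' : (a : ℝ) = a.num / a.den := by exact_mod_cast (Rat.num_div_den a).symm
    have hb' : (b : ℝ) = b.num / b.den := by exact_mod_cast (Rat.num_div_den b).symm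
    rw [ha', hb'] at h
    have hd' : ((a.den : ℕ) : ℝ) ≠ 0 := by exact_mod_cast a.den_nz
    have hd2' : ((b.den : ℕ) : ℝ) ≠ 0 := by exact_mod_cast b.den_nz
    field_simp at h
    push_cast
    linarith
  refine ⟨?_, hb⟩
  rw [hb] at h
  simpa using h

/-- `1, e, x` are linearly dependent if and only if `x` is a combination of `1` and `e` -/
theorem li_iff (x : ℝ) : LinearIndependent ℚ ![(1 : ℝ), exp 1, x] ↔
    ¬ ∃ a b : ℚ, x = a + b * exp 1 := by
  rw [Fintype.linearIndependent_iff]
  constructor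
  · rintro h ⟨a, b, hx⟩
    have h1 := h ![a, b, -1] (by
      simp [Fin.sum_univ_succ, Rat.smul_def]
      rw [hx]; ring) 2
    simp at h1
  · intro h g hg
    simp only [Fin.sum_univ_succ, Fin.sum_univ_zero, Matrix.cons_val_zero, Matrix.cons_val_succ,
      Rat.smul_def, add_zero, Fin.succ_zero_eq_one, Fin.succ_one_eq_two, mul_one] at hg
    by_cases h2 : g 2 = 0
    · rw [h2] at hg
      have h3 := rel_e (a := g 0) (b := g 1) (by push_cast at hg ⊢; linarith)
      intro i
      fin_cases i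
      · exact h3.1
      · exact h3.2
      · exact h2
    · exfalso
      apply h
      refine ⟨-(g 0) / g 2, -(g 1) / g 2, ?_⟩
      have h4 : ((g 2 : ℚ) : ℝ) ≠ 0 := by exact_mod_cast h2
      push_cast
      field_simp
      linarith

end Pool.Agent.NH22.Lin
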