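import Pool.Agent.W472.AC.EMeas2

/-! Values of the forms `P(e) + x Q(e)`: basic estimates. -/

set_option autoImplicit false

namespace Pool.Agent.NH22.RG

open Polynomial Filter Pool.Agent.W472.AC

/-- the value `P(e) + x Q(e)` -/
noncomputable def val (x : ℝ) (P Q : ℤ[X]) : ℝ :=
  aeval (Real.exp 1) P + x * aeval (Real.exp 1) Q

/-- not both polynomials vanish, degrees at most `p` and `q` -/
def Pair (p q : ℕ) (P Q : ℤ[X]) : Prop :=
  ¬ (P = 0 ∧ Q = 0) ∧ P.natDegree ≤ p ∧ Q.natDegree ≤ q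

/-- all coefficients are at most `H` in absolute value -/
def Bdd (H : ℝ) (P : ℤ[X]) : Prop := ∀ i, |(P.coeff i : ℝ)| ≤ H

theorem Bdd.mono {H K : ℝ} {P : ℤ[X]} (h : Bdd H P) (hK : H ≤ K) : Bdd K P :=
  fun i => (h i).trans hK

theorem Bdd.nonneg {H : ℝ} {P : ℤ[X]} (h : Bdd H P) : 0 ≤ H := (abs_nonneg _).trans (h 0)

theorem exists_bdd (P : ℤ[X]) : ∃ H : ℝ, 1 ≤ H ∧ Bdd H P := by
  refine ⟨1 + ∑ i ∈ P.support, |(P.coeff i : ℝ)|, ?_, fun i => ?_⟩
  · have : 0 ≤ ∑ i ∈ P.support, |(P.coeff i : ℝ)| := Finset.sum_nonneg fun i _ => abs_nonneg _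
    linarith
  · by_cases hi : i ∈ P.support
    · have := Finset.single_le_sum (f := fun i => |(P.coeff i : ℝ)|) (fun i _ => abs_nonneg _) hi
      linarith
    · rw [notMem_support_iff.mp hi]
      have : 0 ≤ ∑ i ∈ P.support, |(P.coeff i : ℝ)| := Finset.sum_nonneg fun i _ => abs_nonneg _
      simp only [Int.cast_zero, abs_zero]
      linarith

theorem bdd_mul {p : ℕ} {P Q : ℤ[X]} (hp : P.natDegree ≤ p) {A B : ℝ} (hA : Bdd A P)
    (hB : Bdd B Q) : Bdd ((p + 1) * (A * B)) (P * Q) := by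
  intro i
  have hA0 := hA.nonneg
  have hB0 := hB.nonneg
  rw [coeff_mul]
  push_cast
  calc |∑ x ∈ Finset.HasAntidiagonal.antidiagonal i, (P.coeff x.1 : ℝ) * Q.coeff x.2|
      ≤ ∑ x ∈ Finset.HasAntidiagonal.antidiagonal i, |(P.coeff x.1 : ℝ) * Q.coeff x.2| :=
        Finset.abs_sum_le_sum_abs _ _
    _ ≤ ∑ x ∈ Finset.HasAntidiagonal.antidiagonal i, (if x.1 ≤ p then A * B else 0) := by
        refine Finset.sum_le_sum fun x _ => ?_
        split_ifs with h
        · rw [abs_mul]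
          exact mul_le_mul (hA _) (hB _) (abs_nonneg _) hA0
        · rw [coeff_eq_zero_of_natDegree_lt (by omega : P.natDegree < x.1)]
          simp
    _ = ((Finset.HasAntidiagonal.antidiagonal i).filter fun x => x.1 ≤ p).card * (A * B) := by
        rw [← Finset.sum_filter, Finset.sum_const, nsmul_eq_mul]
    _ ≤ (p + 1) * (A * B) := by
        apply mul_le_mul_of_nonneg_right _ (mul_nonneg hA0 hB0)
        have h1 : ((Finset.HasAntidiagonal.antidiagonal i).filter fun x => x.1 ≤ p).card ≤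
            (Finset.range (p + 1)).card := by
          apply Finset.card_le_card_of_injOn (fun x => x.1)
          · intro x hx
            have hx' := Finset.mem_filter.mp (Finset.mem_coe.mp hx)
            have := hx'.2
            simp only [Finset.coe_range, Set.mem_Iio]
            omega
          · intro x hx y hy hxy
            have hx' := Finset.HasAntidiagonal.mem_antidiagonal.mp
              (Finset.mem_filter.mp (Finset.mem_coe.mp hx)).1
            have hy' := Finset.HasAntidiagonal.mem_antidiagonal.mp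
              (Finset.mem_filter.mp (Finset.mem_coe.mp hy)).1
            simp only at hxy
            ext
            · exact hxy
            · omega
        rw [Finset.card_range] at h1
        exact_mod_cast h1

theorem bdd_sub {P Q : ℤ[X]} {A B : ℝ} (hA : Bdd A P) (hB : Bdd B Q) : Bdd (A + B) (P - Q) := by
  intro i
  rw [coeff_sub]
  push_cast
  calc |(P.coeff i : ℝ) - Q.coeff i| ≤ |(P.coeff i : ℝ)| + |(Q.coeff i : ℝ)| := abs_sub _ _
    _ ≤ A + B := add_le_add (hA i) (hB i)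

/-- bound of the value at `e` -/
theorem aeval_le (p : ℕ) : ∃ E : ℝ, 1 ≤ E ∧ ∀ P : ℤ[X], P.natDegree ≤ p → ∀ A : ℝ, Bdd A P →
    |aeval (Real.exp 1) P| ≤ E * A := by
  refine ⟨1 + ∑ i ∈ Finset.range (p + 1), Real.exp 1 ^ i, ?_, fun P hP A hA => ?_⟩
  · have : 0 ≤ ∑ i ∈ Finset.range (p + 1), Real.exp 1 ^ i :=
      Finset.sum_nonneg fun i _ => by positivity
    linarith
  · rw [aeval_eq_sum_range' (show P.natDegree < p + 1 by omega)]
    have hA0 := hA.nonneg
    calc |∑ i ∈ Finset.range (p + 1), P.coeff i • Real.exp 1 ^ i|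
        ≤ ∑ i ∈ Finset.range (p + 1), |P.coeff i • Real.exp 1 ^ i| :=
          Finset.abs_sum_le_sum_abs _ _
      _ ≤ ∑ i ∈ Finset.range (p + 1), A * Real.exp 1 ^ i := by
          refine Finset.sum_le_sum fun i _ => ?_
          rw [zsmul_eq_mul, abs_mul, abs_of_nonneg (by positivity : 0 ≤ Real.exp 1 ^ i)]
          exact mul_le_mul_of_nonneg_right (hA i) (by positivity)
      _ = A * ∑ i ∈ Finset.range (p + 1), Real.exp 1 ^ i := by rw [Finset.mul_sum]
      _ ≤ (1 + ∑ i ∈ Finset.range (p + 1), Real.exp 1 ^ i) * A := by nlinarith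

/-- a nonzero integer polynomial does not vanish at `e` -/
theorem aeval_ne {P : ℤ[X]} (hP : P ≠ 0) : aeval (Real.exp 1) P ≠ 0 := by
  obtain ⟨c, hc, h⟩ := e_measP P.natDegree 1 one_pos
  obtain ⟨H, hH, hb⟩ := exists_bdd P
  intro h0
  have h1 := h P hP le_rfl H hH hb
  rw [h0, abs_zero, mul_zero] at h1
  linarith

/-- some coefficient of a pair is at least `1` -/
theorem Pair.one_le {p q : ℕ} {P Q : ℤ[X]} (h : Pair p q P Q) {H : ℝ} (hP : Bdd H P)
    (hQ : Bdd H Q) : 1 ≤ H := by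
  have key : ∀ R : ℤ[X], R ≠ 0 → Bdd H R → 1 ≤ H := by
    intro R hR hb
    have h1 : R.leadingCoeff ≠ 0 := leadingCoeff_ne_zero.mpr hR
    have h2 : (1 : ℝ) ≤ |(R.leadingCoeff : ℝ)| := by exact_mod_cast Int.one_le_abs h1
    exact h2.trans (hb _)
  by_cases h0 : P = 0
  · exact key Q (fun h1 => h.1 ⟨h0, h1⟩) hQ
  · exact key P h0 hP

/-- if a relation exists then the nonvanishing values are not very small -/
theorem lower {p q : ℕ} {x : ℝ} (h : ∃ P Q : ℤ[X], Pair p q P Q ∧ val x P Q = 0) :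
    ∀ ε : ℝ, 0 < ε → ∃ c : ℝ, 0 < c ∧ ∀ P Q : ℤ[X], Pair p q P Q → ∀ H : ℝ, Bdd H P → Bdd H Q →
      val x P Q ≠ 0 → c * H ^ (-((p : ℝ) + q + ε)) ≤ |val x P Q| := by
  obtain ⟨A, B, ⟨hne, hA, hB⟩, h0⟩ := h
  intro ε hε
  have hBne : B ≠ 0 := by
    rintro rfl
    unfold val at h0
    rw [map_zero, mul_zero, add_zero] at h0
    exact aeval_ne (fun hA0 => hne ⟨hA0, rfl⟩) h0
  have hb := aeval_ne hBne
  obtain ⟨HA, hHA1, hHA⟩ := exists_bdd A
  obtain ⟨HB, hHB1, hHB⟩ := exists_bdd B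
  obtain ⟨c, hc, hm⟩ := e_measP (p + q) ε hε
  obtain ⟨K, hK⟩ : ∃ K : ℝ, K = (p + 1) * HB + (q + 1) * HA := ⟨_, rfl⟩
  have hK1 : 1 ≤ K := by
    rw [hK]
    have h1 : (0 : ℝ) ≤ p := Nat.cast_nonneg _
    have h2 : (0 : ℝ) ≤ q := Nat.cast_nonneg _
    nlinarith
  have hK0 : 0 < K := by linarith
  have hbp : 0 < |aeval (Real.exp 1) B| := abs_pos.mpr hb
  refine ⟨c / (K ^ (((p + q : ℕ) : ℝ) + ε) * |aeval (Real.exp 1) B|), by positivity, ?_⟩
  intro P Q hPQ H hP hQ hval
  have hH1 : 1 ≤ H := hPQ.one_le hP hQ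
  have hH0 : 0 < H := by linarith
  have e1 : aeval (Real.exp 1) (P * B - Q * A) = aeval (Real.exp 1) B * val x P Q := by
    unfold val at h0 ⊢
    rw [map_sub, map_mul, map_mul]
    linear_combination (-aeval (Real.exp 1) Q) * h0
  have hR : P * B - Q * A ≠ 0 := by
    intro h1
    rw [h1, map_zero] at e1
    exact mul_ne_zero hb hval e1.symm
  have hdeg : (P * B - Q * A).natDegree ≤ p + q := by
    refine (natDegree_sub_le _ _).trans (max_le ?_ ?_)
    · exact (natDegree_mul_le).trans (add_le_add hPQ.2.1 hB)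
    · refine (natDegree_mul_le).trans ?_
      have := hPQ.2.2
      omega
  have hbd : Bdd (K * H) (P * B - Q * A) := by
    have h1 := bdd_sub (bdd_mul hPQ.2.1 hP hHB) (bdd_mul hPQ.2.2 hQ hHA)
    refine h1.mono (le_of_eq ?_)
    rw [hK]; ring
  have h2 := hm _ hR hdeg (K * H) (by nlinarith) hbd
  rw [e1, abs_mul, Real.mul_rpow hK0.le hH0.le] at h2
  rw [Real.rpow_neg hH0.le]
  have e2 : ((p : ℝ) + q + ε) = (((p + q : ℕ) : ℝ) + ε) := by push_cast; ring
  rw [e2]
  have hHp : 0 < H ^ (((p + q : ℕ) : ℝ) + ε) := Real.rpow_pos_of_pos hH0 _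
  have hKp : 0 < K ^ (((p + q : ℕ) : ℝ) + ε) := Real.rpow_pos_of_pos hK0 _
  rw [← div_eq_mul_inv, div_div, div_le_iff₀ (by positivity)]
  calc c ≤ K ^ (((p + q : ℕ) : ℝ) + ε) * H ^ (((p + q : ℕ) : ℝ) + ε) *
        (|aeval (Real.exp 1) B| * |val x P Q|) := h2
    _ = _ := by ring

end Pool.Agent.NH22.RG
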