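import Pool.Agent.NH22.RG

/-! Values of the forms `P(e) + x Q(e)`: pigeonhole and uniform smallness. -/

set_option autoImplicit false

namespace Pool.Agent.NH22.RG

open Polynomial Filter Pool.Agent.W472.AC

theorem pol_sub {n : ℕ} (v w : Fin n → ℤ) : pol (v - w) = pol v - pol w := by
  ext i
  rw [coeff_sub, pol_coeff, pol_coeff, pol_coeff]
  split_ifs <;> simp

/-- pigeonhole: small values of the forms -/
theorem dirichlet (p q : ℕ) (x : ℝ) : ∃ C : ℝ, 1 ≤ C ∧ ∀ H : ℕ, 1 ≤ H → ∃ P Q : ℤ[X],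
    Pair p q P Q ∧ Bdd H P ∧ Bdd H Q ∧ |val x P Q| ≤ C * ((H : ℝ) ^ (p + q + 1))⁻¹ := by
  obtain ⟨E₁, hE₁, h₁⟩ := aeval_le p
  obtain ⟨E₂, hE₂, h₂⟩ := aeval_le q
  obtain ⟨M, hM⟩ : ∃ M : ℝ, M = E₁ + |x| * E₂ := ⟨_, rfl⟩
  have hM1 : 1 ≤ M := by
    rw [hM]
    have := abs_nonneg x
    nlinarith
  refine ⟨2 * M, by linarith, fun H hH => ?_⟩
  have hHr : (1 : ℝ) ≤ H := by exact_mod_cast hH
  have hH0 : (0 : ℝ) < H := by linarith
  -- the vectors
  let T : Type := (Fin (p + 1) → Fin (H + 1)) × (Fin (q + 1) → Fin (H + 1))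
  let PP : T → ℤ[X] := fun t => pol (fun i => ((t.1 i : ℕ) : ℤ))
  let QQ : T → ℤ[X] := fun t => pol (fun i => ((t.2 i : ℕ) : ℤ))
  let V : T → ℝ := fun t => val x (PP t) (QQ t)
  have hPb : ∀ t, Bdd H (PP t) := by
    intro t i
    change |(((pol _ : ℤ[X]).coeff i : ℤ) : ℝ)| ≤ _
    rw [pol_coeff]
    split_ifs with h
    · have h3 : ((t.1 ⟨i, h⟩ : ℕ)) ≤ H := Nat.lt_succ_iff.mp (t.1 ⟨i, h⟩).2
      have h4 : (((t.1 ⟨i, h⟩ : ℕ) : ℤ) : ℝ) = ((t.1 ⟨i, h⟩ : ℕ) : ℝ) := by push_cast; rfl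
      rw [h4, abs_of_nonneg (Nat.cast_nonneg _)]
      exact_mod_cast h3
    · simp
  have hQb : ∀ t, Bdd H (QQ t) := by
    intro t i
    change |(((pol _ : ℤ[X]).coeff i : ℤ) : ℝ)| ≤ _
    rw [pol_coeff]
    split_ifs with h
    · have h3 : ((t.2 ⟨i, h⟩ : ℕ)) ≤ H := Nat.lt_succ_iff.mp (t.2 ⟨i, h⟩).2
      have h4 : (((t.2 ⟨i, h⟩ : ℕ) : ℤ) : ℝ) = ((t.2 ⟨i, h⟩ : ℕ) : ℝ) := by push_cast; rfl
      rw [h4, abs_of_nonneg (Nat.cast_nonneg _)]
      exact_mod_cast h3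
    · simp
  have hV : ∀ t, |V t| ≤ M * H := by
    intro t
    have e1 := h₁ (PP t) (pol_natDegree _) H (hPb t)
    have e2 := h₂ (QQ t) (pol_natDegree _) H (hQb t)
    calc |V t| ≤ |aeval (Real.exp 1) (PP t)| + |x * aeval (Real.exp 1) (QQ t)| := abs_add_le _ _
      _ ≤ E₁ * H + |x| * (E₂ * H) := by
          rw [abs_mul]
          gcongr
      _ = M * H := by rw [hM]; ring
  have hMH : 0 < M * H := by positivity
  let K : ℕ := H ^ (p + q + 2)
  have hKpos : (0 : ℝ) < K := by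
    have : 0 < K := by positivity
    exact_mod_cast this
  let F : T → ℕ := fun t => ⌊(V t + M * H) / (2 * (M * H)) * K⌋₊
  have hmaps : ∀ t ∈ (Finset.univ : Finset T), F t ∈ Finset.range (K + 1) := by
    intro t _
    rw [Finset.mem_range, Nat.lt_succ_iff]
    apply Nat.floor_le_of_le
    have h3 := (abs_le.mp (hV t)).2
    have h4 : (V t + M * H) / (2 * (M * H)) ≤ 1 := by
      rw [div_le_one (by positivity)]
      linarith
    nlinarith
  have hcard : (Finset.range (K + 1)).card < (Finset.univ : Finset T).card := by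
    rw [Finset.card_range, Finset.card_univ]
    have e1 : Fintype.card T = (H + 1) ^ (p + 1) * (H + 1) ^ (q + 1) := by
      change Fintype.card ((Fin (p + 1) → Fin (H + 1)) × (Fin (q + 1) → Fin (H + 1))) = _
      rw [Fintype.card_prod, Fintype.card_fun, Fintype.card_fun, Fintype.card_fin,
        Fintype.card_fin, Fintype.card_fin]
    rw [e1, ← pow_add, show p + 1 + (q + 1) = (p + q + 1) + 1 by ring]
    change H ^ (p + q + 2) + 1 < _
    have h5 : H ^ (p + q + 1) ≤ (H + 1) ^ (p + q + 1) := Nat.pow_le_pow_left (by omega) _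
    have h6 : 1 < (H + 1) ^ (p + q + 1) := Nat.one_lt_pow (by omega) (by omega)
    calc H ^ (p + q + 2) + 1 < H ^ (p + q + 1) * H + (H + 1) ^ (p + q + 1) := by
          rw [pow_succ]; omega
      _ ≤ (H + 1) ^ (p + q + 1) * H + (H + 1) ^ (p + q + 1) := by
          have := Nat.mul_le_mul_right H h5
          omega
      _ = (H + 1) ^ (p + q + 1 + 1) := by ring
  obtain ⟨s, _, t, _, hst, hFst⟩ := Finset.exists_ne_map_eq_of_card_lt_of_maps_to hcard hmaps
  have hnn : ∀ t, 0 ≤ (V t + M * H) / (2 * (M * H)) * K := by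
    intro t
    have h3 := (abs_le.mp (hV t)).1
    have : 0 ≤ V t + M * H := by linarith
    positivity
  have hdiff : |V s - V t| ≤ 2 * (M * H) / K := by
    have a1 := Nat.floor_le (hnn s)
    have a2 := Nat.lt_floor_add_one ((V s + M * H) / (2 * (M * H)) * K)
    have a3 := Nat.floor_le (hnn t)
    have a4 := Nat.lt_floor_add_one ((V t + M * H) / (2 * (M * H)) * K)
    have a5 : ((F s : ℕ) : ℝ) = ((F t : ℕ) : ℝ) := by exact_mod_cast hFst
    have a6 : |(V s + M * H) / (2 * (M * H)) * K - (V t + M * H) / (2 * (M * H)) * K| ≤ 1 := by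
      have b1 : ((⌊(V s + M * H) / (2 * (M * H)) * K⌋₊ : ℕ) : ℝ) =
        ((⌊(V t + M * H) / (2 * (M * H)) * K⌋₊ : ℕ) : ℝ) := a5
      rw [abs_le]
      constructor <;> linarith
    have a7 : (V s + M * H) / (2 * (M * H)) * K - (V t + M * H) / (2 * (M * H)) * K =
        (V s - V t) * (K / (2 * (M * H))) := by
      field_simp
      ring
    rw [a7, abs_mul, abs_of_pos (by positivity : 0 < (K : ℝ) / (2 * (M * H)))] at a6
    rw [le_div_iff₀ hKpos]
    have a8 : |V s - V t| * (K / (2 * (M * H))) = |V s - V t| * K / (2 * (M * H)) := by ring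
    rw [a8, div_le_one (by positivity)] at a6
    exact a6
  refine ⟨PP s - PP t, QQ s - QQ t, ⟨?_, ?_, ?_⟩, ?_, ?_, ?_⟩
  · rintro ⟨h3, h4⟩
    apply hst
    have h5 : (fun i => ((s.1 i : ℕ) : ℤ)) - (fun i => ((t.1 i : ℕ) : ℤ)) = 0 := by
      apply pol_eq_zero
      rw [pol_sub]; exact h3
    have h6 : (fun i => ((s.2 i : ℕ) : ℤ)) - (fun i => ((t.2 i : ℕ) : ℤ)) = 0 := by
      apply pol_eq_zero
      rw [pol_sub]; exact h4
    apply Prod.ext
    · funext i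
      have h7 := congrFun h5 i
      simp only [Pi.sub_apply, Pi.zero_apply] at h7
      apply Fin.ext
      omega
    · funext i
      have h7 := congrFun h6 i
      simp only [Pi.sub_apply, Pi.zero_apply] at h7
      apply Fin.ext
      omega
  · exact (natDegree_sub_le _ _).trans (max_le (pol_natDegree _) (pol_natDegree _))
  · exact (natDegree_sub_le _ _).trans (max_le (pol_natDegree _) (pol_natDegree _))
  · intro i
    rw [coeff_sub]
    change |(((pol _).coeff i - (pol _).coeff i : ℤ) : ℝ)| ≤ _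
    rw [pol_coeff, pol_coeff]
    split_ifs with h
    · have h3 := (s.1 ⟨i, h⟩).2
      have h4 := (t.1 ⟨i, h⟩).2
      have h5 : |((s.1 ⟨i, h⟩ : ℕ) : ℤ) - ((t.1 ⟨i, h⟩ : ℕ) : ℤ)| ≤ H := by
        rw [abs_le]; constructor <;> omega
      exact_mod_cast h5
    · simp
  · intro i
    rw [coeff_sub]
    change |(((pol _).coeff i - (pol _).coeff i : ℤ) : ℝ)| ≤ _
    rw [pol_coeff, pol_coeff]
    split_ifs with h
    · have h3 := (s.2 ⟨i, h⟩).2
      have h4 := (t.2 ⟨i, h⟩).2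
      have h5 : |((s.2 ⟨i, h⟩ : ℕ) : ℤ) - ((t.2 ⟨i, h⟩ : ℕ) : ℤ)| ≤ H := by
        rw [abs_le]; constructor <;> omega
      exact_mod_cast h5
    · simp
  · have e1 : val x (PP s - PP t) (QQ s - QQ t) = V s - V t := by
      change _ = val x (PP s) (QQ s) - val x (PP t) (QQ t)
      unfold val
      rw [map_sub, map_sub]; ring
    rw [e1]
    refine hdiff.trans (le_of_eq ?_)
    change 2 * (M * H) / ((H ^ (p + q + 2) : ℕ) : ℝ) = _
    push_cast
    rw [pow_succ (H : ℝ) (p + q + 1)]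
    field_simp

/-- slow decay of the nonvanishing forms gives a relation -/
theorem rel_of_lower {p q : ℕ} {x : ℝ} {w c : ℝ} (hw : w < p + q + 1) (hc : 0 < c)
    (h : ∀ P Q : ℤ[X], Pair p q P Q → ∀ H : ℝ, Bdd H P → Bdd H Q →
      val x P Q ≠ 0 → c * H ^ (-w) ≤ |val x P Q|) :
    ∃ P Q : ℤ[X], Pair p q P Q ∧ val x P Q = 0 := by
  by_contra hcon
  have hI : ∀ P Q : ℤ[X], Pair p q P Q → val x P Q ≠ 0 := fun P Q h1 h2 => hcon ⟨P, Q, h1, h2⟩
  obtain ⟨C, hC, hd⟩ := dirichlet p q x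
  have hlim : Tendsto (fun H : ℕ => (H : ℝ) ^ ((p : ℝ) + q + 1 - w)) atTop atTop :=
    (tendsto_rpow_atTop (by linarith)).comp tendsto_natCast_atTop_atTop
  obtain ⟨H, hH1, hH2⟩ := ((hlim.eventually_gt_atTop (C / c)).and
    (eventually_ge_atTop 1)).exists
  have hHpos : (0 : ℝ) < H := by exact_mod_cast (by omega : 0 < H)
  obtain ⟨P, Q, hPQ, hP, hQ, hv⟩ := hd H hH2
  have h1 := (h P Q hPQ H hP hQ (hI P Q hPQ)).trans hv
  rw [Real.rpow_neg hHpos.le] at h1
  rw [div_lt_iff₀ hc] at hH1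
  have h2 : (H : ℝ) ^ (p + q + 1) = (H : ℝ) ^ ((p : ℝ) + q + 1 - w) * (H : ℝ) ^ w := by
    rw [← Real.rpow_add hHpos, ← Real.rpow_natCast]
    push_cast
    congr 1
    ring
  have h3 : 0 < (H : ℝ) ^ w := Real.rpow_pos_of_pos hHpos _
  have h4 : 0 < (H : ℝ) ^ (p + q + 1) := by positivity
  rw [← div_eq_mul_inv, ← div_eq_mul_inv, div_le_div_iff₀ h3 h4, h2] at h1
  nlinarith

/-- uniformly very small forms give a relation -/
theorem rel_of_uniform {p q : ℕ} {x : ℝ} {w : ℝ} (hw : 2 * ((p : ℝ) + q) + 1 < w)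
    (h : ∃ n₀ : ℕ, ∀ n : ℕ, n₀ ≤ n → ∃ P Q : ℤ[X], Pair p q P Q ∧ Bdd n P ∧ Bdd n Q ∧
      |val x P Q| ≤ (n : ℝ) ^ (-w)) :
    ∃ P Q : ℤ[X], Pair p q P Q ∧ val x P Q = 0 := by
  by_contra hcon
  have hI : ∀ P Q : ℤ[X], Pair p q P Q → val x P Q ≠ 0 := fun P Q h1 h2 => hcon ⟨P, Q, h1, h2⟩
  obtain ⟨n₀, hn₀⟩ := h
  have hp0 : (0 : ℝ) ≤ p := Nat.cast_nonneg _
  have hq0 : (0 : ℝ) ≤ q := Nat.cast_nonneg _
  have hex : ∀ n : ℕ, ∃ P Q : ℤ[X], n₀ ≤ n → (Pair p q P Q ∧ Bdd n P ∧ Bdd n Q ∧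
      |val x P Q| ≤ (n : ℝ) ^ (-w)) := by
    intro n
    by_cases hn : n₀ ≤ n
    · obtain ⟨P, Q, h1⟩ := hn₀ n hn
      exact ⟨P, Q, fun _ => h1⟩
    · exact ⟨0, 0, fun h1 => absurd h1 hn⟩
  choose P Q hPQ using hex
  -- consecutive pairs are proportional
  obtain ⟨η, hη⟩ : ∃ η : ℝ, η = (w - (2 * ((p : ℝ) + q) + 1)) / 4 := ⟨_, rfl⟩
  have hη0 : 0 < η := by rw [hη]; linarith
  obtain ⟨c, hc, hm⟩ := e_measP (p + q) η hη0
  obtain ⟨E, hE, hEb⟩ := aeval_le q
  obtain ⟨K, hK⟩ : ∃ K : ℝ, K = ((p : ℝ) + 1) + (p + 1) := ⟨_, rfl⟩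
  have hK1 : 1 ≤ K := by rw [hK]; linarith
  have hK0 : 0 < K := by linarith
  obtain ⟨σ, hσ⟩ : ∃ σ : ℝ, σ = ((p + q : ℕ) : ℝ) + η := ⟨_, rfl⟩
  have hσ0 : 0 < σ := by rw [hσ]; positivity
  obtain ⟨D, hD⟩ : ∃ D : ℝ, D = (4 * K) ^ σ * (4 * E) := ⟨_, rfl⟩
  have hexp : w - 1 - 2 * σ = 2 * η := by
    rw [hσ, hη]; push_cast; ring
  have ht : Tendsto (fun n : ℕ => D * (n : ℝ) ^ (-(2 * η))) atTop (nhds (D * 0)) :=
    ((tendsto_rpow_neg_atTop (by linarith)).comp tendsto_natCast_atTop_atTop).const_mul D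
  rw [mul_zero] at ht
  obtain ⟨n₁, hn₁⟩ := eventually_atTop.mp (ht.eventually_lt_const hc)
  obtain ⟨N, hN⟩ : ∃ N : ℕ, N = max (max n₀ n₁) 1 := ⟨_, rfl⟩
  have hN0 : n₀ ≤ N := by rw [hN]; omega
  have hN1 : n₁ ≤ N := by rw [hN]; omega
  have hN2 : 1 ≤ N := by rw [hN]; omega
  have hcons : ∀ n : ℕ, N ≤ n → P n * Q (n + 1) = P (n + 1) * Q n := by
    intro n hn
    obtain ⟨⟨-, hd1, hd2⟩, hb1, hb2, hv⟩ := hPQ n (by omega)
    obtain ⟨⟨-, hd1', hd2'⟩, hb1', hb2', hv'⟩ := hPQ (n + 1) (by omega)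
    by_contra hne
    have hR : P n * Q (n + 1) - P (n + 1) * Q n ≠ 0 := sub_ne_zero.mpr hne
    have hn1 : (1 : ℝ) ≤ n := by exact_mod_cast (by omega : 1 ≤ n)
    have hnp : (0 : ℝ) < n := by linarith
    have hcast : ((n + 1 : ℕ) : ℝ) = n + 1 := by push_cast; ring
    have hle : ((n + 1 : ℕ) : ℝ) ≤ 2 * n := by rw [hcast]; linarith
    have hdeg : (P n * Q (n + 1) - P (n + 1) * Q n).natDegree ≤ p + q := by
      refine (natDegree_sub_le _ _).trans (max_le ?_ ?_)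
      · exact (natDegree_mul_le).trans (add_le_add hd1 hd2')
      · exact (natDegree_mul_le).trans (add_le_add hd1' hd2)
    have hbd : Bdd (4 * K * (n : ℝ) ^ 2) (P n * Q (n + 1) - P (n + 1) * Q n) := by
      have h1 := bdd_sub (bdd_mul hd1 hb1 (hb2'.mono hle)) (bdd_mul hd1' (hb1'.mono hle) hb2)
      refine h1.mono ?_
      rw [hK]
      nlinarith [mul_nonneg hp0 (sq_nonneg (n : ℝ)), sq_nonneg (n : ℝ)]
    have h2 := hm _ hR hdeg (4 * K * (n : ℝ) ^ 2) (by nlinarith) hbd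
    have e1 : aeval (Real.exp 1) (P n * Q (n + 1) - P (n + 1) * Q n) =
        val x (P n) (Q n) * aeval (Real.exp 1) (Q (n + 1)) -
        val x (P (n + 1)) (Q (n + 1)) * aeval (Real.exp 1) (Q n) := by
      unfold val
      rw [map_sub, map_mul, map_mul]
      ring
    have hvn : |val x (P (n + 1)) (Q (n + 1))| ≤ (n : ℝ) ^ (-w) := by
      refine hv'.trans ?_
      apply Real.rpow_le_rpow_of_nonpos hnp
      · rw [hcast]; linarith
      · linarith
    have hwp : 0 < (n : ℝ) ^ (-w) := Real.rpow_pos_of_pos hnp _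
    have h3 : |aeval (Real.exp 1) (P n * Q (n + 1) - P (n + 1) * Q n)| ≤
        (4 * E) * ((n : ℝ) * (n : ℝ) ^ (-w)) := by
      rw [e1]
      have a1 := hEb _ hd2' _ (hb2'.mono hle)
      have a2 := hEb _ hd2 _ hb2
      calc |val x (P n) (Q n) * aeval (Real.exp 1) (Q (n + 1)) -
            val x (P (n + 1)) (Q (n + 1)) * aeval (Real.exp 1) (Q n)|
          ≤ |val x (P n) (Q n) * aeval (Real.exp 1) (Q (n + 1))| +
            |val x (P (n + 1)) (Q (n + 1)) * aeval (Real.exp 1) (Q n)| := abs_sub _ _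
        _ = |val x (P n) (Q n)| * |aeval (Real.exp 1) (Q (n + 1))| +
            |val x (P (n + 1)) (Q (n + 1))| * |aeval (Real.exp 1) (Q n)| := by
            rw [abs_mul, abs_mul]
        _ ≤ (n : ℝ) ^ (-w) * (E * (2 * n)) + (n : ℝ) ^ (-w) * (E * n) := by
            gcongr
        _ ≤ (4 * E) * ((n : ℝ) * (n : ℝ) ^ (-w)) := by
            have : 0 ≤ (n : ℝ) ^ (-w) * (E * n) := by positivity
            nlinarith
    have h4 : c ≤ D * (n : ℝ) ^ (-(2 * η)) := by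
      refine h2.trans ?_
      rw [← hσ]
      have h5 : (4 * K * (n : ℝ) ^ 2) ^ σ = (4 * K) ^ σ * (n : ℝ) ^ (2 * σ) := by
        rw [Real.mul_rpow (by positivity) (by positivity)]
        congr 1
        rw [← Real.rpow_natCast, ← Real.rpow_mul hnp.le]
        norm_num
      rw [h5]
      have h6 : (n : ℝ) ^ (2 * σ) * ((n : ℝ) * (n : ℝ) ^ (-w)) = (n : ℝ) ^ (-(2 * η)) := by
        nth_rewrite 2 [← Real.rpow_one (n : ℝ)]
        rw [← Real.rpow_add hnp, ← Real.rpow_add hnp]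
        congr 1
        linarith
      calc (4 * K) ^ σ * (n : ℝ) ^ (2 * σ) *
            |aeval (Real.exp 1) (P n * Q (n + 1) - P (n + 1) * Q n)|
          ≤ (4 * K) ^ σ * (n : ℝ) ^ (2 * σ) * ((4 * E) * ((n : ℝ) * (n : ℝ) ^ (-w))) := by
            gcongr
        _ = D * ((n : ℝ) ^ (2 * σ) * ((n : ℝ) * (n : ℝ) ^ (-w))) := by rw [hD]; ring
        _ = D * (n : ℝ) ^ (-(2 * η)) := by rw [h6]
    have := hn₁ n (by omega)
    linarith
  -- all pairs are proportional to the first one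
  have hall : ∀ k : ℕ, P N * Q (N + k) = P (N + k) * Q N := by
    intro k
    induction k with
    | zero => rfl
    | succ k ih =>
      have h1 := hcons (N + k) (by omega)
      obtain ⟨⟨hne, -, -⟩, -, -, -⟩ := hPQ (N + k) (by omega)
      rw [show N + (k + 1) = N + k + 1 by ring]
      by_cases h0 : Q (N + k) = 0
      · have hP : P (N + k) ≠ 0 := fun h2 => hne ⟨h2, h0⟩
        rw [h0, mul_zero] at ih h1
        have h3 : Q N = 0 := by
          rcases mul_eq_zero.mp ih.symm with h4 | h4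
          · exact absurd h4 hP
          · exact h4
        have h5 : Q (N + k + 1) = 0 := by
          rcases mul_eq_zero.mp h1 with h4 | h4
          · exact absurd h4 hP
          · exact h4
        rw [h3, h5, mul_zero, mul_zero]
      · apply mul_right_cancel₀ h0
        calc P N * Q (N + k + 1) * Q (N + k) = (P N * Q (N + k)) * Q (N + k + 1) := by ring
          _ = Q N * (P (N + k) * Q (N + k + 1)) := by rw [ih]; ring
          _ = _ := by rw [h1]; ring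
  obtain ⟨⟨hneN, -, -⟩, -, -, -⟩ := hPQ N hN0
  have hpairN := (hPQ N hN0).1
  by_cases hB : Q N = 0
  · -- the second polynomials vanish
    have hA : P N ≠ 0 := fun h1 => hneN ⟨h1, hB⟩
    obtain ⟨c', hc', hm'⟩ := e_measP p (1 / 2) (by norm_num)
    have hlim : Tendsto (fun n : ℕ => (n : ℝ) ^ (-(w - (p + 1 / 2)))) atTop (nhds 0) :=
      (tendsto_rpow_neg_atTop (by linarith)).comp tendsto_natCast_atTop_atTop
    obtain ⟨n₂, hn₂⟩ := eventually_atTop.mp (hlim.eventually_lt_const hc')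
    obtain ⟨k, hk⟩ : ∃ k : ℕ, n₂ ≤ N + k := ⟨n₂, by omega⟩
    obtain ⟨hpk, hb1, hb2, hv⟩ := hPQ (N + k) (by omega)
    have h1 := hall k
    rw [hB, mul_zero] at h1
    have h2 : Q (N + k) = 0 := by
      rcases mul_eq_zero.mp h1 with h4 | h4
      · exact absurd h4 hA
      · exact h4
    have h3 : P (N + k) ≠ 0 := fun h4 => hpk.1 ⟨h4, h2⟩
    have hnp : (0 : ℝ) < ((N + k : ℕ) : ℝ) := by exact_mod_cast (by omega : 0 < N + k)
    have h5 := hm' _ h3 hpk.2.1 ((N + k : ℕ) : ℝ) (by exact_mod_cast (by omega : 1 ≤ N + k)) hb1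
    have h6 : val x (P (N + k)) (Q (N + k)) = aeval (Real.exp 1) (P (N + k)) := by
      unfold val
      rw [h2, map_zero]; ring
    rw [h6] at hv
    have h7 : c' ≤ ((N + k : ℕ) : ℝ) ^ (-(w - (p + 1 / 2))) := by
      calc c' ≤ ((N + k : ℕ) : ℝ) ^ ((p : ℝ) + 1 / 2) * |aeval (Real.exp 1) (P (N + k))| := h5
        _ ≤ ((N + k : ℕ) : ℝ) ^ ((p : ℝ) + 1 / 2) * ((N + k : ℕ) : ℝ) ^ (-w) := by gcongr
        _ = _ := by
          rw [← Real.rpow_add hnp]
          congr 1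
          ring
    have := hn₂ (N + k) hk
    linarith
  · have hBe := aeval_ne hB
    have hval0 := hI _ _ hpairN
    obtain ⟨c', hc', hm'⟩ := e_measP q (1 / 2) (by norm_num)
    have hpos : 0 < c' * |val x (P N) (Q N)| / |aeval (Real.exp 1) (Q N)| := by
      have := abs_pos.mpr hBe
      have := abs_pos.mpr hval0
      positivity
    have hlim : Tendsto (fun n : ℕ => (n : ℝ) ^ (-(w - (q + 1 / 2)))) atTop (nhds 0) :=
      (tendsto_rpow_neg_atTop (by linarith)).comp tendsto_natCast_atTop_atTop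
    obtain ⟨n₂, hn₂⟩ := eventually_atTop.mp (hlim.eventually_lt_const hpos)
    obtain ⟨k, hk⟩ : ∃ k : ℕ, n₂ ≤ N + k := ⟨n₂, by omega⟩
    obtain ⟨hpk, hb1, hb2, hv⟩ := hPQ (N + k) (by omega)
    have h1 := hall k
    have h2 : Q (N + k) ≠ 0 := by
      intro h0
      rw [h0, mul_zero] at h1
      rcases mul_eq_zero.mp h1.symm with h4 | h4
      · exact hpk.1 ⟨h4, h0⟩
      · exact hB h4
    have hnp : (0 : ℝ) < ((N + k : ℕ) : ℝ) := by exact_mod_cast (by omega : 0 < N + k)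
    have h5 := hm' _ h2 hpk.2.2 ((N + k : ℕ) : ℝ) (by exact_mod_cast (by omega : 1 ≤ N + k)) hb2
    have h6 : aeval (Real.exp 1) (Q N) * val x (P (N + k)) (Q (N + k)) =
        aeval (Real.exp 1) (Q (N + k)) * val x (P N) (Q N) := by
      have h7 := congrArg (aeval (Real.exp 1)) h1
      rw [map_mul, map_mul] at h7
      unfold val
      linear_combination (-1) * h7
    have h8 : |aeval (Real.exp 1) (Q N)| * |val x (P (N + k)) (Q (N + k))| =
        |aeval (Real.exp 1) (Q (N + k))| * |val x (P N) (Q N)| := by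
      rw [← abs_mul, ← abs_mul, h6]
    have hBp := abs_pos.mpr hBe
    have hVp := abs_pos.mpr hval0
    have h7 : c' * |val x (P N) (Q N)| / |aeval (Real.exp 1) (Q N)| ≤
        ((N + k : ℕ) : ℝ) ^ (-(w - (q + 1 / 2))) := by
      rw [div_le_iff₀ hBp]
      calc c' * |val x (P N) (Q N)| ≤ (((N + k : ℕ) : ℝ) ^ ((q : ℝ) + 1 / 2) *
            |aeval (Real.exp 1) (Q (N + k))|) * |val x (P N) (Q N)| := by gcongr
        _ = ((N + k : ℕ) : ℝ) ^ ((q : ℝ) + 1 / 2) * (|aeval (Real.exp 1) (Q N)| *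
            |val x (P (N + k)) (Q (N + k))|) := by rw [h8]; ring
        _ ≤ ((N + k : ℕ) : ℝ) ^ ((q : ℝ) + 1 / 2) * (|aeval (Real.exp 1) (Q N)| *
            ((N + k : ℕ) : ℝ) ^ (-w)) := by gcongr
        _ = (((N + k : ℕ) : ℝ) ^ ((q : ℝ) + 1 / 2) * ((N + k : ℕ) : ℝ) ^ (-w)) *
            |aeval (Real.exp 1) (Q N)| := by ring
        _ = _ := by
          rw [← Real.rpow_add hnp]
          congr 2
          ring
    have := hn₂ (N + k) hk
    linarith

end Pool.Agent.NH22.RG
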