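import Pool.Agent.NH22.Lin

/-! The sequence `n! B_n`, where `B_n` are the denominators of the convergents of `e`. -/

set_option autoImplicit false

namespace Pool.Agent.NH22.Seq

open Pool.Agent.H43R2.Cplx Real Filter

/-- distance to the nearest integer -/
noncomputable def di (x : ℝ) : ℝ := |x - round x|

theorem di_nonneg (x : ℝ) : 0 ≤ di x := abs_nonneg _

theorem di_le (x : ℝ) (m : ℤ) : di x ≤ |x - m| := round_le x m

theorem fac_q (n : ℕ) : 4 ^ n * n.factorial ≤ EMeas.q (n + 1) := by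
  induction n with
  | zero => simp [EMeas.q]
  | succ n ih =>
    have h : EMeas.q (n + 1 + 1) = (4 * n + 6) * EMeas.q (n + 1) + EMeas.q n := rfl
    rw [h, Nat.factorial_succ, pow_succ]
    calc 4 ^ n * 4 * ((n + 1) * n.factorial) = (4 * n + 4) * (4 ^ n * n.factorial) := by ring
      _ ≤ (4 * n + 6) * EMeas.q (n + 1) := Nat.mul_le_mul (by omega) ih
      _ ≤ _ := Nat.le_add_right _ _

theorem fac_I (n : ℕ) : (n.factorial : ℝ) * EMeas.I n ≤ 2 / 4 ^ n := by
  have h1 := EMeas.I_le n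
  have h2 : (4 : ℝ) ^ n * n.factorial ≤ EMeas.q (n + 1) := by exact_mod_cast fac_q n
  have h3 : (0 : ℝ) < EMeas.q (n + 1) := by exact_mod_cast (EMeas.q_pos n).2
  have h4 : (0 : ℝ) < n.factorial := by positivity
  calc (n.factorial : ℝ) * EMeas.I n ≤ n.factorial * (2 / EMeas.q (n + 1)) :=
        mul_le_mul_of_nonneg_left h1 h4.le
    _ ≤ 2 / 4 ^ n := by
        rw [mul_div_assoc', div_le_div_iff₀ h3 (by positivity)]
        nlinarith

/-- `n! B_n` -/
def M (n : ℕ) : ℕ := n.factorial * EMeas.q n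

/-- `n! A_n` -/
def M' (n : ℕ) : ℕ := n.factorial * EMeas.r n

theorem M_rec (n : ℕ) : M (n + 2) = (n + 2) * (4 * n + 6) * M (n + 1) + (n + 2) * (n + 1) * M n := by
  unfold M
  have h : EMeas.q (n + 2) = (4 * n + 6) * EMeas.q (n + 1) + EMeas.q n := rfl
  rw [h, show (n + 2).factorial = (n + 2) * ((n + 1) * n.factorial) by
    rw [Nat.factorial_succ, Nat.factorial_succ], Nat.factorial_succ]
  ring

theorem M'_rec (n : ℕ) :
    M' (n + 2) = (n + 2) * (4 * n + 6) * M' (n + 1) + (n + 2) * (n + 1) * M' n := by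
  unfold M'
  have h : EMeas.r (n + 2) = (4 * n + 6) * EMeas.r (n + 1) + EMeas.r n := rfl
  rw [h, show (n + 2).factorial = (n + 2) * ((n + 1) * n.factorial) by
    rw [Nat.factorial_succ, Nat.factorial_succ], Nat.factorial_succ]
  ring

theorem M_pos (n : ℕ) : 1 ≤ M n := Nat.mul_pos (Nat.factorial_pos n) (EMeas.q_pos n).1

theorem M_e (n : ℕ) : |(M n : ℝ) * exp 1 - M' n| = n.factorial * EMeas.I n := by
  unfold M M'
  push_cast
  have h3 := (EMeas.I_eq n).1
  have h4 := EMeas.I_pos n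
  have h2 : |(EMeas.q n : ℝ) * exp 1 - EMeas.r n| = EMeas.I n := by
    rw [← abs_of_pos h4, h3, abs_mul, abs_pow, abs_neg, abs_one, one_pow, one_mul]
  rw [show (n.factorial : ℝ) * EMeas.q n * exp 1 - n.factorial * EMeas.r n =
    n.factorial * (EMeas.q n * exp 1 - EMeas.r n) by ring, abs_mul, h2, Nat.abs_cast]

theorem det (n : ℕ) : (M' n : ℤ) * M (n + 1) - M' (n + 1) * M n ≠ 0 := by
  unfold M M'
  have h := EMeas.det n
  have h1 : ((n.factorial * EMeas.r n : ℕ) : ℤ) * ((n + 1).factorial * EMeas.q (n + 1) : ℕ) -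
      ((n + 1).factorial * EMeas.r (n + 1) : ℕ) * (n.factorial * EMeas.q n : ℕ) =
      n.factorial * (n + 1).factorial * (2 * (-1) ^ (n + 1)) := by
    rw [← h]; push_cast; ring
  rw [h1]
  have : ((n.factorial : ℤ)) ≠ 0 := by exact_mod_cast n.factorial_ne_zero
  have : (((n + 1).factorial : ℤ)) ≠ 0 := by exact_mod_cast (n + 1).factorial_ne_zero
  simp_all

/-- elements of `ℚ + ℚ e` -/
theorem small_of_mem {x : ℝ} {a b : ℚ} (hx : x = a + b * exp 1) :
    ∃ C : ℝ, ∀ n : ℕ, di (M n * x) ≤ C / 4 ^ n := by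
  set c : ℕ := a.den * b.den with hc
  have hc0 : 0 < c := Nat.mul_pos a.den_pos b.den_pos
  refine ⟨2 * |(b : ℝ)| + 4 ^ c, fun n => ?_⟩
  have h4 : (0 : ℝ) < 4 ^ n := by positivity
  by_cases hn : c ≤ n
  · have hdvd : c ∣ n.factorial := Nat.dvd_factorial hc0 hn
    obtain ⟨t, ht⟩ := hdvd
    -- the integer
    have ha : (a : ℝ) * a.den = a.num := by exact_mod_cast Rat.mul_den_eq_num a
    have hb : (b : ℝ) * b.den = b.num := by exact_mod_cast Rat.mul_den_eq_num b
    have hfac : (n.factorial : ℝ) = a.den * b.den * t := by rw [ht, hc]; push_cast; ring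
    set m : ℤ := b.den * t * EMeas.q n * a.num + a.den * t * EMeas.r n * b.num with hm
    refine (di_le _ m).trans ?_
    have h1 : (M n : ℝ) * x - m = b * (M n * exp 1 - M' n) := by
      rw [hx, hm]
      unfold M M'
      push_cast
      rw [hfac, ← ha, ← hb]
      ring
    rw [h1, abs_mul, M_e]
    calc |(b : ℝ)| * (n.factorial * EMeas.I n) ≤ |(b : ℝ)| * (2 / 4 ^ n) :=
          mul_le_mul_of_nonneg_left (fac_I n) (abs_nonneg _)
      _ = 2 * |(b : ℝ)| / 4 ^ n := by ring
      _ ≤ _ := by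
          apply div_le_div_of_nonneg_right _ h4.le
          have : (0 : ℝ) < 4 ^ c := by positivity
          linarith
  · have h1 : di (M n * x) ≤ 1 / 2 := abs_sub_round _
    rw [le_div_iff₀ h4]
    have h2 : (4 : ℝ) ^ n ≤ 4 ^ c := pow_le_pow_right₀ (by norm_num) (by omega)
    have h3 : 0 ≤ |(b : ℝ)| := abs_nonneg _
    have h5 := di_nonneg (M n * x)
    nlinarith

theorem tend_four (C : ℝ) : Tendsto (fun n : ℕ => (n : ℝ) ^ 2 * (C / 4 ^ n)) atTop (nhds 0) := by
  have h := tendsto_pow_const_mul_const_pow_of_abs_lt_one 2 (show |(1 / 4 : ℝ)| < 1 by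
    rw [abs_of_pos] <;> norm_num)
  have h2 := h.const_mul C
  rw [mul_zero] at h2
  refine h2.congr fun n => ?_
  rw [one_div, inv_pow]
  ring

/-- the converse: small distances force `x ∈ ℚ + ℚ e` -/
theorem mem_of_small {x κ : ℝ} (hκ0 : 0 ≤ κ) (hκ : κ < 1 / 5)
    (h : ∀ᶠ n : ℕ in atTop, (n : ℝ) ^ 2 * di (M n * x) ≤ κ) :
    ∃ a b : ℚ, x = a + b * exp 1 := by
  obtain ⟨n0, hn0⟩ := eventually_atTop.mp h
  obtain ⟨n1', hn1'⟩ := exists_nat_gt (14 * κ / (1 - 5 * κ))
  set n1 : ℕ := max (max n0 n1') 1 with hn1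
  have h1a : n0 ≤ n1 := le_max_of_le_left (le_max_left _ _)
  have h1b : n1' ≤ n1 := le_max_of_le_left (le_max_right _ _)
  have h1c : 1 ≤ n1 := le_max_right _ _
  set N : ℕ → ℤ := fun n => round ((M n : ℝ) * x) with hN
  set δ : ℕ → ℝ := fun n => (M n : ℝ) * x - N n with hδ
  have hδa : ∀ n, |δ n| = di (M n * x) := fun n => rfl
  have hδb : ∀ n, n1 ≤ n → |δ n| ≤ κ / (n : ℝ) ^ 2 := by
    intro n hn
    have hnpos : (0 : ℝ) < n := by exact_mod_cast (by omega : 0 < n)
    rw [hδa, le_div_iff₀ (by positivity), mul_comm]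
    exact hn0 n (by omega)
  -- recurrence for N
  have hrec : ∀ n, n1 ≤ n → N (n + 2) =
      ((n : ℤ) + 2) * (4 * n + 6) * N (n + 1) + ((n : ℤ) + 2) * (n + 1) * N n := by
    intro n hn
    have hnpos : (0 : ℝ) < n := by exact_mod_cast (by omega : 0 < n)
    have hMr : (M (n + 2) : ℝ) = ((n : ℝ) + 2) * (4 * n + 6) * M (n + 1) +
        ((n : ℝ) + 2) * (n + 1) * M n := by
      have := M_rec n
      exact_mod_cast this
    set E : ℤ := N (n + 2) - (((n : ℤ) + 2) * (4 * n + 6) * N (n + 1) +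
      ((n : ℤ) + 2) * (n + 1) * N n) with hE
    have hEr : (E : ℝ) = -(δ (n + 2) - ((n : ℝ) + 2) * (4 * n + 6) * δ (n + 1) -
        ((n : ℝ) + 2) * (n + 1) * δ n) := by
      rw [hE, hδ]
      push_cast
      rw [hMr]
      ring
    have hb0 := hδb n hn
    have hb1 := hδb (n + 1) (by omega)
    have hb2 := hδb (n + 2) (by omega)
    push_cast at hb1 hb2
    have hlt : |(E : ℝ)| < 1 := by
      have hA : |(E : ℝ)| ≤ |δ (n + 2)| + ((n : ℝ) + 2) * (4 * n + 6) * |δ (n + 1)| +
          ((n : ℝ) + 2) * (n + 1) * |δ n| := by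
        rw [hEr, abs_neg]
        calc |δ (n + 2) - ((n : ℝ) + 2) * (4 * n + 6) * δ (n + 1) -
              ((n : ℝ) + 2) * (n + 1) * δ n|
            ≤ |δ (n + 2) - ((n : ℝ) + 2) * (4 * n + 6) * δ (n + 1)| +
              |((n : ℝ) + 2) * (n + 1) * δ n| := abs_sub _ _
          _ ≤ |δ (n + 2)| + |((n : ℝ) + 2) * (4 * n + 6) * δ (n + 1)| +
              |((n : ℝ) + 2) * (n + 1) * δ n| := by
              gcongr
              exact abs_sub _ _
          _ = _ := by
              rw [abs_mul (((n : ℝ) + 2) * (4 * n + 6)), abs_mul (((n : ℝ) + 2) * (n + 1)),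
                abs_of_pos (show (0:ℝ) < (n + 2) * (4 * n + 6) by positivity),
                abs_of_pos (show (0:ℝ) < (n + 2) * (n + 1) by positivity)]
      have hB : |(E : ℝ)| ≤ κ * (5 + 14 / n) := by
        refine hA.trans ?_
        have e2 : |δ (n + 2)| ≤ κ * (1 / n) := by
          refine hb2.trans ?_
          rw [div_eq_mul_one_div]
          apply mul_le_mul_of_nonneg_left _ hκ0
          apply one_div_le_one_div_of_le hnpos
          nlinarith
        have e1 : ((n : ℝ) + 2) * (4 * n + 6) * |δ (n + 1)| ≤ κ * (4 + 8 / n) := by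
          calc ((n : ℝ) + 2) * (4 * n + 6) * |δ (n + 1)|
              ≤ ((n : ℝ) + 2) * (4 * n + 6) * (κ / ((n : ℝ) + 1) ^ 2) := by gcongr
            _ = κ * (((n : ℝ) + 2) * (4 * n + 6) / ((n : ℝ) + 1) ^ 2) := by ring
            _ ≤ κ * (4 + 8 / n) := by
                apply mul_le_mul_of_nonneg_left _ hκ0
                rw [div_le_iff₀ (by positivity)]
                have h8 : (4 + 8 / (n : ℝ)) * ((n : ℝ) + 1) ^ 2 =
                    4 * ((n : ℝ) + 1) ^ 2 + 8 * (n + 2) + 8 / n := by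
                  field_simp
                  ring
                rw [h8]
                have : 0 < 8 / (n : ℝ) := by positivity
                nlinarith
        have e0 : ((n : ℝ) + 2) * (n + 1) * |δ n| ≤ κ * (1 + 5 / n) := by
          calc ((n : ℝ) + 2) * (n + 1) * |δ n|
              ≤ ((n : ℝ) + 2) * (n + 1) * (κ / (n : ℝ) ^ 2) := by gcongr
            _ = κ * (((n : ℝ) + 2) * (n + 1) / (n : ℝ) ^ 2) := by ring
            _ ≤ κ * (1 + 5 / n) := by
                apply mul_le_mul_of_nonneg_left _ hκ0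
                rw [div_le_iff₀ (by positivity)]
                have h8 : (1 + 5 / (n : ℝ)) * (n : ℝ) ^ 2 = (n : ℝ) ^ 2 + 5 * n := by
                  field_simp
                rw [h8]
                have : (1 : ℝ) ≤ n := by exact_mod_cast (by omega : 1 ≤ n)
                nlinarith
        have e3 : κ * (5 + 14 / (n : ℝ)) = κ * (1 / n) + κ * (4 + 8 / n) + κ * (1 + 5 / n) := by
          ring
        rw [e3]
        linarith
      refine hB.trans_lt ?_
      have h5 : 0 < 1 - 5 * κ := by linarith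
      have h6 : 14 * κ / (1 - 5 * κ) < n := by
        refine hn1'.trans_le ?_
        exact_mod_cast (by omega : n1' ≤ n)
      rw [div_lt_iff₀ h5] at h6
      have h7 : κ * (5 + 14 / (n : ℝ)) = (5 * κ * n + 14 * κ) / n := by
        field_simp
      rw [h7, div_lt_one hnpos]
      nlinarith
    have hE0 : E = 0 := by
      have : |E| < 1 := by exact_mod_cast hlt
      exact Int.abs_lt_one_iff.mp this
    rw [hE] at hE0
    linarith
  -- solve
  have hdet := det n1
  set Δ : ℚ := (M' n1 : ℚ) * M (n1 + 1) - M' (n1 + 1) * M n1 with hΔ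
  have hΔ0 : Δ ≠ 0 := by
    intro h0
    apply hdet
    have : (((M' n1 : ℤ) * M (n1 + 1) - M' (n1 + 1) * M n1 : ℤ) : ℚ) = 0 := by
      push_cast; exact h0
    exact_mod_cast this
  set α : ℚ := ((M' n1 : ℚ) * N (n1 + 1) - M' (n1 + 1) * N n1) / Δ with hα
  set β : ℚ := ((N n1 : ℚ) * M (n1 + 1) - N (n1 + 1) * M n1) / Δ with hβ
  have hsol : ∀ k, (N (n1 + k) : ℚ) = α * M (n1 + k) + β * M' (n1 + k) ∧
      (N (n1 + (k + 1)) : ℚ) = α * M (n1 + (k + 1)) + β * M' (n1 + (k + 1)) := by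
    intro k
    induction k with
    | zero =>
      refine ⟨?_, ?_⟩
      · rw [hα, hβ]
        simp only [Nat.add_zero]
        field_simp
        rw [hΔ]; ring
      · rw [hα, hβ]
        simp only [Nat.zero_add]
        field_simp
        rw [hΔ]; ring
    | succ k ih =>
      refine ⟨ih.2, ?_⟩
      have hr := hrec (n1 + k) (by omega)
      have hM := M_rec (n1 + k)
      have hM' := M'_rec (n1 + k)
      rw [show n1 + (k + 1 + 1) = n1 + k + 2 by ring]
      rw [show n1 + (k + 1) = n1 + k + 1 by ring] at ih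
      have hr' : (N (n1 + k + 2) : ℚ) = (((n1 + k : ℕ) : ℚ) + 2) * (4 * ((n1 + k : ℕ) : ℚ) + 6) *
          N (n1 + k + 1) + (((n1 + k : ℕ) : ℚ) + 2) * (((n1 + k : ℕ) : ℚ) + 1) * N (n1 + k) := by
        exact_mod_cast hr
      have hMq : (M (n1 + k + 2) : ℚ) = (((n1 + k : ℕ) : ℚ) + 2) * (4 * ((n1 + k : ℕ) : ℚ) + 6) *
          M (n1 + k + 1) + (((n1 + k : ℕ) : ℚ) + 2) * (((n1 + k : ℕ) : ℚ) + 1) * M (n1 + k) := by
        exact_mod_cast hM
      have hMq' : (M' (n1 + k + 2) : ℚ) = (((n1 + k : ℕ) : ℚ) + 2) * (4 * ((n1 + k : ℕ) : ℚ) + 6) *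
          M' (n1 + k + 1) + (((n1 + k : ℕ) : ℚ) + 2) * (((n1 + k : ℕ) : ℚ) + 1) * M' (n1 + k) := by
        exact_mod_cast hM'
      rw [hr', hMq, hMq', ih.1, ih.2]
      ring
  refine ⟨α, β, ?_⟩
  -- limit
  have hlim : ∀ k, |x - (α + β * exp 1)| ≤ κ / ((n1 + k : ℕ) : ℝ) ^ 2 +
      |(β : ℝ)| * (2 / 4 ^ (n1 + k)) := by
    intro k
    have hs : (N (n1 + k) : ℝ) = α * M (n1 + k) + β * M' (n1 + k) := by
      have := (hsol k).1
      exact_mod_cast this
    have hMp : (1 : ℝ) ≤ M (n1 + k) := by exact_mod_cast M_pos (n1 + k)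
    have hmul : (M (n1 + k) : ℝ) * (x - (α + β * exp 1)) =
        δ (n1 + k) - β * (M (n1 + k) * exp 1 - M' (n1 + k)) := by
      rw [hδ]
      simp only
      rw [hs]
      ring
    have h1 : |x - (α + β * exp 1)| ≤ |(M (n1 + k) : ℝ) * (x - (α + β * exp 1))| := by
      rw [abs_mul, Nat.abs_cast]
      nlinarith [abs_nonneg (x - (α + β * exp 1))]
    refine h1.trans ?_
    rw [hmul]
    refine (abs_sub _ _).trans ?_
    rw [abs_mul, M_e]
    gcongr
    · exact hδb _ (by omega)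
    · exact fac_I _
  have hz : |x - (α + β * exp 1)| ≤ 0 := by
    have t1 : Tendsto (fun k : ℕ => κ / ((n1 + k : ℕ) : ℝ) ^ 2 +
        |(β : ℝ)| * (2 / 4 ^ (n1 + k))) atTop (nhds (0 + |(β : ℝ)| * 0)) := by
      have hs : Tendsto (fun k : ℕ => n1 + k) atTop atTop :=
        tendsto_atTop_mono (fun k => Nat.le_add_left k n1) tendsto_id
      have a1 : Tendsto (fun n : ℕ => κ / (n : ℝ) ^ 2) atTop (nhds 0) := by
        apply Tendsto.div_atTop tendsto_const_nhds
        exact (tendsto_pow_atTop (by norm_num)).comp tendsto_natCast_atTop_atTop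
      have a2 : Tendsto (fun n : ℕ => (2 : ℝ) / 4 ^ n) atTop (nhds 0) := by
        apply Tendsto.div_atTop tendsto_const_nhds
        exact tendsto_pow_atTop_atTop_of_one_lt (by norm_num)
      exact (a1.comp hs).add ((a2.comp hs).const_mul _)
    rw [mul_zero, add_zero] at t1
    exact ge_of_tendsto' t1 hlim
  have := abs_nonpos_iff.mp hz
  linarith

end Pool.Agent.NH22.Seq
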