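import Pool.Agent.NH22.Seq

/-! Uniform simultaneous approximation to `ξ, η`, where `ξ` has irrationality exponent two. -/

set_option autoImplicit false

namespace Pool.Agent.NH22.Sim

open Real Filter Pool.Agent.NH22.Seq

/-- `ξ` has irrationality exponent two -/
def ExpTwo (ξ : ℝ) : Prop :=
  ∀ ε : ℝ, 0 < ε → ∃ c : ℝ, 0 < c ∧ ∀ Q : ℕ, 1 ≤ Q → ∀ m : ℤ, c ≤ (Q : ℝ) ^ (1 + ε) * |Q * ξ - m|

/-- integer version -/
theorem ExpTwo.int {ξ : ℝ} (h : ExpTwo ξ) {ε : ℝ} (hε : 0 < ε) : ∃ c : ℝ, 0 < c ∧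
    ∀ Q : ℤ, Q ≠ 0 → ∀ m : ℤ, c ≤ |(Q : ℝ)| ^ (1 + ε) * |Q * ξ - m| := by
  obtain ⟨c, hc, h⟩ := h ε hε
  refine ⟨c, hc, fun Q hQ m => ?_⟩
  rcases lt_or_gt_of_ne hQ with hneg | hpos
  · have h1 := h (-Q).toNat (by omega) (-m)
    have h2 : (((-Q).toNat : ℕ) : ℝ) = -(Q : ℝ) := by
      have : (((-Q).toNat : ℕ) : ℤ) = -Q := Int.toNat_of_nonneg (by omega)
      exact_mod_cast this
    rw [h2] at h1
    have h3 : |-(Q : ℝ) * ξ - ((-m : ℤ) : ℝ)| = |(Q : ℝ) * ξ - m| := by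
      rw [← abs_neg]; congr 1; push_cast; ring
    rw [h3] at h1
    rwa [abs_of_neg (show (Q : ℝ) < 0 by exact_mod_cast hneg)]
  · have h1 := h Q.toNat (by omega) m
    have h2 : ((Q.toNat : ℕ) : ℝ) = (Q : ℝ) := by
      have : ((Q.toNat : ℕ) : ℤ) = Q := Int.toNat_of_nonneg (by omega)
      exact_mod_cast this
    rw [h2] at h1
    rwa [abs_of_pos (show (0 : ℝ) < Q by exact_mod_cast hpos)]

theorem ExpTwo.ne {ξ : ℝ} (h : ExpTwo ξ) {Q m : ℤ} (hQ : Q ≠ 0) : (Q : ℝ) * ξ - m ≠ 0 := by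
  obtain ⟨c, hc, h1⟩ := h.int one_pos
  intro h0
  have := h1 Q hQ m
  rw [h0, abs_zero, mul_zero] at this
  linarith

theorem ExpTwo.irrational {ξ : ℝ} (h : ExpTwo ξ) : Irrational ξ := by
  rintro ⟨r, hr⟩
  apply h.ne (Q := r.den) (m := r.num) (by exact_mod_cast r.den_nz)
  rw [← hr]
  have : (r : ℝ) * r.den = r.num := by exact_mod_cast Rat.mul_den_eq_num r
  push_cast
  linarith

theorem expTwo_e : ExpTwo (exp 1) := Pool.Agent.H43R2.Cplx.EMeas.measure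

/-- the larger one of the distances of `q ξ`, `q η` to the nearest integers -/
noncomputable def Lq (ξ η : ℝ) (q : ℕ) : ℝ := max (di (q * ξ)) (di (q * η))

theorem Lq_pos {ξ η : ℝ} (h : ExpTwo ξ) {q : ℕ} (hq : 1 ≤ q) : 0 < Lq ξ η q := by
  apply lt_max_of_lt_left
  unfold di
  apply abs_pos.mpr
  have := h.ne (Q := q) (m := round ((q : ℝ) * ξ)) (by omega)
  push_cast at this
  exact this

/-- the set of admissible `q` at the scale `Y` -/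
def S (ξ η lam : ℝ) (Y : ℕ) : Set ℕ := {q | 1 ≤ q ∧ Lq ξ η q ≤ (Y : ℝ) ^ (-lam)}

/-- the least admissible `q` -/
noncomputable def f (ξ η lam : ℝ) (Y : ℕ) : ℕ := sInf (S ξ η lam Y)

/-- the set of scales after the approximation of scale `Y` -/
def U (ξ η lam : ℝ) (Y : ℕ) : Set ℕ := {Z | 1 ≤ Z ∧ (Z : ℝ) ^ (-lam) < Lq ξ η (f ξ η lam Y)}

/-- the next scale -/
noncomputable def g (ξ η lam : ℝ) (Y : ℕ) : ℕ := sInf (U ξ η lam Y)

/-- at each scale there is an admissible `q ≤ Y` -/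
def Adm (ξ η lam : ℝ) (Y₀ : ℕ) : Prop :=
  1 ≤ Y₀ ∧ ∀ Y : ℕ, Y₀ ≤ Y → ∃ q ∈ S ξ η lam Y, q ≤ Y

section

variable {ξ η lam : ℝ} {Y₀ : ℕ}

theorem f_mem (h : Adm ξ η lam Y₀) {Y : ℕ} (hY : Y₀ ≤ Y) : f ξ η lam Y ∈ S ξ η lam Y := by
  obtain ⟨q, hq, _⟩ := h.2 Y hY
  exact Nat.sInf_mem ⟨q, hq⟩

theorem f_le (h : Adm ξ η lam Y₀) {Y : ℕ} (hY : Y₀ ≤ Y) : f ξ η lam Y ≤ Y := by
  obtain ⟨q, hq, hq2⟩ := h.2 Y hY
  exact (Nat.sInf_le hq).trans hq2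

theorem U_nonempty (hξ : ExpTwo ξ) (hlam : 0 < lam) (h : Adm ξ η lam Y₀) {Y : ℕ} (hY : Y₀ ≤ Y) :
    (U ξ η lam Y).Nonempty := by
  have h1 : 0 < Lq ξ η (f ξ η lam Y) := Lq_pos hξ (f_mem h hY).1
  have h2 : Tendsto (fun Z : ℕ => (Z : ℝ) ^ (-lam)) atTop (nhds 0) :=
    (tendsto_rpow_neg_atTop hlam).comp tendsto_natCast_atTop_atTop
  obtain ⟨Z, hZ1, hZ2⟩ := ((h2.eventually_lt_const h1).and (eventually_ge_atTop 1)).exists
  exact ⟨Z, hZ2, hZ1⟩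

theorem g_mem (hξ : ExpTwo ξ) (hlam : 0 < lam) (h : Adm ξ η lam Y₀) {Y : ℕ} (hY : Y₀ ≤ Y) :
    g ξ η lam Y ∈ U ξ η lam Y := Nat.sInf_mem (U_nonempty hξ hlam h hY)

theorem lt_g (hξ : ExpTwo ξ) (hlam : 0 < lam) (h : Adm ξ η lam Y₀) {Y : ℕ} (hY : Y₀ ≤ Y) :
    Y < g ξ η lam Y := by
  by_contra hlt
  have h1 := g_mem hξ hlam h hY
  have h2 := (f_mem h hY).2
  have h3 : (Y : ℝ) ^ (-lam) ≤ (g ξ η lam Y : ℝ) ^ (-lam) := by
    apply Real.rpow_le_rpow_of_nonpos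
    · exact_mod_cast h1.1
    · exact_mod_cast not_lt.mp hlt
    · linarith
  have := h1.2
  linarith

theorem L_le (hξ : ExpTwo ξ) (hlam : 0 < lam) (h : Adm ξ η lam Y₀) {Y : ℕ} (hY : Y₀ ≤ Y) :
    Lq ξ η (f ξ η lam Y) ≤ 2 ^ lam * (g ξ η lam Y : ℝ) ^ (-lam) := by
  have h1 := lt_g hξ hlam h hY
  have hY1 : 1 ≤ Y := h.1.trans hY
  have h2 : g ξ η lam Y - 1 ∉ U ξ η lam Y := by
    intro hmem
    have : g ξ η lam Y ≤ g ξ η lam Y - 1 := Nat.sInf_le hmem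
    omega
  have h3 : Lq ξ η (f ξ η lam Y) ≤ ((g ξ η lam Y - 1 : ℕ) : ℝ) ^ (-lam) := by
    by_contra hlt
    exact h2 ⟨by omega, not_le.mp hlt⟩
  refine h3.trans ?_
  have h4 : (g ξ η lam Y : ℝ) / 2 ≤ ((g ξ η lam Y - 1 : ℕ) : ℝ) := by
    rw [Nat.cast_sub (by omega)]
    have : (2 : ℝ) ≤ g ξ η lam Y := by exact_mod_cast (by omega : 2 ≤ g ξ η lam Y)
    push_cast
    linarith
  have hg : (0 : ℝ) < g ξ η lam Y := by exact_mod_cast (by omega : 0 < g ξ η lam Y)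
  calc ((g ξ η lam Y - 1 : ℕ) : ℝ) ^ (-lam) ≤ ((g ξ η lam Y : ℝ) / 2) ^ (-lam) :=
        Real.rpow_le_rpow_of_nonpos (by positivity) h4 (by linarith)
    _ = 2 ^ lam * (g ξ η lam Y : ℝ) ^ (-lam) := by
        rw [Real.div_rpow hg.le (by norm_num), Real.rpow_neg (by norm_num : (0:ℝ) ≤ 2)]
        field_simp

theorem L_lt (hξ : ExpTwo ξ) (hlam : 0 < lam) (h : Adm ξ η lam Y₀) {Y : ℕ} (hY : Y₀ ≤ Y) :
    Lq ξ η (f ξ η lam (g ξ η lam Y)) < Lq ξ η (f ξ η lam Y) := by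
  have h1 := lt_g hξ hlam h hY
  exact (f_mem h (by omega : Y₀ ≤ g ξ η lam Y)).2.trans_lt (g_mem hξ hlam h hY).2

theorem f_lt (hξ : ExpTwo ξ) (hlam : 0 < lam) (h : Adm ξ η lam Y₀) {Y : ℕ} (hY : Y₀ ≤ Y) :
    f ξ η lam Y < f ξ η lam (g ξ η lam Y) := by
  have h1 := lt_g hξ hlam h hY
  have h2 := f_mem h (by omega : Y₀ ≤ g ξ η lam Y)
  have h3 : f ξ η lam (g ξ η lam Y) ∈ S ξ η lam Y := by
    refine ⟨h2.1, h2.2.trans ?_⟩
    apply Real.rpow_le_rpow_of_nonpos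
    · exact_mod_cast (h.1.trans hY)
    · exact_mod_cast h1.le
    · linarith
  have h4 : f ξ η lam Y ≤ f ξ η lam (g ξ η lam Y) := Nat.sInf_le h3
  rcases h4.lt_or_eq with h5 | h5
  · exact h5
  · exfalso
    have := L_lt hξ hlam h hY
    rw [← h5] at this
    exact lt_irrefl _ this

/-- **main estimate** -/
theorem small (hξ : ExpTwo ξ) (hlam1 : (√5 - 1) / 2 < lam) (hlam2 : lam < 1)
    (h : Adm ξ η lam Y₀) : ∃ Y₁ : ℕ, Y₀ ≤ Y₁ ∧ ∀ Y : ℕ, Y₁ ≤ Y →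
      6 * (g ξ η lam (g ξ η lam Y) : ℝ) * Lq ξ η (f ξ η lam Y) *
        Lq ξ η (f ξ η lam (g ξ η lam Y)) < 1 := by
  have h5 : 2 < √5 := by
    rw [Real.lt_sqrt (by norm_num)]; norm_num
  have h55 : √5 * √5 = 5 := Real.mul_self_sqrt (by norm_num)
  have hlam : 0 < lam := by linarith
  have hquad : 1 - lam < lam ^ 2 := by nlinarith
  -- choose `ε`
  obtain ⟨ε, hε, hε2⟩ : ∃ ε : ℝ, 0 < ε ∧ (1 + ε) * (1 - lam) < lam ^ 2 := by
    refine ⟨(lam ^ 2 - (1 - lam)) / 2, by linarith, ?_⟩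
    nlinarith
  obtain ⟨c, hc, hmeas⟩ := hξ ε hε
  set A : ℝ := 2 ^ lam / c with hA
  have hApos : 0 < A := by positivity
  set κ : ℝ := lam - (1 + ε) * (1 - lam) / lam with hκ
  have hκpos : 0 < κ := by
    rw [hκ, sub_pos, div_lt_iff₀ hlam]
    nlinarith
  set C : ℝ := 6 * (2 ^ lam * 2 ^ lam) * A ^ ((1 - lam) / lam) with hC
  have hCpos : 0 < C := by positivity
  have ht : Tendsto (fun Z : ℕ => C * (Z : ℝ) ^ (-κ)) atTop (nhds (C * 0)) :=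
    ((tendsto_rpow_neg_atTop hκpos).comp tendsto_natCast_atTop_atTop).const_mul C
  rw [mul_zero] at ht
  obtain ⟨Y₁, hY₁⟩ := eventually_atTop.mp (ht.eventually_lt_const one_pos)
  refine ⟨max Y₀ Y₁, le_max_left _ _, fun Y hY => ?_⟩
  have hYa : Y₀ ≤ Y := (le_max_left _ _).trans hY
  have hYb : Y₁ ≤ Y := (le_max_right _ _).trans hY
  set Y' : ℕ := g ξ η lam Y with hY'
  have h1 : Y < Y' := lt_g hξ hlam h hYa
  set Y'' : ℕ := g ξ η lam Y' with hY''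
  have h2 : Y' < Y'' := lt_g hξ hlam h (by omega)
  have hL := L_le hξ hlam h hYa
  rw [← hY'] at hL
  have hL' := L_le hξ hlam h (show Y₀ ≤ Y' by omega)
  rw [← hY''] at hL'
  have hYp : (0 : ℝ) < Y' := by exact_mod_cast (by omega : 0 < Y')
  have hYpp : (0 : ℝ) < Y'' := by exact_mod_cast (by omega : 0 < Y'')
  have hf1 := (f_mem h (show Y₀ ≤ Y' by omega)).1
  have hf2 := f_le h (show Y₀ ≤ Y' by omega)
  -- the measure
  have hm : c ≤ (Y' : ℝ) ^ (1 + ε) * Lq ξ η (f ξ η lam Y') := by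
    refine (hmeas _ hf1 (round ((f ξ η lam Y' : ℝ) * ξ))).trans ?_
    apply mul_le_mul _ (le_max_left _ _) (abs_nonneg _) (by positivity)
    apply Real.rpow_le_rpow (by positivity) (by exact_mod_cast hf2) (by linarith)
  have hm2 : (Y'' : ℝ) ^ lam ≤ A * (Y' : ℝ) ^ (1 + ε) := by
    have e1 : c ≤ (Y' : ℝ) ^ (1 + ε) * (2 ^ lam * (Y'' : ℝ) ^ (-lam)) :=
      hm.trans (mul_le_mul_of_nonneg_left hL' (by positivity))
    rw [Real.rpow_neg hYpp.le] at e1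
    have e2 : (0 : ℝ) < (Y'' : ℝ) ^ lam := by positivity
    rw [hA, div_mul_eq_mul_div, le_div_iff₀ hc]
    calc (Y'' : ℝ) ^ lam * c ≤ (Y'' : ℝ) ^ lam *
          ((Y' : ℝ) ^ (1 + ε) * (2 ^ lam * ((Y'' : ℝ) ^ lam)⁻¹)) := by gcongr
      _ = _ := by field_simp
  have hm3 : (Y'' : ℝ) ^ (1 - lam) ≤ A ^ ((1 - lam) / lam) * (Y' : ℝ) ^ ((1 + ε) * (1 - lam) / lam) := by
    have e3 : (Y'' : ℝ) ^ (1 - lam) = ((Y'' : ℝ) ^ lam) ^ ((1 - lam) / lam) := by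
      rw [← Real.rpow_mul hYpp.le]
      congr 1
      field_simp
    rw [e3]
    calc ((Y'' : ℝ) ^ lam) ^ ((1 - lam) / lam) ≤ (A * (Y' : ℝ) ^ (1 + ε)) ^ ((1 - lam) / lam) := by
          apply Real.rpow_le_rpow (by positivity) hm2
          apply div_nonneg (by linarith) hlam.le
      _ = _ := by
          rw [Real.mul_rpow hApos.le (by positivity), ← Real.rpow_mul hYp.le]
          congr 2
          ring
  calc 6 * (Y'' : ℝ) * Lq ξ η (f ξ η lam Y) * Lq ξ η (f ξ η lam Y')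
      ≤ 6 * (Y'' : ℝ) * (2 ^ lam * (Y' : ℝ) ^ (-lam)) * (2 ^ lam * (Y'' : ℝ) ^ (-lam)) := by
        have p1 : 0 ≤ Lq ξ η (f ξ η lam Y') := (Lq_pos hξ hf1).le
        gcongr
    _ = 6 * (2 ^ lam * 2 ^ lam) * ((Y'' : ℝ) ^ (1 - lam)) * (Y' : ℝ) ^ (-lam) := by
        rw [sub_eq_add_neg, Real.rpow_add hYpp, Real.rpow_one]
        ring
    _ ≤ 6 * (2 ^ lam * 2 ^ lam) * (A ^ ((1 - lam) / lam) *
          (Y' : ℝ) ^ ((1 + ε) * (1 - lam) / lam)) * (Y' : ℝ) ^ (-lam) := by gcongr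
    _ = C * (Y' : ℝ) ^ (-κ) := by
        have e4 : (Y' : ℝ) ^ (-κ) =
            (Y' : ℝ) ^ ((1 + ε) * (1 - lam) / lam) * (Y' : ℝ) ^ (-lam) := by
          rw [← Real.rpow_add hYp]
          congr 1
          rw [hκ]
          ring
        rw [hC, e4]
        ring
    _ < 1 := hY₁ Y' (by omega)

end

end Pool.Agent.NH22.Sim
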