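import Pool.Agent.NH22.Sim
import Pool.Agent.NH22.Chain

/-! Good uniform simultaneous approximation forces a linear relation. -/

set_option autoImplicit false

namespace Pool.Agent.NH22.Sim

open Real Filter Pool.Agent.NH22.Seq Pool.Agent.NH22.Chain

variable {ξ η lam : ℝ} {Y₀ : ℕ}

theorem rel_of_adm (hξ : ExpTwo ξ) (hlam1 : (√5 - 1) / 2 < lam) (hlam2 : lam < 1)
    (h : Adm ξ η lam Y₀) : ∃ a b c : ℤ, ¬ (a = 0 ∧ b = 0 ∧ c = 0) ∧ (a : ℝ) + b * ξ + c * η = 0 := by
  have h5 : 2 < √5 := by
    rw [Real.lt_sqrt (by norm_num)]; norm_num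
  have hlam : 0 < lam := by linarith
  obtain ⟨Y₁, hY₁, hsmall⟩ := small hξ hlam1 hlam2 h
  set s : ℕ → ℕ := fun k => (g ξ η lam)^[k] Y₁ with hs
  have hs0 : s 0 = Y₁ := rfl
  have hsS : ∀ k, s (k + 1) = g ξ η lam (s k) := fun k => by
    rw [hs]; exact Function.iterate_succ_apply' _ _ _
  have hsY : ∀ k, Y₁ + k ≤ s k := by
    intro k
    induction k with
    | zero => simp [hs0]
    | succ k ih =>
      have := lt_g hξ hlam h (show Y₀ ≤ s k by omega)
      rw [hsS]
      omega
  have hsY0 : ∀ k, Y₀ ≤ s k := fun k => by have := hsY k; omega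
  set q : ℕ → ℕ := fun k => f ξ η lam (s k) with hq
  set L : ℕ → ℝ := fun k => Lq ξ η (q k) with hL
  set x : ℕ → ℤ := fun k => q k with hx
  set y : ℕ → ℤ := fun k => round ((q k : ℝ) * ξ) with hy
  set z : ℕ → ℤ := fun k => round ((q k : ℝ) * η) with hz
  set a : ℕ → ℝ := fun k => (q k : ℝ) * ξ - y k with ha
  set b : ℕ → ℝ := fun k => (q k : ℝ) * η - z k with hb
  have hq1 : ∀ k, 1 ≤ q k := fun k => (f_mem h (hsY0 k)).1
  have hqlt : ∀ k, q k < q (k + 1) := fun k => by
    have := f_lt hξ hlam h (hsY0 k)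
    rw [← hsS] at this
    exact this
  have hLlt : ∀ k, L (k + 1) < L k := fun k => by
    have := L_lt hξ hlam h (hsY0 k)
    rw [← hsS] at this
    exact this
  have hLpos : ∀ k, 0 < L k := fun k => Lq_pos hξ (hq1 k)
  have haL : ∀ k, |a k| ≤ L k := fun k => le_max_left _ _
  have hbL : ∀ k, |b k| ≤ L k := fun k => le_max_right _ _
  have hLab : ∀ k, L k = max |a k| |b k| := fun k => rfl
  have hqs : ∀ k, q k ≤ s k := fun k => f_le h (hsY0 k)
  have hkey : ∀ k, 6 * (s (k + 2) : ℝ) * L k * L (k + 1) < 1 := fun k => by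
    have := hsmall (s k) (by have := hsY k; omega)
    rw [← hsS, ← hsS] at this
    exact this
  -- three consecutive vectors are dependent
  have hdet : ∀ k, c1 x y z k * x (k + 2) + c2 x y z k * y (k + 2) + c3 x y z k * z (k + 2) = 0 := by
    intro k
    have e : ((c1 x y z k * x (k + 2) + c2 x y z k * y (k + 2) + c3 x y z k * z (k + 2) : ℤ) : ℝ) =
        q k * (a (k + 1) * b (k + 2) - b (k + 1) * a (k + 2)) +
        q (k + 1) * (b k * a (k + 2) - a k * b (k + 2)) +
        q (k + 2) * (a k * b (k + 1) - b k * a (k + 1)) := by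
      rw [ha, hb]
      unfold c1 c2 c3
      simp only [hx]
      push_cast
      ring
    have hb2 : ∀ i j, |a i * b j - b i * a j| ≤ 2 * (L i * L j) := by
      intro i j
      calc |a i * b j - b i * a j| ≤ |a i * b j| + |b i * a j| := abs_sub _ _
        _ = |a i| * |b j| + |b i| * |a j| := by rw [abs_mul, abs_mul]
        _ ≤ L i * L j + L i * L j := by
            have := hLpos i
            have := hLpos j
            apply add_le_add
            · exact mul_le_mul (haL i) (hbL j) (abs_nonneg _) (hLpos i).le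
            · exact mul_le_mul (hbL i) (haL j) (abs_nonneg _) (hLpos i).le
        _ = _ := by ring
    have hq2 : (q (k + 2) : ℝ) ≤ s (k + 2) := by exact_mod_cast hqs (k + 2)
    have hq1' : (q (k + 1) : ℝ) ≤ s (k + 2) :=
      le_trans (by exact_mod_cast (hqlt (k + 1)).le) hq2
    have hq0' : (q k : ℝ) ≤ s (k + 2) := le_trans (by exact_mod_cast (hqlt k).le) hq1'
    have l0 := hLlt k
    have l1 := hLlt (k + 1)
    rw [show k + 1 + 1 = k + 2 by ring] at l1
    have p0 := hLpos k
    have p1 := hLpos (k + 1)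
    have p2 := hLpos (k + 2)
    have hsn : (0 : ℝ) ≤ s (k + 2) := by positivity
    have hlt : |((c1 x y z k * x (k + 2) + c2 x y z k * y (k + 2) +
        c3 x y z k * z (k + 2) : ℤ) : ℝ)| < 1 := by
      rw [e]
      refine lt_of_le_of_lt ?_ (hkey k)
      calc |(q k : ℝ) * (a (k + 1) * b (k + 2) - b (k + 1) * a (k + 2)) +
            q (k + 1) * (b k * a (k + 2) - a k * b (k + 2)) +
            q (k + 2) * (a k * b (k + 1) - b k * a (k + 1))|
          ≤ |(q k : ℝ) * (a (k + 1) * b (k + 2) - b (k + 1) * a (k + 2))| +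
            |(q (k + 1) : ℝ) * (b k * a (k + 2) - a k * b (k + 2))| +
            |(q (k + 2) : ℝ) * (a k * b (k + 1) - b k * a (k + 1))| := abs_add_three _ _ _
        _ = q k * |a (k + 1) * b (k + 2) - b (k + 1) * a (k + 2)| +
            q (k + 1) * |a k * b (k + 2) - b k * a (k + 2)| +
            q (k + 2) * |a k * b (k + 1) - b k * a (k + 1)| := by
            rw [abs_mul, abs_mul, abs_mul, Nat.abs_cast, Nat.abs_cast, Nat.abs_cast,
              abs_sub_comm (b k * a (k + 2))]
        _ ≤ s (k + 2) * (2 * (L (k + 1) * L (k + 2))) + s (k + 2) * (2 * (L k * L (k + 2))) +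
            s (k + 2) * (2 * (L k * L (k + 1))) := by
            gcongr <;> exact hb2 _ _
        _ ≤ s (k + 2) * (2 * (L k * L (k + 1))) + s (k + 2) * (2 * (L k * L (k + 1))) +
            s (k + 2) * (2 * (L k * L (k + 1))) := by
            have e1 : L (k + 1) * L (k + 2) ≤ L k * L (k + 1) := by nlinarith
            have e2 : L k * L (k + 2) ≤ L k * L (k + 1) := by nlinarith
            gcongr
        _ = 6 * (s (k + 2) : ℝ) * L k * L (k + 1) := by ring
    have : |c1 x y z k * x (k + 2) + c2 x y z k * y (k + 2) + c3 x y z k * z (k + 2)| < 1 := by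
      exact_mod_cast hlt
    exact Int.abs_lt_one_iff.mp this
  -- two consecutive vectors are independent
  have hnz : ∀ k, Nz x y z k := by
    rintro k ⟨-, h2, h3⟩
    have h2' : (z k : ℝ) * q (k + 1) = q k * z (k + 1) := by
      have : z k * x (k + 1) = x k * z (k + 1) := by unfold c2 at h2; linarith
      simp only [hx] at this
      exact_mod_cast this
    have h3' : (q k : ℝ) * y (k + 1) = y k * q (k + 1) := by
      have : x k * y (k + 1) = y k * x (k + 1) := by unfold c3 at h3; linarith
      simp only [hx] at this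
      exact_mod_cast this
    have hqk : (0 : ℝ) < q k := by exact_mod_cast hq1 k
    have hqk1 : (0 : ℝ) < q (k + 1) := by exact_mod_cast hq1 (k + 1)
    have e1 : (q k : ℝ) * |a (k + 1)| = q (k + 1) * |a k| := by
      have : (q k : ℝ) * a (k + 1) = q (k + 1) * a k := by
        rw [ha]; simp only; linear_combination (-1 : ℝ) * h3'
      have := congrArg abs this
      rwa [abs_mul, abs_mul, Nat.abs_cast, Nat.abs_cast] at this
    have e2 : (q k : ℝ) * |b (k + 1)| = q (k + 1) * |b k| := by
      have : (q k : ℝ) * b (k + 1) = q (k + 1) * b k := by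
        rw [hb]; simp only; linear_combination h2'
      have := congrArg abs this
      rwa [abs_mul, abs_mul, Nat.abs_cast, Nat.abs_cast] at this
    have e3 : (q k : ℝ) * L (k + 1) = q (k + 1) * L k := by
      rw [hLab, hLab, mul_max_of_nonneg _ _ hqk.le, mul_max_of_nonneg _ _ hqk1.le, e1, e2]
    have l0 := hLlt k
    have l1 : (q k : ℝ) < q (k + 1) := by exact_mod_cast hqlt k
    have p0 := hLpos k
    nlinarith
  have hch := chain x y z hdet hnz
  refine ⟨c1 x y z 0, c2 x y z 0, c3 x y z 0, hnz 0, ?_⟩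
  set A : ℤ := c1 x y z 0
  set B : ℤ := c2 x y z 0
  set C : ℤ := c3 x y z 0
  have hbound : ∀ k, |(A : ℝ) + B * ξ + C * η| ≤ (|(B : ℝ)| + |(C : ℝ)|) * (s k : ℝ) ^ (-lam) := by
    intro k
    have hk := (hch k).1
    have hk' : (A : ℝ) * q k + B * y k + C * z k = 0 := by
      have : ((A * x k + B * y k + C * z k : ℤ) : ℝ) = 0 := by rw [hk]; simp
      simp only [hx] at this
      push_cast at this
      exact this
    have hqk : (1 : ℝ) ≤ q k := by exact_mod_cast hq1 k
    have e : (q k : ℝ) * (A + B * ξ + C * η) = B * a k + C * b k := by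
      rw [ha, hb]; simp only; linear_combination hk'
    have h1 : |(A : ℝ) + B * ξ + C * η| ≤ |(q k : ℝ) * (A + B * ξ + C * η)| := by
      rw [abs_mul, Nat.abs_cast]
      nlinarith [abs_nonneg ((A : ℝ) + B * ξ + C * η)]
    refine h1.trans ?_
    rw [e]
    calc |(B : ℝ) * a k + C * b k| ≤ |(B : ℝ) * a k| + |(C : ℝ) * b k| := abs_add_le _ _
      _ = |(B : ℝ)| * |a k| + |(C : ℝ)| * |b k| := by rw [abs_mul, abs_mul]
      _ ≤ |(B : ℝ)| * L k + |(C : ℝ)| * L k := by
          gcongr
          · exact haL k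
          · exact hbL k
      _ = (|(B : ℝ)| + |(C : ℝ)|) * L k := by ring
      _ ≤ _ := by
          have := (f_mem h (hsY0 k)).2
          apply mul_le_mul_of_nonneg_left this (by positivity)
  have hlim : Tendsto (fun k : ℕ => (|(B : ℝ)| + |(C : ℝ)|) * (s k : ℝ) ^ (-lam)) atTop
      (nhds ((|(B : ℝ)| + |(C : ℝ)|) * 0)) := by
    apply Tendsto.const_mul
    have t1 : Tendsto s atTop atTop := by
      apply tendsto_atTop_mono (fun k => (by have := hsY k; omega : k ≤ s k)) tendsto_id
    exact (tendsto_rpow_neg_atTop hlam).comp (tendsto_natCast_atTop_atTop.comp t1)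
  rw [mul_zero] at hlim
  have := ge_of_tendsto' hlim hbound
  exact abs_nonpos_iff.mp this

end Pool.Agent.NH22.Sim
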