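import Pool.Agent.NH22.Seq

/-! The sequences `n! (u B_n + v A_n)`, where `A_n / B_n` are convergents of `e`. -/

set_option autoImplicit false

namespace Pool.Agent.NH22.TwoSeq

open Pool.Agent.H43R2.Cplx Real Filter Pool.Agent.NH22.Seq

theorem di_lip (x y : ℝ) : di x ≤ di y + |x - y| := by
  refine (di_le x (round y)).trans ?_
  have e : x - round y = (y - round y) + (x - y) := by ring
  rw [e]
  exact abs_add_le _ _

/-- comparison of the two multiples -/
theorem compare (x : ℝ) (u v : ℤ) (n : ℕ) :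
    |((u * M n + v * M' n : ℤ) : ℝ) * x - M n * ((u + v * exp 1) * x)| ≤
      |(v : ℝ)| * |x| * (2 / 4 ^ n) := by
  have e : ((u * M n + v * M' n : ℤ) : ℝ) * x - M n * ((u + v * exp 1) * x) =
      -(v * x * (M n * exp 1 - M' n)) := by
    push_cast; ring
  rw [e, abs_neg, abs_mul, abs_mul, M_e]
  exact mul_le_mul_of_nonneg_left (fac_I n) (by positivity)

theorem small_of_mem' {x : ℝ} {u v : ℤ} (h : ∃ a b : ℚ, (u + v * exp 1) * x = a + b * exp 1) :
    ∃ C : ℝ, ∀ n : ℕ, di (((u * M n + v * M' n : ℤ) : ℝ) * x) ≤ C / 4 ^ n := by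
  obtain ⟨a, b, hab⟩ := h
  obtain ⟨C, hC⟩ := small_of_mem hab
  refine ⟨C + |(v : ℝ)| * |x| * 2, fun n => ?_⟩
  refine (di_lip _ (M n * ((u + v * exp 1) * x))).trans ?_
  refine (add_le_add (hC n) (compare x u v n)).trans (le_of_eq ?_)
  ring

theorem mem_of_small' {x κ : ℝ} {u v : ℤ} (hκ : κ < 1 / 5)
    (h : ∀ᶠ n : ℕ in atTop, (n : ℝ) ^ 2 * di (((u * M n + v * M' n : ℤ) : ℝ) * x) ≤ κ) :
    ∃ a b : ℚ, (u + v * exp 1) * x = a + b * exp 1 := by
  obtain ⟨κ', hκ'⟩ : ∃ κ' : ℝ, κ' = (max κ 0 + 1 / 5) / 2 := ⟨_, rfl⟩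
  have h0 : max κ 0 < 1 / 5 := max_lt hκ (by norm_num)
  have h1 : 0 ≤ max κ 0 := le_max_right _ _
  refine mem_of_small (κ := κ') (by rw [hκ']; linarith) (by rw [hκ']; linarith) ?_
  have ht := tend_four (|(v : ℝ)| * |x| * 2)
  have hgap : (0 : ℝ) < κ' - max κ 0 := by rw [hκ']; linarith
  filter_upwards [h, ht.eventually_le_const hgap] with n hn hn2
  have h3 := di_lip (M n * ((u + v * exp 1) * x)) (((u * M n + v * M' n : ℤ) : ℝ) * x)
  have h4 := compare x u v n
  rw [abs_sub_comm] at h4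
  have h5 : |(v : ℝ)| * |x| * (2 / 4 ^ n) = |(v : ℝ)| * |x| * 2 / 4 ^ n := by ring
  rw [h5] at h4
  have h6 : (0 : ℝ) ≤ (n : ℝ) ^ 2 := by positivity
  have h7 : (n : ℝ) ^ 2 * di (M n * ((u + v * exp 1) * x)) ≤
      (n : ℝ) ^ 2 * (di (((u * M n + v * M' n : ℤ) : ℝ) * x) + |(v : ℝ)| * |x| * 2 / 4 ^ n) :=
    mul_le_mul_of_nonneg_left (h3.trans (add_le_add le_rfl h4)) h6
  have h8 := le_max_left κ 0
  rw [mul_add] at h7
  linarith

/-- rational and integer relations -/
theorem li4_iff (x : ℝ) : LinearIndependent ℚ ![(1 : ℝ), exp 1, x, exp 1 * x] ↔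
    ∀ u v : ℤ, ¬ (u = 0 ∧ v = 0) → ¬ ∃ a b : ℚ, (u + v * exp 1) * x = a + b * exp 1 := by
  rw [Fintype.linearIndependent_iff]
  constructor
  · rintro h u v huv ⟨a, b, hx⟩
    have h1 := h ![a, b, -u, -v] (by
      simp [Fin.sum_univ_succ, Rat.smul_def]
      linear_combination (-1 : ℝ) * hx)
    apply huv
    have h2 := h1 2
    have h3 := h1 3
    simp at h2 h3
    exact ⟨h2, h3⟩
  · intro h g hg
    simp only [Fin.sum_univ_succ, Fin.sum_univ_zero, Matrix.cons_val_zero, Matrix.cons_val_succ,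
      Rat.smul_def, add_zero, mul_one] at hg
    have hg' : (g 0 : ℝ) + g 1 * exp 1 + g 2 * x + g 3 * (exp 1 * x) = 0 := by
      have e1 : (Fin.succ 0 : Fin 4) = 1 := rfl
      have e2 : (Fin.succ (Fin.succ 0) : Fin 4) = 2 := rfl
      have e3 : (Fin.succ (Fin.succ (Fin.succ 0)) : Fin 4) = 3 := rfl
      rw [e1, e2, e3] at hg
      linarith
    by_cases h23 : g 2 = 0 ∧ g 3 = 0
    · rw [h23.1, h23.2] at hg'
      have h3 := Lin.rel_e (a := g 0) (b := g 1) (by push_cast at hg' ⊢; linarith)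
      intro i
      fin_cases i
      · exact h3.1
      · exact h3.2
      · exact h23.1
      · exact h23.2
    · exfalso
      have hd2 : ((g 2).den : ℤ) ≠ 0 := by exact_mod_cast (g 2).den_nz
      have hd3 : ((g 3).den : ℤ) ≠ 0 := by exact_mod_cast (g 3).den_nz
      refine h ((g 2).num * (g 3).den) ((g 3).num * (g 2).den) ?_
        ⟨-(g 0) * ((g 2).den * (g 3).den), -(g 1) * ((g 2).den * (g 3).den), ?_⟩
      · rintro ⟨a1, a2⟩
        apply h23
        constructor
        · have := (mul_eq_zero.mp a1).resolve_right hd3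
          exact Rat.num_eq_zero.mp this
        · have := (mul_eq_zero.mp a2).resolve_right hd2
          exact Rat.num_eq_zero.mp this
      · have e2 : ((g 2 : ℚ) : ℝ) * (g 2).den = (g 2).num := by
          exact_mod_cast Rat.mul_den_eq_num (g 2)
        have e3 : ((g 3 : ℚ) : ℝ) * (g 3).den = (g 3).num := by
          exact_mod_cast Rat.mul_den_eq_num (g 3)
        push_cast
        rw [← e2, ← e3]
        linear_combination (((g 2).den : ℝ) * (g 3).den) * hg'

end Pool.Agent.NH22.TwoSeq
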